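import Mathlib

/-! Gaussian integer preparations for the elated function. -/

set_option autoImplicit false

namespace Pool.Agent.V11309.Elated

open Zsqrtd

/-- Gaussian integers -/
abbrev GI := GaussianInt

/-- the unit `i` -/
def I : GI := ⟨0, 1⟩

/-- the integer `D` as a Gaussian integer -/
def D : GI := ((66495 : ℤ) : GI)

/-- `τ = D 2^n + i` -/
def tau (n : ℕ) : GI := ⟨66495 * 2 ^ n, 1⟩

/-- `π = 4 τ^2 - D` -/
def pp (n : ℕ) : GI := 4 * tau n ^ 2 - D

lemma tau_eq (n : ℕ) : tau n = D * 2 ^ n + I := by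
  have h2 : (D * 2 ^ n : GI) = ((66495 * 2 ^ n : ℤ) : GI) := by rw [D]; push_cast; rfl
  rw [h2, Zsqrtd.ext_iff, Zsqrtd.re_add, Zsqrtd.im_add, Zsqrtd.re_intCast, Zsqrtd.im_intCast]
  simp [tau, I]

lemma I_sq : I * I = -1 := by
  rw [Zsqrtd.ext_iff]; simp [I]

lemma star_I : star I = -I := by
  rw [Zsqrtd.ext_iff]; simp [I]

lemma star_D : star D = D := by
  rw [Zsqrtd.ext_iff]; simp [D]

lemma cop2 (n : ℕ) : IsCoprime (pp n) 2 := by
  refine ⟨-1, 2 * tau n ^ 2 - 33247, ?_⟩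
  have : (D : GI) = 66495 := by simp [D]
  rw [pp, this]
  ring

lemma copD (n : ℕ) : IsCoprime (pp n) D := by
  have hD : (D : GI) = 66495 := by simp [D]
  refine ⟨-16624, 16624 * (4 * (D * 2 ^ n * 2 ^ n + 2 * 2 ^ n * I) - 1) - 1, ?_⟩
  rw [pp, tau_eq]
  linear_combination (-16624 * 4) * I_sq - hD

lemma copI (n : ℕ) : IsCoprime (pp n) I := ⟨0, -I, by linear_combination -I_sq⟩

lemma star_pp (n : ℕ) : star (pp n) = pp n + 2 ^ 4 * D * 2 ^ n * (-I) := by
  rw [pp, tau_eq]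
  have h2 : star ((2 : GI)) = 2 := by rw [Zsqrtd.ext_iff]; simp
  have h4 : star ((4 : GI)) = 4 := by rw [Zsqrtd.ext_iff]; simp
  simp only [star_sub, star_mul, star_pow, star_add, star_D, star_I, h2, h4]
  ring

lemma copstar (n : ℕ) : IsCoprime (pp n) (star (pp n)) := by
  rw [star_pp]
  have h : IsCoprime (pp n) (2 ^ 4 * D * 2 ^ n * (-I)) :=
    ((((cop2 n).pow_right).mul_right (copD n)).mul_right (cop2 n).pow_right).mul_right
      (copI n).neg_right
  have := h.add_mul_left_right 1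
  rwa [mul_one, add_comm] at this

lemma hensel (n m : ℕ) : ∃ Ω : GI, pp n ^ (m + 1) ∣ Ω ^ 2 + D := by
  induction m with
  | zero =>
    refine ⟨I * (2 * tau n), ⟨-1, ?_⟩⟩
    rw [pp]
    linear_combination (4 * tau n ^ 2) * I_sq
  | succ m ih =>
    obtain ⟨Ω, T, hT⟩ := ih
    have hc : IsCoprime (2 * Ω) (pp n) := by
      refine IsCoprime.mul_left (cop2 n).symm ?_
      have h1 : IsCoprime (Ω ^ 2) (pp n) := by
        have h2 : Ω ^ 2 = -D + pp n * (pp n ^ m * T) := by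
          rw [pow_succ'] at hT
          linear_combination hT
        rw [h2]
        exact ((copD n).symm.neg_left).add_mul_left_left _
      exact (IsCoprime.pow_left_iff (by norm_num)).1 h1
    obtain ⟨a, b, hab⟩ := hc
    refine ⟨Ω + pp n ^ (m + 1) * (-(T * a)), ⟨T * b + pp n ^ m * (T * a) ^ 2, ?_⟩⟩
    have e : (Ω + pp n ^ (m + 1) * (-(T * a))) ^ 2 + D =
        (Ω ^ 2 + D) - 2 * Ω * pp n ^ (m + 1) * (T * a) + (pp n ^ (m + 1) * (T * a)) ^ 2 := by ring
    rw [e, hT]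
    have hb : b * pp n = 1 - a * (2 * Ω) := by linear_combination hab
    have e2 : pp n ^ (m + 1 + 1) * (T * b + pp n ^ m * (T * a) ^ 2) =
        pp n ^ (m + 1) * T * (b * pp n) + (pp n ^ (m + 1) * (T * a)) ^ 2 := by ring
    rw [e2, hb]
    ring

/-- surjectivity of `ℤ → ℤ[i] / ϖ` -/
lemma surj (w : GI) (hw : IsCoprime w (star w)) (α : GI) : ∃ s : ℤ, w ∣ α - s := by
  obtain ⟨x, y, h⟩ := hw
  set β := α * (y * star w) with hβ
  refine ⟨2 * β.re, ?_⟩
  have h1 : (((2 * β.re : ℤ)) : GI) = β + star β := by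
    rw [Zsqrtd.ext_iff]
    simp
    ring
  rw [h1]
  have h2 : star β = star α * star y * w := by
    rw [hβ]; simp only [star_mul, star_star]; ring
  rw [h2]
  refine ⟨α * x - star α * star y, ?_⟩
  rw [hβ]
  linear_combination (-α) * h

lemma cop520 (n m : ℕ) : IsCoprime (pp n ^ m) (520 : GI) := by
  have hD : (D : GI) = 1023 * 65 := by simp [D]; norm_num
  have h65 : IsCoprime (pp n) (65 : GI) := by
    have := copD n
    rw [hD] at this
    exact this.of_mul_right_right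
  have h : (520 : GI) = 2 ^ 3 * 65 := by norm_num
  rw [h]
  exact (((cop2 n).pow_right).mul_right h65).pow_left

/-- the base `b = b(k)` -/
def bb (k : ℤ) : ℤ := 2080 * k ^ 2 + 144 * k + 514

/-- the Gaussian integer `z_0 (k)` of norm `65 b^2 - 1023` -/
def z0 (k : ℤ) : GI := ⟨4 * bb k - 2 - 56 * k, 7 * bb k + 1 + 32 * k⟩

lemma z0_eq (k : ℤ) : (2 * ⟨4, -7⟩ : GI) * z0 k = ((18 + 520 * k : ℤ) + I) ^ 2 + D := by
  rw [Zsqrtd.ext_iff]
  simp [z0, bb, I, D, pow_two]
  constructor <;> ring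

lemma cop65 (n m : ℕ) : IsCoprime (pp n ^ m) (2 * ⟨4, -7⟩ : GI) := by
  have h1 : IsCoprime (pp n) (65 : GI) := by
    have hD : (D : GI) = 1023 * 65 := by simp [D]; norm_num
    have := copD n
    rw [hD] at this
    exact this.of_mul_right_right
  have h2 : (65 : GI) = ⟨4, -7⟩ * ⟨4, 7⟩ := by
    rw [Zsqrtd.ext_iff]; simp
  rw [h2] at h1
  exact ((cop2 n).mul_right h1.of_mul_right_left).pow_left

lemma exists_k (n m : ℕ) (K : ℤ) : ∃ k : ℤ, K ≤ k ∧ pp n ^ (m + 1) ∣ z0 k := by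
  obtain ⟨Ω, hΩ⟩ := hensel n m
  set w := pp n ^ (m + 1) with hw
  have hww : IsCoprime w (star w) := by
    rw [hw, star_pow]
    exact (copstar n).pow
  obtain ⟨a, b, hab⟩ := cop520 n (m + 1)
  rw [← hw] at hab
  obtain ⟨k0, hk0⟩ := surj w hww (b * (Ω - 18 - I))
  -- shift
  set Nw : ℤ := w.norm with hNw
  have hN : w ∣ (Nw : GI) := by
    rw [hNw, Zsqrtd.norm_eq_mul_conj]
    exact dvd_mul_right _ _
  have hNpos : Nw ≠ 0 := by
    intro h0
    have hw0 : w = 0 := by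
      rwa [hNw, GaussianInt.norm_eq_zero] at h0
    rw [hw0] at hww
    obtain ⟨x, y, hxy⟩ := hww
    simp at hxy
  have hNpos' : 0 < Nw := lt_of_le_of_ne (GaussianInt.norm_nonneg w) (Ne.symm hNpos)
  refine ⟨k0 + Nw * |K - k0|, ?_, ?_⟩
  · have h1 : K - k0 ≤ |K - k0| := le_abs_self _
    have h2 : |K - k0| ≤ Nw * |K - k0| := by
      have := abs_nonneg (K - k0)
      nlinarith
    linarith
  · set k := k0 + Nw * |K - k0| with hk
    have h1 : w ∣ b * (Ω - 18 - I) - (k : GI) := by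
      have : (b * (Ω - 18 - I) - (k : GI)) = (b * (Ω - 18 - I) - (k0 : GI)) - (Nw : GI) * ((|K - k0| : ℤ) : GI) := by
        rw [hk]; push_cast; ring
      rw [this]
      exact dvd_sub hk0 (hN.mul_right _)
    have h2 : w ∣ (((18 + 520 * k : ℤ) : GI) + I) - Ω := by
      obtain ⟨c, hc⟩ := h1
      refine ⟨-(520 * c) - a * (Ω - 18 - I), ?_⟩
      push_cast
      linear_combination (-520) * hc + (Ω - 18 - I) * hab
    have h3 : w ∣ (((18 + 520 * k : ℤ) : GI) + I) ^ 2 + D := by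
      have : (((18 + 520 * k : ℤ) : GI) + I) ^ 2 + D =
          ((((18 + 520 * k : ℤ) : GI) + I) - Ω) * ((((18 + 520 * k : ℤ) : GI) + I) + Ω) + (Ω ^ 2 + D) := by ring
      rw [this]
      exact dvd_add (h2.mul_right _) hΩ
    rw [← z0_eq] at h3
    exact (cop65 n (m + 1)).dvd_of_dvd_mul_left h3

end Pool.Agent.V11309.Elated
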