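import Mathlib
import Pool.Agent.Helper923.PNT

/-! Primes in residue classes in short multiplicative intervals. -/

set_option autoImplicit false

namespace Pool.Agent.V11309.PrimeAP

open Filter Topology Finset ArithmeticFunction

noncomputable def R {q : ℕ} [NeZero q] (a : ZMod q) (x : ℝ) : ℝ :=
  ∑ k ∈ Finset.Icc 1 ⌊x⌋₊, vonMangoldt.residueClass a k

lemma R_lim {q : ℕ} [NeZero q] {a : ZMod q} (ha : IsUnit a) (α : ℝ) (hα : 0 < α) :
    Tendsto (fun x : ℝ => R a (α * x) / x) atTop (𝓝 (α * ((q.totient : ℝ)⁻¹))) := by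
  have h := Pool.Agent.Helper923.PNT.pnt_residueClass ha
  have h1 : Tendsto (fun x : ℝ => α * x) atTop atTop := tendsto_id.const_mul_atTop hα
  have h2 := (h.comp h1).const_mul α
  refine h2.congr' ?_
  filter_upwards [eventually_gt_atTop 0] with x hx
  simp only [Function.comp, R]
  field_simp

theorem prime_in_interval {q : ℕ} [NeZero q] {a : ZMod q} (ha : IsUnit a) (α β : ℝ) (hα : 0 < α)
    (hαβ : α < β) :
    ∀ᶠ x : ℝ in atTop, ∃ p : ℕ, p.Prime ∧ α * x < p ∧ (p : ℝ) ≤ β * x ∧ (p : ZMod q) = a := by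
  have hβ : 0 < β := hα.trans hαβ
  have hφ : (0 : ℝ) < (q.totient : ℝ)⁻¹ := by
    have : 0 < q.totient := Nat.totient_pos.2 (Nat.pos_of_ne_zero (NeZero.ne q))
    positivity
  have h1 := (R_lim ha β hβ).sub (R_lim ha α hα)
  rw [← sub_mul] at h1
  have h2 : Tendsto (fun x : ℝ => (Chebyshev.psi (β * x) - Chebyshev.theta (β * x)) / x) atTop
      (𝓝 0) := by
    have hb : Tendsto (fun x : ℝ => β * x) atTop atTop := tendsto_id.const_mul_atTop hβ
    have h3 := ((Pool.Agent.Helper923.PNT.psi_div_tendsto.sub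
      Pool.Agent.Helper923.PNT.theta_div_tendsto).comp hb).const_mul β
    rw [sub_self, mul_zero] at h3
    refine h3.congr' ?_
    filter_upwards [eventually_gt_atTop 0] with x hx
    simp only [Function.comp]
    field_simp
  have hpos : 0 < (β - α) * (q.totient : ℝ)⁻¹ := mul_pos (by linarith) hφ
  have e1 := h1.eventually (lt_mem_nhds (half_lt_self hpos))
  have e2 := h2.eventually (gt_mem_nhds (half_pos hpos))
  filter_upwards [e1, e2, eventually_gt_atTop 0] with x hx1 hx2 hx
  by_contra hcon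
  push Not at hcon
  have hle : R a (β * x) - R a (α * x) ≤ Chebyshev.psi (β * x) - Chebyshev.theta (β * x) := by
    rw [Chebyshev.psi_sub_theta_eq_sum_not_prime]
    unfold R
    have hfl : ⌊α * x⌋₊ ≤ ⌊β * x⌋₊ := Nat.floor_le_floor (by nlinarith)
    have hsplit : Finset.Icc 1 ⌊β * x⌋₊ = Finset.Icc 1 ⌊α * x⌋₊ ∪ Finset.Ioc ⌊α * x⌋₊ ⌊β * x⌋₊ := by
      ext k
      simp only [Finset.mem_union, Finset.mem_Icc, Finset.mem_Ioc]
      omega
    have hdisj : Disjoint (Finset.Icc 1 ⌊α * x⌋₊) (Finset.Ioc ⌊α * x⌋₊ ⌊β * x⌋₊) := by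
      rw [Finset.disjoint_left]
      intro k h1 h2
      rw [Finset.mem_Icc] at h1
      rw [Finset.mem_Ioc] at h2
      omega
    rw [hsplit, Finset.sum_union hdisj, add_sub_cancel_left]
    calc ∑ k ∈ Finset.Ioc ⌊α * x⌋₊ ⌊β * x⌋₊, vonMangoldt.residueClass a k
        = ∑ k ∈ (Finset.Ioc ⌊α * x⌋₊ ⌊β * x⌋₊).filter (fun k => ¬ k.Prime),
          vonMangoldt.residueClass a k := by
          rw [Finset.sum_filter]
          apply Finset.sum_congr rfl
          intro k hk
          rw [Finset.mem_Ioc] at hk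
          split_ifs with hp
          · unfold vonMangoldt.residueClass
            rw [Set.indicator_of_notMem]
            intro hka
            have h3 : α * x < k := Nat.lt_of_floor_lt hk.1
            have h4 : (k : ℝ) ≤ β * x := (Nat.le_floor_iff (by positivity)).1 hk.2
            exact hcon k hp h3 h4 hka
          · rfl
      _ ≤ ∑ k ∈ (Finset.Ioc ⌊α * x⌋₊ ⌊β * x⌋₊).filter (fun k => ¬ k.Prime), vonMangoldt k :=
          Finset.sum_le_sum fun k _ => vonMangoldt.residueClass_le a k
      _ ≤ _ := by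
          apply Finset.sum_le_sum_of_subset_of_nonneg
          · apply Finset.filter_subset_filter
            intro k hk
            rw [Finset.mem_Ioc] at hk ⊢
            omega
          · intro _ _ _
            exact vonMangoldt_nonneg
  have h3 : (R a (β * x) - R a (α * x)) / x ≤
      (Chebyshev.psi (β * x) - Chebyshev.theta (β * x)) / x :=
    div_le_div_of_nonneg_right hle hx.le
  rw [sub_div] at h3
  linarith

end Pool.Agent.V11309.PrimeAP
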