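import Mathlib

/-! Cantor series expansions: digits, block counts, weights, normality. -/

set_option autoImplicit false

namespace Pool.Agent.V11309.Cantor

open Filter Topology Finset

/-- The `n`-th digit `E_n` (`n ≥ 1`) of the `Q`-Cantor series expansion of `x`:
`E_n = ⌊q_1 ⋯ q_n x⌋ mod q_n`. -/
noncomputable def digit (Q : ℕ → ℕ) (x : ℝ) (n : ℕ) : ℤ :=
  ⌊(∏ i ∈ Icc 1 n, (Q i : ℝ)) * x⌋ % (Q n : ℤ)

/-- The block `B = (B 0, …, B (k-1))` occurs at position `p`: `E_{p+j} = B j` for all `j < k`. -/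
def Occurs (Q : ℕ → ℕ) (x : ℝ) {k : ℕ} (B : Fin k → ℕ) (p : ℕ) : Prop :=
  ∀ j : Fin k, digit Q x (p + j) = (B j : ℤ)

open Classical in
/-- The number of positions `1 ≤ p ≤ n`, `p ≡ r mod m`, at which `B` occurs (`m = 1`, `r = 0`: all
positions). -/
noncomputable def count (Q : ℕ → ℕ) (x : ℝ) {k : ℕ} (B : Fin k → ℕ) (m r n : ℕ) : ℕ :=
  ((Icc 1 n).filter fun p => p % m = r ∧ Occurs Q x B p).card

/-- `∑ 1 / (q_p q_{p+1} ⋯ q_{p+k-1})` over the positions `1 ≤ p ≤ n`, `p ≡ r mod m`. -/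
noncomputable def weight (Q : ℕ → ℕ) (k m r n : ℕ) : ℝ :=
  ∑ p ∈ (Icc 1 n).filter (fun p => p % m = r), (∏ j ∈ range k, (Q (p + j) : ℝ))⁻¹

/-- The set of the numbers `x` such that every block of length `k` occurs with the right frequency
along the positions `p ≡ r mod m`. For `m = 1`, `r = 0` these are the numbers which are `Q`-normal
of order `k`. -/
def NormalAP (Q : ℕ → ℕ) (k m r : ℕ) : Set ℝ :=
  {x | ∀ B : Fin k → ℕ,
    Tendsto (fun n => (count Q x B m r n : ℝ) / weight Q k m r n) atTop (𝓝 1)}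

/-- The set of the `Q`-normal numbers (of all orders `k ≥ 1`). -/
def Normal (Q : ℕ → ℕ) : Set ℝ := {x | ∀ k, 1 ≤ k → x ∈ NormalAP Q k 1 0}

/-- `Q` is fully divergent of type I. -/
def FullyDivergentI (Q : ℕ → ℕ) : Prop :=
  ∀ k m r, 1 ≤ k → 1 ≤ m → r < m → Tendsto (weight Q k m r) atTop atTop

end Pool.Agent.V11309.Cantor
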