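import Mathlib
import Pool.Agent.V11309.CantorDef

/-! Constructing a real number with prescribed `Q`-Cantor digits. -/

set_option autoImplicit false

namespace Pool.Agent.V11309.FromDigits

open Filter Topology Finset Pool.Agent.V11309.Cantor

/-- `q_1 ⋯ q_n` -/
def PP (Q : ℕ → ℕ) (n : ℕ) : ℕ := ∏ i ∈ Icc 1 n, Q i

/-- the integer `P_n * (E_1/P_1 + ⋯ + E_n/P_n)` -/
def AA (Q E : ℕ → ℕ) : ℕ → ℕ
  | 0 => 0
  | n + 1 => Q (n + 1) * AA Q E n + E (n + 1)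

variable {Q E : ℕ → ℕ}

lemma PP_zero : PP Q 0 = 1 := by simp [PP]

lemma PP_succ (n : ℕ) : PP Q (n + 1) = PP Q n * Q (n + 1) := by
  unfold PP
  rw [prod_Icc_succ_top (by omega)]

lemma PP_pos (hQ : ∀ n, 1 ≤ n → 2 ≤ Q n) (n : ℕ) : 1 ≤ PP Q n := by
  induction n with
  | zero => simp [PP_zero]
  | succ n ih =>
    rw [PP_succ]
    have := hQ (n + 1) (by omega)
    exact Nat.one_le_iff_ne_zero.2 (by positivity)

/-- partial sums -/
noncomputable def ps (Q E : ℕ → ℕ) (n : ℕ) : ℝ := (AA Q E n : ℝ) / PP Q n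

lemma ps_succ (hQ : ∀ n, 1 ≤ n → 2 ≤ Q n) (n : ℕ) :
    ps Q E (n + 1) = ps Q E n + E (n + 1) / PP Q (n + 1) := by
  unfold ps
  rw [AA, PP_succ]
  have h1 : (PP Q n : ℝ) ≠ 0 := by have := PP_pos hQ n; positivity
  have h2 : (Q (n + 1) : ℝ) ≠ 0 := by have := hQ (n + 1) (by omega); positivity
  push_cast
  field_simp

lemma ps_mono (hQ : ∀ n, 1 ≤ n → 2 ≤ Q n) : Monotone (ps Q E) := by
  refine monotone_nat_of_le_succ fun n => ?_
  rw [ps_succ hQ]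
  have : (0 : ℝ) ≤ E (n + 1) / PP Q (n + 1) := by positivity
  linarith

lemma up_anti (hQ : ∀ n, 1 ≤ n → 2 ≤ Q n) (hE : ∀ n, 1 ≤ n → E n < Q n) :
    Antitone (fun n => ps Q E n + 1 / PP Q n) := by
  refine antitone_nat_of_succ_le fun n => ?_
  show ps Q E (n + 1) + 1 / PP Q (n + 1) ≤ ps Q E n + 1 / PP Q n
  rw [ps_succ hQ, add_assoc, ← add_div, PP_succ]
  have h1 : (0 : ℝ) < PP Q n := by have := PP_pos hQ n; positivity
  have h2 : (0 : ℝ) < Q (n + 1) := by have := hQ (n + 1) (by omega); positivity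
  have h3 : ((E (n + 1) : ℝ) + 1) ≤ Q (n + 1) := by exact_mod_cast hE (n + 1) (by omega)
  have h4 : ((E (n + 1) : ℝ) + 1) / ((PP Q n * Q (n + 1) : ℕ) : ℝ) ≤ 1 / PP Q n := by
    push_cast
    rw [div_le_div_iff₀ (by positivity) h1]
    nlinarith
  linarith

lemma up_strict (hQ : ∀ n, 1 ≤ n → 2 ≤ Q n) (n : ℕ) (hE : E (n + 1) + 1 < Q (n + 1)) :
    ps Q E (n + 1) + 1 / PP Q (n + 1) < ps Q E n + 1 / PP Q n := by
  rw [ps_succ hQ, add_assoc, ← add_div, PP_succ]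
  have h1 : (0 : ℝ) < PP Q n := by have := PP_pos hQ n; positivity
  have h2 : (0 : ℝ) < Q (n + 1) := by have := hQ (n + 1) (by omega); positivity
  have h3 : ((E (n + 1) : ℝ) + 1) < Q (n + 1) := by exact_mod_cast hE
  have h4 : ((E (n + 1) : ℝ) + 1) / ((PP Q n * Q (n + 1) : ℕ) : ℝ) < 1 / PP Q n := by
    push_cast
    rw [div_lt_div_iff₀ (by positivity) h1]
    nlinarith
  linarith

/-- the real number with digits `E` -/
noncomputable def xx (Q E : ℕ → ℕ) : ℝ := ⨆ n, ps Q E n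

lemma bdd (hQ : ∀ n, 1 ≤ n → 2 ≤ Q n) (hE : ∀ n, 1 ≤ n → E n < Q n) :
    BddAbove (Set.range (ps Q E)) := by
  refine ⟨1, ?_⟩
  rintro _ ⟨n, rfl⟩
  have h := up_anti hQ hE (Nat.zero_le n)
  simp only [ps, AA, PP_zero] at h
  have h2 : (0 : ℝ) ≤ 1 / PP Q n := by positivity
  unfold ps
  norm_num at h
  rw [← one_div] at h
  linarith

lemma ps_le (hQ : ∀ n, 1 ≤ n → 2 ≤ Q n) (hE : ∀ n, 1 ≤ n → E n < Q n) (n : ℕ) :
    ps Q E n ≤ xx Q E := le_ciSup (bdd hQ hE) n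

lemma le_up (hQ : ∀ n, 1 ≤ n → 2 ≤ Q n) (hE : ∀ n, 1 ≤ n → E n < Q n) (n : ℕ) :
    xx Q E ≤ ps Q E n + 1 / PP Q n := by
  refine ciSup_le fun m => ?_
  rcases le_total m n with h | h
  · have := ps_mono (E := E) hQ h
    have h2 : (0 : ℝ) ≤ 1 / PP Q n := by positivity
    linarith
  · have h1 := up_anti hQ hE h
    simp only at h1
    have h2 : (0 : ℝ) ≤ 1 / PP Q m := by positivity
    linarith

lemma lt_up (hQ : ∀ n, 1 ≤ n → 2 ≤ Q n) (hE : ∀ n, 1 ≤ n → E n < Q n)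
    (hinf : ∀ N, ∃ n, N ≤ n ∧ E n + 1 < Q n) (n : ℕ) :
    xx Q E < ps Q E n + 1 / PP Q n := by
  obtain ⟨m, hm, hm2⟩ := hinf (n + 1)
  obtain ⟨t, rfl⟩ : ∃ t, m = t + 1 := ⟨m - 1, by omega⟩
  refine lt_of_le_of_lt (le_up hQ hE (t + 1)) (lt_of_lt_of_le (up_strict hQ t hm2) ?_)
  exact up_anti hQ hE (by omega : n ≤ t)

/-- the integer part of `P_n x` -/
theorem floor_eq (hQ : ∀ n, 1 ≤ n → 2 ≤ Q n) (hE : ∀ n, 1 ≤ n → E n < Q n)
    (hinf : ∀ N, ∃ n, N ≤ n ∧ E n + 1 < Q n) (n : ℕ) :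
    ⌊(∏ i ∈ Icc 1 n, (Q i : ℝ)) * xx Q E⌋ = (AA Q E n : ℤ) := by
  have e : (∏ i ∈ Icc 1 n, (Q i : ℝ)) = (PP Q n : ℝ) := by
    unfold PP; push_cast; rfl
  have hpos : (0 : ℝ) < PP Q n := by have := PP_pos hQ n; positivity
  rw [e, Int.floor_eq_iff]
  have h1 := ps_le hQ hE n
  have h2 := lt_up hQ hE hinf n
  unfold ps at h1 h2
  rw [div_le_iff₀ hpos] at h1
  rw [← add_div, lt_div_iff₀ hpos] at h2
  push_cast
  constructor
  · linarith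
  · linarith

/-- **digits of the constructed number** -/
theorem digit_xx (hQ : ∀ n, 1 ≤ n → 2 ≤ Q n) (hE : ∀ n, 1 ≤ n → E n < Q n)
    (hinf : ∀ N, ∃ n, N ≤ n ∧ E n + 1 < Q n) (n : ℕ) (hn : 1 ≤ n) :
    digit Q (xx Q E) n = (E n : ℤ) := by
  unfold digit
  rw [floor_eq hQ hE hinf n]
  obtain ⟨t, rfl⟩ : ∃ t, n = t + 1 := ⟨n - 1, by omega⟩
  rw [AA]
  have h := hE (t + 1) hn
  have : (Q (t + 1) * AA Q E t + E (t + 1)) % Q (t + 1) = E (t + 1) := by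
    rw [Nat.mul_add_mod, Nat.mod_eq_of_lt h]
  exact_mod_cast this

end Pool.Agent.V11309.FromDigits
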