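import Mathlib

/-! A law of large numbers for indicator functions of `k`-dependent events. -/

set_option autoImplicit false

namespace Pool.Agent.V11309.Lln

open Filter Topology Finset MeasureTheory
open scoped ENNReal NNReal

/-- a deterministic interpolation lemma -/
theorem interp (S M : ℕ → ℝ) (hS : Monotone S) (hM : Monotone M) (hS0 : ∀ n, 0 ≤ S n)
    (hMinc : ∀ n, M (n + 1) ≤ M n + 1) (hM00 : M 0 ≤ 1) (hM0 : Tendsto M atTop atTop)
    (ni : ℕ → ℕ) (hni : ∀ i : ℕ, ((i : ℝ) + 1) ^ 2 ≤ M (ni i))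
    (hmin : ∀ i n : ℕ, ((i : ℝ) + 1) ^ 2 ≤ M n → ni i ≤ n)
    (hlim : Tendsto (fun i => S (ni i) / M (ni i)) atTop (𝓝 1)) :
    Tendsto (fun n => S n / M n) atTop (𝓝 1) := by
  have hup : ∀ i, M (ni i) ≤ ((i : ℝ) + 1) ^ 2 + 1 := by
    intro i
    rcases Nat.eq_zero_or_pos (ni i) with h | h
    · rw [h]; nlinarith [sq_nonneg ((i : ℝ) + 1)]
    · obtain ⟨t, ht⟩ : ∃ t, ni i = t + 1 := ⟨ni i - 1, by omega⟩
      have h1 : M t < ((i : ℝ) + 1) ^ 2 := by
        by_contra hcon
        push Not at hcon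
        have := hmin i t hcon
        omega
      rw [ht]
      linarith [hMinc t]
  -- the ratio of consecutive values
  have hratio : Tendsto (fun i => M (ni (i + 1)) / M (ni i)) atTop (𝓝 1) := by
    have hu : Tendsto (fun i : ℕ => (((i : ℝ) + 2) ^ 2 + 1) / ((i : ℝ) + 1) ^ 2) atTop (𝓝 1) := by
      have h1 : Tendsto (fun i : ℕ => 1 / ((i : ℝ) + 1)) atTop (𝓝 0) :=
        tendsto_one_div_add_atTop_nhds_zero_nat
      have h2 : Tendsto (fun i : ℕ => (1 + 1 / ((i : ℝ) + 1)) ^ 2 + (1 / ((i : ℝ) + 1)) ^ 2) atTop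
          (𝓝 ((1 + 0) ^ 2 + 0 ^ 2)) := ((h1.const_add 1).pow 2).add (h1.pow 2)
      norm_num at h2
      refine h2.congr fun i => ?_
      have : (i : ℝ) + 1 ≠ 0 := by positivity
      field_simp
      ring
    refine tendsto_of_tendsto_of_tendsto_of_le_of_le tendsto_const_nhds hu ?_ ?_
    · intro i
      have h1 := hni i
      have hpos : 0 < M (ni i) := lt_of_lt_of_le (by positivity) h1
      show 1 ≤ M (ni (i + 1)) / M (ni i)
      rw [le_div_iff₀ hpos, one_mul]
      apply hM
      apply hmin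
      have := hni (i + 1)
      push_cast at this
      nlinarith [(Nat.cast_nonneg i : (0 : ℝ) ≤ i)]
    · intro i
      have h1 := hni i
      have hpos : 0 < M (ni i) := lt_of_lt_of_le (by positivity) h1
      have h2 := hup (i + 1)
      push_cast at h2
      show M (ni (i + 1)) / M (ni i) ≤ _
      apply div_le_div₀ (by positivity) _ (by positivity) h1
      linarith [h2, (by ring : ((i : ℝ) + 1 + 1) ^ 2 = ((i : ℝ) + 2) ^ 2)]
  set idx : ℕ → ℕ := fun n => ⌊Real.sqrt (M n)⌋₊ - 1 with hidx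
  have hidx_top : Tendsto idx atTop atTop := by
    have h1 : Tendsto (fun n => Real.sqrt (M n)) atTop atTop :=
      Real.tendsto_sqrt_atTop.comp hM0
    have h2 : Tendsto (fun n => ⌊Real.sqrt (M n)⌋₊) atTop atTop := tendsto_nat_floor_atTop.comp h1
    exact (tendsto_sub_atTop_nat 1).comp h2
  have hkey : ∀ᶠ n in atTop, ni (idx n) ≤ n ∧ n ≤ ni (idx n + 1) ∧ 0 < M n := by
    filter_upwards [hM0.eventually_ge_atTop 1] with n hn
    have hMn : 0 ≤ M n := by linarith
    have hs1 : 1 ≤ Real.sqrt (M n) := by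
      rw [show (1 : ℝ) = Real.sqrt 1 by simp]; exact Real.sqrt_le_sqrt hn
    have hf1 : 1 ≤ ⌊Real.sqrt (M n)⌋₊ := Nat.le_floor (by exact_mod_cast hs1)
    have hf2 : ((⌊Real.sqrt (M n)⌋₊ : ℕ) : ℝ) ≤ Real.sqrt (M n) := Nat.floor_le (by positivity)
    have hf3 : Real.sqrt (M n) < (⌊Real.sqrt (M n)⌋₊ : ℕ) + 1 := Nat.lt_floor_add_one _
    obtain ⟨t, ht⟩ : ∃ t, ⌊Real.sqrt (M n)⌋₊ = t + 1 := ⟨⌊Real.sqrt (M n)⌋₊ - 1, by omega⟩
    have hit : idx n = t := by simp only [hidx]; omega
    rw [ht] at hf2 hf3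
    push_cast at hf2 hf3
    have hsq : Real.sqrt (M n) ^ 2 = M n := Real.sq_sqrt hMn
    refine ⟨?_, ?_, by linarith⟩
    · apply hmin
      rw [hit, ← hsq]
      exact pow_le_pow_left₀ (by positivity) hf2 2
    · by_contra hcon
      push Not at hcon
      have h1 := hM hcon.le
      have h2 := hni (idx n + 1)
      rw [hit] at h2 h1
      push_cast at h2
      have h3 : M n < ((t : ℝ) + 1 + 1) ^ 2 := by
        rw [← hsq]
        exact pow_lt_pow_left₀ hf3 (by positivity) (by norm_num)
      linarith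
  have hlow : Tendsto (fun n => (S (ni (idx n)) / M (ni (idx n))) /
      (M (ni (idx n + 1)) / M (ni (idx n)))) atTop (𝓝 (1 / 1)) :=
    (hlim.comp hidx_top).div (hratio.comp hidx_top) (by norm_num)
  have hupp : Tendsto (fun n => (S (ni (idx n + 1)) / M (ni (idx n + 1))) *
      (M (ni (idx n + 1)) / M (ni (idx n)))) atTop (𝓝 (1 * 1)) :=
    ((hlim.comp (tendsto_add_atTop_nat 1)).comp hidx_top).mul (hratio.comp hidx_top)
  rw [div_one] at hlow
  rw [mul_one] at hupp
  refine tendsto_of_tendsto_of_tendsto_of_le_of_le' hlow hupp ?_ ?_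
  · filter_upwards [hkey] with n hn
    have p1 : 0 < M (ni (idx n)) := lt_of_lt_of_le (by positivity) (hni _)
    have p2 : 0 < M (ni (idx n + 1)) := lt_of_lt_of_le (by positivity) (hni _)
    have e : (S (ni (idx n)) / M (ni (idx n))) / (M (ni (idx n + 1)) / M (ni (idx n))) =
      S (ni (idx n)) / M (ni (idx n + 1)) := by field_simp
    rw [e]
    exact div_le_div₀ (hS0 _) (hS hn.1) hn.2.2 (hM hn.2.1)
  · filter_upwards [hkey] with n hn
    have p1 : 0 < M (ni (idx n)) := lt_of_lt_of_le (by positivity) (hni _)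
    have p2 : 0 < M (ni (idx n + 1)) := lt_of_lt_of_le (by positivity) (hni _)
    have e : (S (ni (idx n + 1)) / M (ni (idx n + 1))) * (M (ni (idx n + 1)) / M (ni (idx n))) =
      S (ni (idx n + 1)) / M (ni (idx n)) := by field_simp
    rw [e]
    exact div_le_div₀ (hS0 _) (hS hn.2.1) p1 (hM hn.1)

set_option linter.unusedSectionVars false
variable {Ω : Type*} [MeasurableSpace Ω] (μ : Measure Ω) [IsProbabilityMeasure μ]

/-- the indicator as a real function -/
noncomputable def ind (A : Set Ω) (ω : Ω) : ℝ := A.indicator (fun _ => (1 : ℝ)) ω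

lemma ind_nonneg (A : Set Ω) (ω : Ω) : 0 ≤ ind A ω := Set.indicator_nonneg (fun _ _ => zero_le_one) _

lemma ind_le_one (A : Set Ω) (ω : Ω) : ind A ω ≤ 1 := by
  unfold ind
  exact Set.indicator_le' (fun _ _ => le_rfl) (fun _ _ => zero_le_one) ω

lemma ind_mul (A B : Set Ω) (ω : Ω) : ind A ω * ind B ω = ind (A ∩ B) ω := by
  unfold ind
  by_cases h1 : ω ∈ A <;> by_cases h2 : ω ∈ B <;> simp [Set.indicator, h1, h2]

lemma ind_integrable (A : Set Ω) (hA : MeasurableSet A) : Integrable (ind A) μ := by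
  unfold ind
  exact (integrable_const (1 : ℝ)).indicator hA

lemma ind_integral (A : Set Ω) (hA : MeasurableSet A) : ∫ ω, ind A ω ∂μ = μ.real A := by
  unfold ind
  rw [integral_indicator hA]
  simp

/-- second moment bound -/
theorem second_moment (A : ℕ → Set Ω) (hA : ∀ n, MeasurableSet (A n)) (k : ℕ)
    (hind : ∀ p q, p + k ≤ q → μ.real (A p ∩ A q) = μ.real (A p) * μ.real (A q)) (n : ℕ) :
    ∫ ω, (∑ p ∈ range n, ind (A p) ω - ∑ p ∈ range n, μ.real (A p)) ^ 2 ∂μ ≤
      (2 * k) * ∑ p ∈ range n, μ.real (A p) := by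
  set D : ℕ → Ω → ℝ := fun p ω => ind (A p) ω - μ.real (A p) with hD
  have e1 : ∀ ω, (∑ p ∈ range n, ind (A p) ω - ∑ p ∈ range n, μ.real (A p)) ^ 2 =
      ∑ p ∈ range n, ∑ q ∈ range n, D p ω * D q ω := by
    intro ω
    rw [← sum_sub_distrib, pow_two, sum_mul_sum]
  have hDD : ∀ p q, ∀ ω, D p ω * D q ω = ind (A p ∩ A q) ω - μ.real (A p) * ind (A q) ω -
      μ.real (A q) * ind (A p) ω + μ.real (A p) * μ.real (A q) := by
    intro p q ω
    simp only [hD]
    rw [← ind_mul]
    ring
  have hI : ∀ p q, Integrable (fun ω => D p ω * D q ω) μ := by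
    intro p q
    simp only [hDD]
    exact (((ind_integrable μ _ ((hA p).inter (hA q))).sub
      ((ind_integrable μ _ (hA q)).const_mul _)).sub
      ((ind_integrable μ _ (hA p)).const_mul _)).add (integrable_const _)
  have hV : ∀ p q, ∫ ω, D p ω * D q ω ∂μ = μ.real (A p ∩ A q) - μ.real (A p) * μ.real (A q) := by
    intro p q
    simp only [hDD]
    rw [integral_add, integral_sub, integral_sub, integral_const_mul, integral_const_mul,
      ind_integral μ _ ((hA p).inter (hA q)), ind_integral μ _ (hA p), ind_integral μ _ (hA q)]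
    · simp; ring
    · exact ind_integrable μ _ ((hA p).inter (hA q))
    · exact (ind_integrable μ _ (hA q)).const_mul _
    · exact (ind_integrable μ _ ((hA p).inter (hA q))).sub ((ind_integrable μ _ (hA q)).const_mul _)
    · exact (ind_integrable μ _ (hA p)).const_mul _
    · exact ((ind_integrable μ _ ((hA p).inter (hA q))).sub
        ((ind_integrable μ _ (hA q)).const_mul _)).sub ((ind_integrable μ _ (hA p)).const_mul _)
    · exact integrable_const _
  simp only [e1]
  rw [integral_finsetSum _ (fun p _ => integrable_finsetSum _ (fun q _ => hI p q))]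
  have e2 : ∀ p, ∫ ω, ∑ q ∈ range n, D p ω * D q ω ∂μ =
      ∑ q ∈ range n, (μ.real (A p ∩ A q) - μ.real (A p) * μ.real (A q)) := by
    intro p
    rw [integral_finsetSum _ (fun q _ => hI p q)]
    exact sum_congr rfl fun q _ => hV p q
  simp only [e2]
  rw [mul_sum]
  apply sum_le_sum
  intro p _
  have hbound : ∀ q ∈ range n, μ.real (A p ∩ A q) - μ.real (A p) * μ.real (A q) ≤
      if q ∈ Ico (p + 1 - k) (p + k) then μ.real (A p) else 0 := by
    intro q _
    split_ifs with h
    · have h1 : μ.real (A p ∩ A q) ≤ μ.real (A p) := measureReal_mono Set.inter_subset_left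
      have h2 : 0 ≤ μ.real (A p) * μ.real (A q) := by positivity
      linarith
    · rw [mem_Ico, not_and_or] at h
      rcases h with h | h
      · have := hind q p (by omega)
        rw [Set.inter_comm, this]
        linarith
      · have := hind p q (by omega)
        rw [this]
        linarith
  refine (sum_le_sum hbound).trans ?_
  rw [← sum_filter, sum_const, nsmul_eq_mul]
  apply mul_le_mul_of_nonneg_right _ (by positivity)
  have hc : ((range n).filter fun q => q ∈ Ico (p + 1 - k) (p + k)).card ≤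
      (Ico (p + 1 - k) (p + k)).card := by
    apply card_le_card
    intro q hq
    rw [mem_filter] at hq
    exact hq.2
  rw [Nat.card_Ico] at hc
  exact_mod_cast (by omega : ((range n).filter fun q => q ∈ Ico (p + 1 - k) (p + k)).card ≤ 2 * k)

/-- **Law of large numbers.** -/
theorem lln (A : ℕ → Set Ω) (hA : ∀ n, MeasurableSet (A n)) (k : ℕ)
    (hind : ∀ p q, p + k ≤ q → μ.real (A p ∩ A q) = μ.real (A p) * μ.real (A q))
    (hM : Tendsto (fun n => ∑ p ∈ range n, μ.real (A p)) atTop atTop) :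
    ∀ᵐ ω ∂μ, Tendsto (fun n => (∑ p ∈ range n, ind (A p) ω) / (∑ p ∈ range n, μ.real (A p)))
      atTop (𝓝 1) := by
  classical
  set M : ℕ → ℝ := fun n => ∑ p ∈ range n, μ.real (A p) with hMdef
  have hMmono : Monotone M := by
    intro a b hab
    exact sum_le_sum_of_subset_of_nonneg (range_mono hab) (fun _ _ _ => by positivity)
  have hex : ∀ i : ℕ, ∃ n, ((i : ℝ) + 1) ^ 2 ≤ M n := fun i => (hM.eventually_ge_atTop _).exists
  set ni : ℕ → ℕ := fun i => Nat.find (hex i) with hni
  have hni1 : ∀ i : ℕ, ((i : ℝ) + 1) ^ 2 ≤ M (ni i) := fun i => Nat.find_spec (hex i)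
  have hni2 : ∀ i n : ℕ, ((i : ℝ) + 1) ^ 2 ≤ M n → ni i ≤ n := fun i n h => Nat.find_min' (hex i) h
  set f : ℕ → Ω → ℝ := fun i ω => ((∑ p ∈ range (ni i), ind (A p) ω) / M (ni i) - 1) ^ 2 with hf
  have hind_meas : ∀ p, Measurable (ind (A p)) := fun p => by
    unfold ind
    exact measurable_const.indicator (hA p)
  have hfm : ∀ i, Measurable (f i) := by
    intro i
    simp only [hf]
    exact (((Finset.measurable_sum (range (ni i)) (fun p _ => hind_meas p)).div_const _).sub_const
      _).pow_const 2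
  have hfint : ∀ i, ∫⁻ ω, ENNReal.ofReal (f i ω) ∂μ ≤ ENNReal.ofReal ((2 * k) * (1 / ((i : ℝ) + 1) ^ 2)) := by
    intro i
    have hpos : 0 < M (ni i) := lt_of_lt_of_le (by positivity) (hni1 i)
    have e : ∀ ω, f i ω = (1 / M (ni i) ^ 2) *
        (∑ p ∈ range (ni i), ind (A p) ω - M (ni i)) ^ 2 := by
      intro ω
      simp only [hf]
      field_simp
    have hbdd : Integrable (fun ω => f i ω) μ := by
      refine Integrable.of_bound (C := ((ni i : ℝ) / M (ni i) + 1) ^ 2) (hfm i).aestronglyMeasurable ?_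
      refine Eventually.of_forall fun ω => ?_
      simp only [hf]
      rw [Real.norm_eq_abs, abs_of_nonneg (sq_nonneg _)]
      have h0 : 0 ≤ (∑ p ∈ range (ni i), ind (A p) ω) / M (ni i) :=
        div_nonneg (sum_nonneg fun p _ => ind_nonneg _ _) hpos.le
      have h1 : (∑ p ∈ range (ni i), ind (A p) ω) / M (ni i) ≤ (ni i : ℝ) / M (ni i) := by
        apply div_le_div_of_nonneg_right _ hpos.le
        calc ∑ p ∈ range (ni i), ind (A p) ω ≤ ∑ p ∈ range (ni i), (1 : ℝ) :=
              sum_le_sum fun p _ => ind_le_one _ _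
          _ = ni i := by simp
      nlinarith
    rw [← ofReal_integral_eq_lintegral_ofReal hbdd (Eventually.of_forall fun ω => by
      simp only [hf]; exact sq_nonneg _)]
    apply ENNReal.ofReal_le_ofReal
    simp only [e]
    rw [integral_const_mul]
    have h2 := second_moment μ A hA k hind (ni i)
    calc 1 / M (ni i) ^ 2 * ∫ ω, (∑ p ∈ range (ni i), ind (A p) ω - M (ni i)) ^ 2 ∂μ
        ≤ 1 / M (ni i) ^ 2 * ((2 * k) * M (ni i)) := mul_le_mul_of_nonneg_left h2 (by positivity)
      _ = (2 * k) * (1 / M (ni i)) := by field_simp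
      _ ≤ _ := by
          apply mul_le_mul_of_nonneg_left _ (by positivity)
          apply one_div_le_one_div_of_le (by positivity) (hni1 i)
  have hsum : ∑' i, ∫⁻ ω, ENNReal.ofReal (f i ω) ∂μ ≠ ∞ := by
    have hs : Summable (fun i : ℕ => (2 * k : ℝ) * (1 / ((i : ℝ) + 1) ^ 2)) := by
      apply Summable.mul_left
      have h1 := (Real.summable_one_div_nat_pow (p := 2)).2 (by norm_num)
      have h2 := (summable_nat_add_iff 1).2 h1
      refine h2.congr fun i => ?_
      push_cast; rfl
    refine ne_top_of_le_ne_top ?_ (ENNReal.tsum_le_tsum hfint)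
    rw [← ENNReal.ofReal_tsum_of_nonneg (fun i => by positivity) hs]
    exact ENNReal.ofReal_ne_top
  rw [← lintegral_tsum (fun i => ((hfm i).ennreal_ofReal).aemeasurable)] at hsum
  have hae := ae_lt_top (Measurable.tsum (fun i => (hfm i).ennreal_ofReal)) hsum
  filter_upwards [hae] with ω hω
  have h0 : Tendsto (fun i => ENNReal.ofReal (f i ω)) atTop (𝓝 0) :=
    ENNReal.tendsto_atTop_zero_of_tsum_ne_top hω.ne
  have h1 : Tendsto (fun i => f i ω) atTop (𝓝 0) := by
    have := (ENNReal.tendsto_toReal ENNReal.zero_ne_top).comp h0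
    simp only [ENNReal.toReal_zero] at this
    refine this.congr fun i => ?_
    simp only [Function.comp]
    rw [ENNReal.toReal_ofReal (by simp only [hf]; exact sq_nonneg _)]
  have h2 : Tendsto (fun i => (∑ p ∈ range (ni i), ind (A p) ω) / M (ni i)) atTop (𝓝 1) := by
    have h3 : Tendsto (fun i => Real.sqrt (f i ω)) atTop (𝓝 0) := by
      have := (Real.continuous_sqrt.tendsto 0).comp h1
      rw [Real.sqrt_zero] at this
      exact this
    have h4 : Tendsto (fun i => |(∑ p ∈ range (ni i), ind (A p) ω) / M (ni i) - 1|) atTop (𝓝 0) := by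
      refine h3.congr fun i => ?_
      simp only [hf]
      rw [Real.sqrt_sq_eq_abs]
    have h5 := (tendsto_zero_iff_abs_tendsto_zero _).2 h4
    have h6 := h5.add_const 1
    simpa using h6
  refine interp (fun n => ∑ p ∈ range n, ind (A p) ω) M ?_ hMmono ?_ ?_ ?_ hM ni hni1 hni2 h2
  · intro a b hab
    exact sum_le_sum_of_subset_of_nonneg (range_mono hab) (fun _ _ _ => ind_nonneg _ _)
  · exact fun n => sum_nonneg fun p _ => ind_nonneg _ _
  · intro n
    simp only [hMdef]
    rw [sum_range_succ]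
    have : μ.real (A n) ≤ 1 := measureReal_le_one
    linarith
  · simp [hMdef]

end Pool.Agent.V11309.Lln
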