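import Mathlib
import Pool.Agent.V11309.Lln

/-! Independent random digits: the law of large numbers for window events. -/

set_option autoImplicit false

namespace Pool.Agent.V11309.RandDigits

open Filter Topology Finset MeasureTheory Pool.Agent.V11309.Lln
open scoped ENNReal NNReal

variable (ν : ℕ → Measure ℕ) [∀ n, IsProbabilityMeasure (ν n)]

/-- the window event: `ω i ∈ T p i` for `p ≤ i < p + K` -/
def Ev (T : ℕ → ℕ → Set ℕ) (K p : ℕ) : Set (ℕ → ℕ) := {ω | ∀ i ∈ Ico p (p + K), ω i ∈ T p i}

lemma ev_eq (T : ℕ → ℕ → Set ℕ) (K p : ℕ) :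
    Ev T K p = ((Ico p (p + K) : Finset ℕ) : Set ℕ).pi (T p) := by
  ext ω
  simp only [Ev, Set.mem_pi, mem_coe]
  rfl

lemma ev_measurable (T : ℕ → ℕ → Set ℕ) (K p : ℕ) : MeasurableSet (Ev T K p) := by
  rw [ev_eq]
  exact MeasurableSet.pi (Set.to_countable _) (fun i _ => MeasurableSet.of_discrete)

lemma ev_prob (T : ℕ → ℕ → Set ℕ) (K p : ℕ) :
    (Measure.infinitePi ν) (Ev T K p) = ∏ i ∈ Ico p (p + K), ν i (T p i) := by
  rw [ev_eq, Measure.infinitePi_pi _ (fun i _ => MeasurableSet.of_discrete)]

lemma ev_prob_real (T : ℕ → ℕ → Set ℕ) (K p : ℕ) :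
    (Measure.infinitePi ν).real (Ev T K p) = ∏ i ∈ Ico p (p + K), (ν i).real (T p i) := by
  rw [measureReal_def, ev_prob, ENNReal.toReal_prod]
  rfl

lemma ev_indep (T : ℕ → ℕ → Set ℕ) (K p q : ℕ) (h : p + K ≤ q) :
    (Measure.infinitePi ν).real (Ev T K p ∩ Ev T K q) =
      (Measure.infinitePi ν).real (Ev T K p) * (Measure.infinitePi ν).real (Ev T K q) := by
  have e : Ev T K p ∩ Ev T K q = ((Ico p (p + K) ∪ Ico q (q + K) : Finset ℕ) : Set ℕ).pi
      (fun i => if i < p + K then T p i else T q i) := by
    ext ω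
    simp only [Ev, Set.mem_inter_iff, Set.mem_pi, mem_coe, mem_union, mem_Ico]
    constructor
    · rintro ⟨h1, h2⟩ i hi
      split_ifs with hlt
      · refine h1 i ?_
        rcases hi with hi | hi
        · exact hi
        · omega
      · refine h2 i ?_
        rcases hi with hi | hi
        · omega
        · exact hi
    · intro h1
      constructor
      · intro i hi
        have hi' := hi
        have := h1 i (Or.inl hi')
        rwa [if_pos hi'.2] at this
      · intro i hi
        have hi' := hi
        have := h1 i (Or.inr hi')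
        rwa [if_neg (by omega)] at this
  rw [measureReal_def, measureReal_def, measureReal_def, ← ENNReal.toReal_mul, ev_prob, ev_prob, e,
    Measure.infinitePi_pi _ (fun i _ => MeasurableSet.of_discrete)]
  congr 1
  rw [prod_union]
  · congr 1
    · apply prod_congr rfl
      intro i hi
      rw [if_pos (mem_Ico.1 hi).2]
    · apply prod_congr rfl
      intro i hi
      have := mem_Ico.1 hi
      rw [if_neg (by omega)]
  · rw [disjoint_left]
    intro i h1 h2
    have := mem_Ico.1 h1
    have := mem_Ico.1 h2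
    omega

/-- the law of large numbers for window events -/
theorem ev_lln (T : ℕ → ℕ → Set ℕ) (K : ℕ)
    (hM : Tendsto (fun n => ∑ p ∈ range n, ∏ i ∈ Ico p (p + K), (ν i).real (T p i)) atTop atTop) :
    ∀ᵐ ω ∂(Measure.infinitePi ν), Tendsto (fun n => (∑ p ∈ range n, ind (Ev T K p) ω) /
      (∑ p ∈ range n, ∏ i ∈ Ico p (p + K), (ν i).real (T p i))) atTop (𝓝 1) := by
  have h := lln (Measure.infinitePi ν) (fun p => Ev T K p) (fun p => ev_measurable T K p) K
    (fun p q hpq => ev_indep ν T K p q hpq)
  simp only [ev_prob_real] at h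
  exact h hM

end Pool.Agent.V11309.RandDigits
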