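import Mathlib
import Pool.Agent.V11309.RandDigits
import Pool.Agent.V11309.CantorDef

/-! Random digits are normal; passing from digits to real numbers. -/

set_option autoImplicit false

namespace Pool.Agent.V11309.Normality

set_option linter.unusedSectionVars false

open Filter Topology Finset MeasureTheory
open Pool.Agent.V11309.Lln Pool.Agent.V11309.RandDigits Pool.Agent.V11309.Cantor
open scoped ENNReal NNReal

/-- occurrence of a block in a digit sequence -/
def OccE (E : ℕ → ℕ) {k : ℕ} (B : Fin k → ℕ) (p : ℕ) : Prop := ∀ j : Fin k, E (p + j) = B j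

open Classical in
/-- counting occurrences of a block in a digit sequence -/
noncomputable def countE (E : ℕ → ℕ) {k : ℕ} (B : Fin k → ℕ) (m r n : ℕ) : ℕ :=
  ((Icc 1 n).filter fun p => p % m = r ∧ OccE E B p).card

lemma count_eq (Q : ℕ → ℕ) (x : ℝ) (E : ℕ → ℕ) (h : ∀ n, 1 ≤ n → digit Q x n = (E n : ℤ))
    {k : ℕ} (B : Fin k → ℕ) (m r n : ℕ) : count Q x B m r n = countE E B m r n := by
  classical
  unfold count countE
  congr 1
  apply filter_congr
  intro p hp
  rw [mem_Icc] at hp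
  have : Occurs Q x B p ↔ OccE E B p := by
    unfold Occurs OccE
    refine forall_congr' fun j => ?_
    rw [h _ (by omega)]
    exact Nat.cast_inj
  rw [this]

/-! ### small lemmas on ratios -/

lemma ratio_one_of_bdd {f g : ℕ → ℝ} {C : ℝ} (h : ∀ᶠ n in atTop, |f n - g n| ≤ C)
    (hg : Tendsto g atTop atTop) : Tendsto (fun n => f n / g n) atTop (𝓝 1) := by
  have h1 : Tendsto (fun n => (f n - g n) / g n) atTop (𝓝 0) := by
    have h2 : Tendsto (fun n => C / g n) atTop (𝓝 0) := hg.const_div_atTop C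
    refine squeeze_zero_norm' ?_ h2
    filter_upwards [h, hg.eventually_gt_atTop 0] with n hn hn2
    rw [Real.norm_eq_abs, abs_div, abs_of_pos hn2]
    exact div_le_div_of_nonneg_right hn hn2.le
  have h3 := h1.add_const 1
  rw [zero_add] at h3
  refine h3.congr' ?_
  filter_upwards [hg.eventually_gt_atTop 0] with n hn
  field_simp
  ring

lemma ratio_trans {a f g : ℕ → ℝ} {L : ℝ} (h1 : Tendsto (fun n => a n / f n) atTop (𝓝 L))
    (h2 : Tendsto (fun n => f n / g n) atTop (𝓝 1)) (hf : Tendsto f atTop atTop) :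
    Tendsto (fun n => a n / g n) atTop (𝓝 L) := by
  have h := h1.mul h2
  rw [mul_one] at h
  refine h.congr' ?_
  filter_upwards [hf.eventually_gt_atTop 0] with n hn
  rcases eq_or_ne (g n) 0 with h0 | h0
  · rw [h0]; simp
  · field_simp

lemma tendsto_of_ratio_one {f g : ℕ → ℝ} (h : Tendsto (fun n => f n / g n) atTop (𝓝 1))
    (hg : Tendsto g atTop atTop) : Tendsto f atTop atTop := by
  have h1 : Tendsto (fun n => (f n / g n) * g n) atTop atTop :=
    h.pos_mul_atTop (by norm_num) hg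
  refine h1.congr' ?_
  filter_upwards [hg.eventually_gt_atTop 0] with n hn
  field_simp

/-! ### normality of random digits -/

variable (ν : ℕ → Measure ℕ) [∀ n, IsProbabilityMeasure (ν n)]

/-- constraints for a block along a class -/
def TB {k : ℕ} (B : Fin k → ℕ) (m r : ℕ) (p i : ℕ) : Set ℕ :=
  {c | (1 ≤ p ∧ p % m = r) ∧ ∀ h : i - p < k, c = B ⟨i - p, h⟩}

lemma mem_ev_TB {k : ℕ} (hk : 1 ≤ k) (B : Fin k → ℕ) (m r p : ℕ) (ω : ℕ → ℕ) :
    ω ∈ Ev (TB B m r) k p ↔ (1 ≤ p ∧ p % m = r) ∧ OccE ω B p := by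
  constructor
  · intro h
    have h0 := h p (mem_Ico.2 ⟨le_rfl, by omega⟩)
    refine ⟨h0.1, fun j => ?_⟩
    have h1 := (h (p + j) (mem_Ico.2 ⟨by omega, by omega⟩)).2 (by omega)
    rw [h1]
    congr 1
    ext
    simp
  · rintro ⟨h1, h2⟩ i hi
    rw [mem_Ico] at hi
    refine ⟨h1, fun h => ?_⟩
    have := h2 ⟨i - p, h⟩
    simp only at this
    rwa [Nat.add_sub_cancel' hi.1] at this

lemma prob_TB {k : ℕ} (hk : 1 ≤ k) (B : Fin k → ℕ) (m r p : ℕ) (Q : ℕ → ℕ) (N : ℕ)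
    (hN : ∀ n, N ≤ n → ∀ j : Fin k, (ν n).real {B j} = ((Q n : ℝ))⁻¹) (hp : N ≤ p) :
    ∏ i ∈ Ico p (p + k), (ν i).real (TB B m r p i) =
      if 1 ≤ p ∧ p % m = r then (∏ j ∈ range k, (Q (p + j) : ℝ))⁻¹ else 0 := by
  split_ifs with h
  · rw [prod_Ico_eq_prod_range, Nat.add_sub_cancel_left, ← prod_inv_distrib]
    apply prod_congr rfl
    intro i hi
    rw [mem_range] at hi
    have e : TB B m r p (p + i) = {B ⟨i, hi⟩} := by
      ext c
      simp only [TB, Set.mem_ofPred_eq, Set.mem_singleton_iff, Nat.add_sub_cancel_left]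
      exact ⟨fun hc => hc.2 hi, fun hc => ⟨h, fun _ => hc⟩⟩
    rw [e]
    exact hN _ (by omega) _
  · apply prod_eq_zero (i := p) (mem_Ico.2 ⟨le_rfl, by omega⟩)
    have e : TB B m r p p = ∅ := by
      ext c
      simp only [TB, Set.mem_ofPred_eq, Set.mem_empty_iff_false, iff_false]
      exact fun hc => h hc.1
    rw [e]
    simp

lemma sum_ind_TB {k : ℕ} (hk : 1 ≤ k) (B : Fin k → ℕ) (m r n : ℕ) (ω : ℕ → ℕ) :
    ∑ p ∈ range (n + 1), ind (Ev (TB B m r) k p) ω = countE ω B m r n := by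
  classical
  unfold countE
  have e : (Icc 1 n).filter (fun p => p % m = r ∧ OccE ω B p) =
      (range (n + 1)).filter (fun p => ω ∈ Ev (TB B m r) k p) := by
    ext p
    simp only [mem_filter, mem_Icc, mem_range, mem_ev_TB hk]
    constructor
    · rintro ⟨h1, h2, h3⟩; exact ⟨by omega, ⟨h1.1, h2⟩, h3⟩
    · rintro ⟨h1, ⟨h2, h3⟩, h4⟩; exact ⟨⟨h2, by omega⟩, h3, h4⟩
  rw [e, card_eq_sum_ones, sum_filter]
  push_cast
  apply sum_congr rfl
  intro p _
  unfold ind
  rw [Set.indicator_apply]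

lemma sum_weight {k : ℕ} (m r n : ℕ) (Q : ℕ → ℕ) :
    ∑ p ∈ range (n + 1), (if 1 ≤ p ∧ p % m = r then (∏ j ∈ range k, (Q (p + j) : ℝ))⁻¹ else 0) =
      weight Q k m r n := by
  unfold weight
  rw [← sum_filter]
  apply sum_congr _ (fun _ _ => rfl)
  ext p
  simp only [mem_filter, mem_range, mem_Icc]
  constructor
  · rintro ⟨h1, h2, h3⟩; exact ⟨⟨h2, by omega⟩, h3⟩
  · rintro ⟨h1, h2⟩; exact ⟨by omega, h1.1, h2⟩

/-- the expected counts are asymptotic to the weights -/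
lemma expected_ratio {k : ℕ} (hk : 1 ≤ k) (B : Fin k → ℕ) (m r : ℕ) (Q : ℕ → ℕ) (N : ℕ)
    (hN : ∀ n, N ≤ n → ∀ j : Fin k, (ν n).real {B j} = ((Q n : ℝ))⁻¹)
    (hw : Tendsto (weight Q k m r) atTop atTop) :
    Tendsto (fun n => (∑ p ∈ range (n + 1), ∏ i ∈ Ico p (p + k), (ν i).real (TB B m r p i)) /
      weight Q k m r n) atTop (𝓝 1) := by
  refine ratio_one_of_bdd (C := |(∑ p ∈ range N, ∏ i ∈ Ico p (p + k), (ν i).real (TB B m r p i)) -
    ∑ p ∈ range N, (if 1 ≤ p ∧ p % m = r then (∏ j ∈ range k, (Q (p + j) : ℝ))⁻¹ else 0)|) ?_ hw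
  filter_upwards [eventually_ge_atTop N] with n hn
  rw [← sum_weight, ← sum_range_add_sum_Ico _ (by omega : N ≤ n + 1),
    ← sum_range_add_sum_Ico _ (by omega : N ≤ n + 1)]
  have e : ∑ p ∈ Ico N (n + 1), ∏ i ∈ Ico p (p + k), (ν i).real (TB B m r p i) =
      ∑ p ∈ Ico N (n + 1),
        (if 1 ≤ p ∧ p % m = r then (∏ j ∈ range k, (Q (p + j) : ℝ))⁻¹ else 0) := by
    apply sum_congr rfl
    intro p hp
    exact prob_TB ν hk B m r p Q N hN (mem_Ico.1 hp).1
  rw [e, add_sub_add_right_eq_sub]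

/-- **Random digits are normal** along every class for which the weights diverge. -/
theorem ae_normal (Q : ℕ → ℕ)
    (hν : ∀ c : ℕ, ∀ᶠ n in atTop, (ν n).real {c} = ((Q n : ℝ))⁻¹) :
    ∀ᵐ ω ∂(Measure.infinitePi ν), ∀ k, 1 ≤ k → ∀ B : Fin k → ℕ, ∀ m r : ℕ,
      Tendsto (weight Q k m r) atTop atTop →
      Tendsto (fun n => (countE ω B m r n : ℝ) / weight Q k m r n) atTop (𝓝 1) := by
  rw [ae_all_iff]; intro k
  rw [ae_all_iff]; intro hk
  rw [ae_all_iff]; intro B
  rw [ae_all_iff]; intro m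
  rw [ae_all_iff]; intro r
  rw [ae_all_iff]; intro hw
  have hex : ∃ N, ∀ n, N ≤ n → ∀ j : Fin k, (ν n).real {B j} = ((Q n : ℝ))⁻¹ := by
    have : ∀ᶠ n in atTop, ∀ j : Fin k, (ν n).real {B j} = ((Q n : ℝ))⁻¹ :=
      eventually_all.2 fun j => hν (B j)
    exact eventually_atTop.1 this
  obtain ⟨N, hN⟩ := hex
  have h1 := expected_ratio ν hk B m r Q N hN hw
  have h2 := tendsto_of_ratio_one h1 hw
  have h3 : Tendsto (fun n => ∑ p ∈ range n, ∏ i ∈ Ico p (p + k), (ν i).real (TB B m r p i))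
      atTop atTop := (tendsto_add_atTop_iff_nat 1).1 h2
  filter_upwards [ev_lln ν (TB B m r) k h3] with ω hω
  have h4 := (tendsto_add_atTop_iff_nat 1).2 hω
  simp only [sum_ind_TB hk] at h4
  exact ratio_trans h4 h1 h2

end Pool.Agent.V11309.Normality
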