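import Mathlib
import Pool.Agent.V11309.Normality

/-! Erasing isolated runs of zeros. -/

set_option autoImplicit false

namespace Pool.Agent.V11309.Erase

open Filter Topology Finset
open Pool.Agent.V11309.Cantor Pool.Agent.V11309.Normality

/-- `E` has an isolated run of exactly `t` zeros at the positions `s, …, s + t - 1`: the digits
at the positions `s - 1` and `s + t` are large. -/
def Iso (Q E : ℕ → ℕ) (t s : ℕ) : Prop :=
  2 ≤ s ∧ Q (s - 1) / 2 ≤ E (s - 1) ∧ (∀ i, s ≤ i → i < s + t → E i = 0) ∧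
    Q (s + t) / 2 ≤ E (s + t)

/-- the positions in the isolated runs to be erased -/
def Changed (Q E : ℕ → ℕ) (L : ℕ → ℕ → Prop) (n : ℕ) : Prop :=
  ∃ t s, L t s ∧ s ≤ n ∧ n < s + t ∧ Iso Q E t s

open Classical in
/-- replace the zeros in the isolated runs to be erased by the largest digit -/
noncomputable def eraseZ (Q E : ℕ → ℕ) (L : ℕ → ℕ → Prop) (n : ℕ) : ℕ :=
  if Changed Q E L n then Q n - 1 else E n

/-- the block of `k` zeros -/
def Z (k : ℕ) : Fin k → ℕ := fun _ => 0

variable {Q E : ℕ → ℕ} {L : ℕ → ℕ → Prop}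

lemma erase_lt (hQ : ∀ n, 1 ≤ n → 2 ≤ Q n) (hE : ∀ n, 1 ≤ n → E n < Q n) (n : ℕ) (hn : 1 ≤ n) :
    eraseZ Q E L n < Q n := by
  unfold eraseZ
  have := hQ n hn
  have := hE n hn
  split_ifs <;> omega

lemma occ_of_occ_erase {k : ℕ} (C : Fin k → ℕ) (N0 : ℕ) (hN1 : 1 ≤ N0)
    (hQ : ∀ n, 1 ≤ n → 2 ≤ Q n)
    (hN : ∀ n, N0 ≤ n → ∀ j, C j < Q n / 2) (p : ℕ) (hp : N0 ≤ p)
    (h : OccE (eraseZ Q E L) C p) : OccE E C p := by
  intro j
  have h1 := h j
  unfold eraseZ at h1
  have h2 := hN (p + j) (by omega) j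
  have h3 := hQ (p + j) (by omega)
  split_ifs at h1 with hc
  · omega
  · exact h1

lemma destroyed {k : ℕ} (C : Fin k → ℕ) (N0 : ℕ) (hN1 : 1 ≤ N0)
    (hN : ∀ n, N0 ≤ n → ∀ j, C j < Q n / 2) (p : ℕ) (hp : N0 ≤ p)
    (h : OccE E C p) (h' : ¬ OccE (eraseZ Q E L) C p) :
    ∃ t s, L t s ∧ s ≤ p ∧ p + k ≤ s + t ∧ Iso Q E t s := by
  unfold OccE at h'
  push Not at h'
  obtain ⟨j, hj⟩ := h'
  have hch : Changed Q E L (p + j) := by
    by_contra hc
    apply hj
    unfold eraseZ
    rw [if_neg hc]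
    exact h j
  obtain ⟨t, s, hL, hs1, hs2, hI⟩ := hch
  refine ⟨t, s, hL, ?_, ?_, hI⟩
  · by_contra hcon
    push Not at hcon
    have h1 := h ⟨s - 1 - p, by have := j.2; omega⟩
    have e : p + (s - 1 - p) = s - 1 := by omega
    simp only [e] at h1
    have h2 := hN (s - 1) (by omega) ⟨s - 1 - p, by have := j.2; omega⟩
    have h3 := hI.2.1
    omega
  · by_contra hcon
    push Not at hcon
    have h1 := h ⟨s + t - p, by omega⟩
    have e : p + (s + t - p) = s + t := by omega
    simp only [e] at h1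
    have h2 := hN (s + t) (by omega) ⟨s + t - p, by omega⟩
    have h3 := hI.2.2.2
    omega

open Classical in
/-- (D1) -/
theorem count_erase_le {k : ℕ} (C : Fin k → ℕ) (N0 : ℕ) (hN1 : 1 ≤ N0)
    (hQ : ∀ n, 1 ≤ n → 2 ≤ Q n)
    (hN : ∀ n, N0 ≤ n → ∀ j, C j < Q n / 2) (m r n : ℕ) :
    countE (eraseZ Q E L) C m r n ≤ countE E C m r n + N0 := by
  unfold countE
  have hsub : ((Icc 1 n).filter fun p => p % m = r ∧ OccE (eraseZ Q E L) C p) ⊆
      ((Icc 1 n).filter fun p => p % m = r ∧ OccE E C p) ∪ range N0 := by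
    intro p hp
    rw [mem_filter] at hp
    rw [mem_union, mem_filter, mem_range]
    by_cases h : p < N0
    · exact Or.inr h
    · exact Or.inl ⟨hp.1, hp.2.1, occ_of_occ_erase C N0 hN1 hQ hN p (by omega) hp.2.2⟩
  calc _ ≤ _ := card_le_card hsub
    _ ≤ _ := card_union_le _ _
    _ = _ := by rw [card_range]

open Classical in
/-- the number of erased runs of length exactly `k` starting at `p ≤ n`, `p ≡ r mod m` -/
noncomputable def isoCount (Q E : ℕ → ℕ) (L : ℕ → ℕ → Prop) (k m r n : ℕ) : ℕ :=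
  ((Icc 1 n).filter fun p => p % m = r ∧ L k p ∧ Iso Q E k p).card

open Classical in
/-- (D2) -/
theorem count_le_count_erase {k : ℕ} (hk : 1 ≤ k) (C : Fin k → ℕ) (N0 : ℕ) (hN1 : 1 ≤ N0)
    (hN : ∀ n, N0 ≤ n → ∀ j, C j < Q n / 2) (n : ℕ) :
    countE E C 1 0 n ≤ countE (eraseZ Q E L) C 1 0 n + N0 + (countE E (Z (k + 1)) 1 0 n +
      (countE E (Z (k + 1)) 1 0 n) + isoCount Q E L k 1 0 n) := by
  unfold countE isoCount
  have hsub : ((Icc 1 n).filter fun p => p % 1 = 0 ∧ OccE E C p) ⊆
      (((Icc 1 n).filter fun p => p % 1 = 0 ∧ OccE (eraseZ Q E L) C p) ∪ range N0) ∪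
      ((((Icc 1 n).filter fun p => p % 1 = 0 ∧ OccE E (Z (k + 1)) p) ∪
        ((Icc 1 n).filter fun p => p % 1 = 0 ∧ OccE E (Z (k + 1)) p).image (fun p => p + 1)) ∪
        ((Icc 1 n).filter fun p => p % 1 = 0 ∧ L k p ∧ Iso Q E k p)) := by
    intro p hp
    rw [mem_filter] at hp
    rw [mem_union, mem_union, mem_union, mem_union, mem_filter, mem_filter, mem_filter, mem_image,
      mem_range]
    by_cases h : p < N0
    · exact Or.inl (Or.inr h)
    by_cases h2 : OccE (eraseZ Q E L) C p
    · exact Or.inl (Or.inl ⟨hp.1, hp.2.1, h2⟩)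
    right
    obtain ⟨t, s, hL, hs, ht, hI⟩ := destroyed C N0 hN1 hN p (by omega) hp.2.2 h2
    rcases eq_or_ne t k with htk | htk
    · right
      have : s = p := by omega
      subst this; subst htk
      exact ⟨hp.1, hp.2.1, hL, hI⟩
    · left
      rcases lt_or_ge s p with hsp | hsp
      · right
        refine ⟨p - 1, ?_, by omega⟩
        rw [mem_filter, mem_Icc]
        have hp1 := mem_Icc.1 hp.1
        have := hI.1
        refine ⟨⟨by omega, by omega⟩, by omega, fun j => ?_⟩
        have := hI.2.2.1 (p - 1 + j) (by omega) (by have := j.2; omega)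
        rw [this]; rfl
      · left
        refine ⟨hp.1, by omega, fun j => ?_⟩
        have := hI.2.2.1 (p + j) (by omega) (by have := j.2; omega)
        rw [this]; rfl
  refine (card_le_card hsub).trans ((card_union_le _ _).trans ?_)
  refine Nat.add_le_add ((card_union_le _ _).trans ?_) ((card_union_le _ _).trans ?_)
  · rw [card_range]
  · refine Nat.add_le_add ((card_union_le _ _).trans ?_) le_rfl
    exact Nat.add_le_add le_rfl card_image_le

open Classical in
/-- (D3) -/
theorem count_erase_add_iso_le {k : ℕ} (hk : 1 ≤ k) (N0 : ℕ) (hN1 : 1 ≤ N0)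
    (hQ : ∀ n, 1 ≤ n → 2 ≤ Q n)
    (hN : ∀ n, N0 ≤ n → ∀ j, Z k j < Q n / 2) (m r n : ℕ) :
    countE (eraseZ Q E L) (Z k) m r n + isoCount Q E L k m r n ≤ countE E (Z k) m r n + 2 * N0 := by
  unfold countE isoCount
  have hd : Disjoint (((Icc 1 n).filter fun p => p % m = r ∧ OccE (eraseZ Q E L) (Z k) p) \ range N0)
      (((Icc 1 n).filter fun p => p % m = r ∧ L k p ∧ Iso Q E k p) \ range N0) := by
    rw [disjoint_left]
    intro p hp1 hp2
    rw [Finset.mem_sdiff, mem_filter, mem_range] at hp1 hp2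
    have h1 := hp1.1.2.2 ⟨0, hk⟩
    have hc : Changed Q E L p := ⟨k, p, hp2.1.2.2.1, le_rfl, by omega, hp2.1.2.2.2⟩
    unfold eraseZ at h1
    simp only [add_zero] at h1
    rw [if_pos hc] at h1
    have h2 := hQ p (by omega)
    simp only [Z] at h1
    omega
  have hsub : (((Icc 1 n).filter fun p => p % m = r ∧ OccE (eraseZ Q E L) (Z k) p) \ range N0) ∪
      (((Icc 1 n).filter fun p => p % m = r ∧ L k p ∧ Iso Q E k p) \ range N0) ⊆
      ((Icc 1 n).filter fun p => p % m = r ∧ OccE E (Z k) p) := by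
    intro p hp
    rw [mem_union, Finset.mem_sdiff, Finset.mem_sdiff, mem_filter, mem_filter, mem_range] at hp
    rw [mem_filter]
    rcases hp with hp | hp
    · exact ⟨hp.1.1, hp.1.2.1, occ_of_occ_erase (Z k) N0 hN1 hQ hN p (by omega) hp.1.2.2⟩
    · refine ⟨hp.1.1, hp.1.2.1, fun j => ?_⟩
      exact hp.1.2.2.2.2.2.1 (p + j) (by omega) (by have := j.2; omega)
  have h1 := card_le_card hsub
  rw [card_union_of_disjoint hd] at h1
  have h2 := le_card_sdiff (range N0) ((Icc 1 n).filter fun p => p % m = r ∧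
    OccE (eraseZ Q E L) (Z k) p)
  have h3 := le_card_sdiff (range N0) ((Icc 1 n).filter fun p => p % m = r ∧ L k p ∧ Iso Q E k p)
  rw [card_range] at h2 h3
  omega

/-- weights of longer blocks are negligible -/
theorem weight_ratio_zero {Q : ℕ → ℕ} (hQ : ∀ n, 1 ≤ n → 2 ≤ Q n) (hQt : Tendsto Q atTop atTop)
    (k : ℕ) (m r : ℕ) (hw : Tendsto (weight Q k m r) atTop atTop) :
    Tendsto (fun n => weight Q (k + 1) m r n / weight Q k m r n) atTop (𝓝 0) := by
  have hterm : ∀ l p, 1 ≤ p → 0 ≤ (∏ j ∈ range l, (Q (p + j) : ℝ))⁻¹ := fun l p _ => by positivity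
  rw [Metric.tendsto_atTop]
  intro ε hε
  obtain ⟨A, hA⟩ := exists_nat_gt (2 / ε)
  obtain ⟨N, hN⟩ := eventually_atTop.1 (hQt.eventually_ge_atTop A)
  -- for `p ≥ N` the term of order `k + 1` is at most `ε / 2` times the term of order `k`
  have hle : ∀ n, weight Q (k + 1) m r n ≤ (N : ℝ) + ε / 2 * weight Q k m r n := by
    intro n
    unfold weight
    rw [← sum_filter_add_sum_filter_not _ (fun p => p < N)]
    have h1 : ∑ p ∈ ((Icc 1 n).filter (fun p => p % m = r)).filter (fun p => p < N),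
        (∏ j ∈ range (k + 1), (Q (p + j) : ℝ))⁻¹ ≤ N := by
      calc _ ≤ ∑ p ∈ ((Icc 1 n).filter (fun p => p % m = r)).filter (fun p => p < N), (1 : ℝ) := by
            apply sum_le_sum
            intro p hp
            rw [mem_filter, mem_filter, mem_Icc] at hp
            apply inv_le_one_of_one_le₀
            have h1 : 1 ≤ ∏ j ∈ range (k + 1), Q (p + j) := by
              apply Nat.one_le_iff_ne_zero.2
              apply prod_ne_zero_iff.2
              intro j _
              have := hQ (p + j) (by omega)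
              omega
            exact_mod_cast h1
        _ = ((((Icc 1 n).filter (fun p => p % m = r)).filter (fun p => p < N)).card : ℝ) := by simp
        _ ≤ N := by
            have : (((Icc 1 n).filter (fun p => p % m = r)).filter (fun p => p < N)).card ≤
                (range N).card := by
              apply card_le_card
              intro p hp
              rw [mem_filter] at hp
              exact mem_range.2 hp.2
            rw [card_range] at this
            exact_mod_cast this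
    have h2 : ∑ p ∈ ((Icc 1 n).filter (fun p => p % m = r)).filter (fun p => ¬ p < N),
        (∏ j ∈ range (k + 1), (Q (p + j) : ℝ))⁻¹ ≤
        ε / 2 * ∑ p ∈ (Icc 1 n).filter (fun p => p % m = r), (∏ j ∈ range k, (Q (p + j) : ℝ))⁻¹ := by
      rw [mul_sum]
      refine le_trans (sum_le_sum (g := fun p => ε / 2 * (∏ j ∈ range k, (Q (p + j) : ℝ))⁻¹) ?_) ?_
      · intro p hp
        rw [mem_filter, mem_filter, mem_Icc] at hp
        rw [prod_range_succ, mul_inv, mul_comm]
        apply mul_le_mul_of_nonneg_right _ (hterm k p hp.1.1.1)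
        have h3 := hN (p + k) (by omega)
        have h4 : (A : ℝ) ≤ Q (p + k) := by exact_mod_cast h3
        have h5 : 2 / ε < Q (p + k) := lt_of_lt_of_le hA h4
        rw [inv_le_comm₀ (lt_trans (by positivity) h5) (by positivity)]
        rw [inv_div]
        exact h5.le
      · apply sum_le_sum_of_subset_of_nonneg (filter_subset _ _)
        intro p hp _
        have := hterm k p (mem_Icc.1 (mem_filter.1 hp).1).1
        positivity
    linarith
  have hev := hw.eventually_gt_atTop (2 * N / ε + 1)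
  obtain ⟨M, hM⟩ := eventually_atTop.1 hev
  refine ⟨M, fun n hn => ?_⟩
  have h1 := hM n hn
  have hpos : 0 < weight Q k m r n := lt_trans (by positivity) h1
  have hnn : 0 ≤ weight Q (k + 1) m r n := by
    unfold weight
    exact sum_nonneg fun p hp => hterm _ p (mem_Icc.1 (mem_filter.1 hp).1).1
  rw [Real.dist_eq, sub_zero, abs_of_nonneg (by positivity), div_lt_iff₀ hpos]
  have h2 := hle n
  have h3 : (N : ℝ) < ε / 2 * weight Q k m r n := by
    have : 2 * N / ε < weight Q k m r n := by linarith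
    rw [div_lt_iff₀ hε] at this
    linarith
  linarith

end Pool.Agent.V11309.Erase
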