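import Mathlib
import Pool.Agent.V11309.Erase

/-! Random digits contain many isolated runs of zeros; uniform digits. -/

set_option autoImplicit false

namespace Pool.Agent.V11309.IsoLln

open Filter Topology Finset MeasureTheory
open Pool.Agent.V11309.Lln Pool.Agent.V11309.RandDigits Pool.Agent.V11309.Cantor
open Pool.Agent.V11309.Normality Pool.Agent.V11309.Erase
open scoped ENNReal NNReal

set_option linter.unusedSectionVars false

variable (ν : ℕ → Measure ℕ) [∀ n, IsProbabilityMeasure (ν n)]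

/-- constraints for an isolated run -/
def TI (Q : ℕ → ℕ) (k m r : ℕ) (u i : ℕ) : Set ℕ :=
  {c | (1 ≤ u ∧ (u + 1) % m = r) ∧ if i = u ∨ i = u + k + 1 then Q i / 2 ≤ c else c = 0}

lemma mem_ev_TI (Q : ℕ → ℕ) (k m r u : ℕ) (ω : ℕ → ℕ) :
    ω ∈ Ev (TI Q k m r) (k + 2) u ↔ (1 ≤ u ∧ (u + 1) % m = r) ∧ Iso Q ω k (u + 1) := by
  constructor
  · intro h
    have h0 := h u (mem_Ico.2 ⟨le_rfl, by omega⟩)
    refine ⟨h0.1, by have := h0.1; omega, ?_, fun i hi1 hi2 => ?_, ?_⟩
    · have := h0.2
      rw [if_pos (Or.inl rfl)] at this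
      simpa using this
    · have := (h i (mem_Ico.2 ⟨by omega, by omega⟩)).2
      rwa [if_neg (by omega)] at this
    · have := (h (u + k + 1) (mem_Ico.2 ⟨by omega, by omega⟩)).2
      rw [if_pos (Or.inr rfl)] at this
      have e : u + 1 + k = u + k + 1 := by ring
      rw [e]; exact this
  · rintro ⟨h1, h2, h3, h4, h5⟩ i hi
    rw [mem_Ico] at hi
    refine ⟨h1, ?_⟩
    split_ifs with h
    · rcases h with h | h
      · rw [h]; simpa using h3
      · rw [h]
        have e : u + 1 + k = u + k + 1 := by ring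
        rw [e] at h5; exact h5
    · exact h4 i (by omega) (by omega)

lemma sum_ind_TI (Q : ℕ → ℕ) (k m r n : ℕ) (ω : ℕ → ℕ) :
    ∑ u ∈ range n, ind (Ev (TI Q k m r) (k + 2) u) ω =
      isoCount Q ω (fun _ _ => True) k m r n := by
  classical
  have e : isoCount Q ω (fun _ _ => True) k m r n =
      (((range n).filter (fun u => ω ∈ Ev (TI Q k m r) (k + 2) u)).image (fun u => u + 1)).card := by
    unfold isoCount
    congr 1
    ext p
    simp only [mem_filter, mem_Icc, mem_image, mem_range, mem_ev_TI, true_and]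
    constructor
    · rintro ⟨h1, h2, h3⟩
      have := h3.1
      refine ⟨p - 1, ⟨by omega, ⟨by omega, ?_⟩, ?_⟩, by omega⟩
      · rw [Nat.sub_add_cancel h1.1]; exact h2
      · rw [Nat.sub_add_cancel h1.1]; exact h3
    · rintro ⟨u, ⟨h1, h2, h3⟩, rfl⟩
      exact ⟨by omega, h2.2, h3⟩
  rw [e, card_image_of_injective _ (fun a b h => by simpa using h), card_eq_sum_ones, sum_filter]
  push_cast
  apply sum_congr rfl
  intro p _
  unfold ind
  rw [Set.indicator_apply]

lemma prob_TI (Q : ℕ → ℕ) (k m r N : ℕ)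
    (hN : ∀ n, N ≤ n → (ν n).real {0} = ((Q n : ℝ))⁻¹ ∧ 1 / 2 ≤ (ν n).real {c | Q n / 2 ≤ c})
    (u : ℕ) (hu : N ≤ u) (hu1 : 1 ≤ u) (hm : (u + 1) % m = r) :
    1 / 4 * (∏ j ∈ range k, (Q (u + 1 + j) : ℝ))⁻¹ ≤
      ∏ i ∈ Ico u (u + (k + 2)), (ν i).real (TI Q k m r u i) := by
  rw [prod_Ico_eq_prod_range, Nat.add_sub_cancel_left, prod_range_succ, prod_range_succ',
    ← prod_inv_distrib]
  have e1 : ∀ j ∈ range k, (ν (u + (j + 1))).real (TI Q k m r u (u + (j + 1))) =
      ((Q (u + 1 + j) : ℝ))⁻¹ := by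
    intro j hj
    rw [mem_range] at hj
    have e : TI Q k m r u (u + (j + 1)) = {0} := by
      ext c
      simp only [TI, Set.mem_ofPred_eq, Set.mem_singleton_iff]
      rw [if_neg (by omega)]
      exact ⟨fun hc => hc.2, fun hc => ⟨⟨hu1, hm⟩, hc⟩⟩
    rw [e, (hN _ (by omega)).1]
    congr 3
    ring
  rw [prod_congr rfl e1]
  have e2 : TI Q k m r u (u + 0) = {c | Q (u + 0) / 2 ≤ c} := by
    ext c
    simp only [TI, Set.mem_ofPred_eq, add_zero]
    rw [if_pos (Or.inl trivial)]
    exact ⟨fun hc => hc.2, fun hc => ⟨⟨hu1, hm⟩, hc⟩⟩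
  have e3 : TI Q k m r u (u + (k + 1)) = {c | Q (u + (k + 1)) / 2 ≤ c} := by
    ext c
    simp only [TI, Set.mem_ofPred_eq]
    rw [if_pos (Or.inr (by ring))]
    exact ⟨fun hc => hc.2, fun hc => ⟨⟨hu1, hm⟩, hc⟩⟩
  rw [e2, e3]
  have h2 := (hN (u + 0) (by omega)).2
  have h3 := (hN (u + (k + 1)) (by omega)).2
  have h0 : (0 : ℝ) ≤ ∏ j ∈ range k, ((Q (u + 1 + j) : ℝ))⁻¹ := prod_nonneg fun _ _ => by positivity
  set a := (ν (u + 0)).real {c | Q (u + 0) / 2 ≤ c}
  set b := (ν (u + (k + 1))).real {c | Q (u + (k + 1)) / 2 ≤ c}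
  have hab : 1 / 4 ≤ a * b := by nlinarith
  nlinarith

/-- **Many isolated runs.** -/
theorem ae_iso (Q : ℕ → ℕ)
    (hν : ∀ᶠ n in atTop, (ν n).real {0} = ((Q n : ℝ))⁻¹)
    (hν2 : ∀ᶠ n in atTop, 1 / 2 ≤ (ν n).real {c | Q n / 2 ≤ c}) :
    ∀ᵐ ω ∂(Measure.infinitePi ν), ∀ k m r : ℕ, Tendsto (weight Q k m r) atTop atTop →
      ∀ᶠ n in atTop, 1 / 16 * weight Q k m r n ≤ isoCount Q ω (fun _ _ => True) k m r n := by
  rw [ae_all_iff]; intro k
  rw [ae_all_iff]; intro m
  rw [ae_all_iff]; intro r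
  rw [ae_all_iff]; intro hw
  obtain ⟨N, hN⟩ := eventually_atTop.1 (hν.and hν2)
  have hterm : ∀ p, 0 ≤ (∏ j ∈ range k, (Q (p + j) : ℝ))⁻¹ := fun p => by positivity
  have hlow : ∀ n, 1 / 4 * (weight Q k m r n - weight Q k m r (N + 1)) ≤
      ∑ u ∈ range n, ∏ i ∈ Ico u (u + (k + 2)), (ν i).real (TI Q k m r u i) := by
    intro n
    rcases le_total n (N + 1) with h | h
    · have h1 : weight Q k m r n ≤ weight Q k m r (N + 1) := by
        unfold weight
        apply sum_le_sum_of_subset_of_nonneg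
        · exact filter_subset_filter _ (Icc_subset_Icc le_rfl h)
        · intro i _ _; exact hterm i
      have h2 : 0 ≤ ∑ u ∈ range n, ∏ i ∈ Ico u (u + (k + 2)), (ν i).real (TI Q k m r u i) :=
        sum_nonneg fun _ _ => prod_nonneg fun _ _ => by positivity
      linarith
    · have e : weight Q k m r n - weight Q k m r (N + 1) =
          ∑ p ∈ (Icc (N + 2) n).filter (fun p => p % m = r), (∏ j ∈ range k, (Q (p + j) : ℝ))⁻¹ := by
        unfold weight
        have hU : (Icc 1 n).filter (fun p => p % m = r) =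
            (Icc 1 (N + 1)).filter (fun p => p % m = r) ∪
            (Icc (N + 2) n).filter (fun p => p % m = r) := by
          rw [← filter_union]
          congr 1
          ext p
          simp only [mem_Icc, mem_union]
          omega
        rw [hU, sum_union]
        · ring
        · rw [disjoint_left]
          intro p hp1 hp2
          rw [mem_filter, mem_Icc] at hp1 hp2
          omega
      rw [e, mul_sum]
      calc ∑ p ∈ (Icc (N + 2) n).filter (fun p => p % m = r),
            1 / 4 * (∏ j ∈ range k, (Q (p + j) : ℝ))⁻¹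
          ≤ ∑ p ∈ (Icc (N + 2) n).filter (fun p => p % m = r),
            ∏ i ∈ Ico (p - 1) (p - 1 + (k + 2)), (ν i).real (TI Q k m r (p - 1) i) := by
            apply sum_le_sum
            intro p hp
            rw [mem_filter, mem_Icc] at hp
            have h1 := prob_TI ν Q k m r N hN (p - 1) (by omega) (by omega)
              (by rw [Nat.sub_add_cancel (by omega)]; exact hp.2)
            rwa [Nat.sub_add_cancel (by omega)] at h1
        _ = ∑ u ∈ ((Icc (N + 2) n).filter (fun p => p % m = r)).image (fun p => p - 1),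
            ∏ i ∈ Ico u (u + (k + 2)), (ν i).real (TI Q k m r u i) := by
            rw [sum_image]
            intro a ha b hb hab
            simp only [coe_filter, mem_Icc, Set.mem_ofPred_eq] at ha hb
            have hab' : a - 1 = b - 1 := hab
            omega
        _ ≤ _ := by
            apply sum_le_sum_of_subset_of_nonneg
            · intro u hu
              rw [mem_image] at hu
              obtain ⟨p, hp, rfl⟩ := hu
              rw [mem_filter, mem_Icc] at hp
              rw [mem_range]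
              omega
            · intro _ _ _
              exact prod_nonneg fun _ _ => by positivity
  have hMt : Tendsto (fun n => ∑ u ∈ range n, ∏ i ∈ Ico u (u + (k + 2)),
      (ν i).real (TI Q k m r u i)) atTop atTop := by
    refine tendsto_atTop_mono hlow ?_
    exact (tendsto_atTop_add_const_right _ (-weight Q k m r (N + 1)) hw).const_mul_atTop
      (by norm_num : (0 : ℝ) < 1 / 4)
  filter_upwards [ev_lln ν (TI Q k m r) (k + 2) hMt] with ω hω
  have h1 : ∀ᶠ n in atTop, 1 / 2 < (∑ p ∈ range n, ind (Ev (TI Q k m r) (k + 2) p) ω) /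
      ∑ u ∈ range n, ∏ i ∈ Ico u (u + (k + 2)), (ν i).real (TI Q k m r u i) :=
    hω.eventually_const_lt (by norm_num)
  filter_upwards [h1, hMt.eventually_gt_atTop 0, hw.eventually_ge_atTop (2 * weight Q k m r (N + 1))]
    with n hn1 hn2 hn3
  rw [sum_ind_TI, lt_div_iff₀ hn2] at hn1
  have h4 := hlow n
  linarith

/-! ### the uniform distribution on digits -/

/-- uniform distribution on `{0, …, q - 1}` (for `q = 0`: a point mass) -/
noncomputable def unif (q : ℕ) : Measure ℕ :=
  if h : (range q).Nonempty then (PMF.uniformOfFinset (range q) h).toMeasure else Measure.dirac 0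

instance (q : ℕ) : IsProbabilityMeasure (unif q) := by
  unfold unif
  split_ifs <;> infer_instance

lemma unif_real (q : ℕ) (hq : 1 ≤ q) (T : Set ℕ) [DecidablePred (· ∈ T)] :
    (unif q).real T = (((range q).filter (· ∈ T)).card : ℝ) / q := by
  have h : (range q).Nonempty := ⟨0, mem_range.2 hq⟩
  unfold unif
  rw [dif_pos h, measureReal_def, PMF.toMeasure_uniformOfFinset_apply _ _ MeasurableSet.of_discrete]
  rw [ENNReal.toReal_div, card_range]
  simp only [ENNReal.toReal_natCast]
  congr!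

lemma unif_singleton (q c : ℕ) (hc : c < q) : (unif q).real {c} = ((q : ℝ))⁻¹ := by
  classical
  rw [unif_real q (by omega)]
  have : (range q).filter (· ∈ ({c} : Set ℕ)) = {c} := by
    ext d
    simp only [mem_filter, mem_range, Set.mem_singleton_iff, mem_singleton]
    exact ⟨fun h => h.2, fun h => ⟨by omega, h⟩⟩
  rw [this, card_singleton]
  simp

lemma unif_upper (q : ℕ) (hq : 1 ≤ q) : 1 / 2 ≤ (unif q).real {c | q / 2 ≤ c} := by
  classical
  rw [unif_real q hq]
  have : (range q).filter (· ∈ ({c | q / 2 ≤ c} : Set ℕ)) = Ico (q / 2) q := by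
    ext d
    simp only [mem_filter, mem_range, Set.mem_ofPred_eq, mem_Ico]
    exact and_comm
  rw [this, Nat.card_Ico]
  have hq0 : (0 : ℝ) < q := by exact_mod_cast hq
  rw [div_le_div_iff₀ (by norm_num) hq0]
  have : q ≤ (q - q / 2) * 2 := by omega
  have h2 : (q : ℝ) ≤ ((q - q / 2 : ℕ) : ℝ) * 2 := by exact_mod_cast this
  linarith

lemma unif_lt (q : ℕ) (hq : 1 ≤ q) : ∀ᵐ c ∂(unif q), c < q := by
  classical
  have h : (range q).Nonempty := ⟨0, mem_range.2 hq⟩
  rw [ae_iff]
  unfold unif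
  rw [dif_pos h, PMF.toMeasure_uniformOfFinset_apply _ _ MeasurableSet.of_discrete]
  rw [ENNReal.div_eq_zero_iff]
  left
  rw [Nat.cast_eq_zero, card_eq_zero]
  ext d
  simp only [mem_filter, mem_range, Set.mem_ofPred_eq, Finset.notMem_empty, iff_false]
  omega

/-- all the random digits are admissible -/
lemma ae_digits (ν : ℕ → Measure ℕ) [∀ n, IsProbabilityMeasure (ν n)] (Q : ℕ → ℕ)
    (h : ∀ n, 1 ≤ n → ∀ᵐ c ∂(ν n), c < Q n) :
    ∀ᵐ ω ∂(Measure.infinitePi ν), ∀ n, 1 ≤ n → ω n < Q n := by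
  rw [ae_all_iff]; intro n
  rw [ae_all_iff]; intro hn
  have h1 := h n hn
  rw [ae_iff] at h1 ⊢
  have h2 := ev_prob ν (fun _ i => {c | ¬ c < Q i}) 1 n
  have e : Ico n (n + 1) = {n} := by ext; simp
  rw [e, prod_singleton, h1] at h2
  have e2 : {ω : ℕ → ℕ | ¬ ω n < Q n} = Ev (fun _ i => {c | ¬ c < Q i}) 1 n := by
    ext ω
    simp only [Ev, Set.mem_ofPred_eq, e, mem_singleton, forall_eq]
  rw [e2]
  exact h2

end Pool.Agent.V11309.IsoLln
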