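import Mathlib
import Pool.Agent.V11309.IsoLln
import Pool.Agent.V11309.FromDigits

/-! Erasing isolated runs of zeros destroys normality of exactly the prescribed orders. -/

set_option autoImplicit false

namespace Pool.Agent.V11309.EraseNormal

open Filter Topology Finset MeasureTheory
open Pool.Agent.V11309.Cantor Pool.Agent.V11309.FromDigits
open Pool.Agent.V11309.Normality Pool.Agent.V11309.Erase Pool.Agent.V11309.IsoLln

/-- a digit sequence behaving like a typical one -/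
structure Good (Q E : ℕ → ℕ) : Prop where
  dig : ∀ n, 1 ≤ n → E n < Q n
  norm : ∀ k, 1 ≤ k → ∀ B : Fin k → ℕ, ∀ m r : ℕ, Tendsto (weight Q k m r) atTop atTop →
      Tendsto (fun n => (countE E B m r n : ℝ) / weight Q k m r n) atTop (𝓝 1)
  iso : ∀ k m r : ℕ, Tendsto (weight Q k m r) atTop atTop →
      ∀ᶠ n in atTop, 1 / 16 * weight Q k m r n ≤ isoCount Q E (fun _ _ => True) k m r n

/-- random digits are good -/
theorem ae_good (ν : ℕ → Measure ℕ) [∀ n, IsProbabilityMeasure (ν n)] (Q : ℕ → ℕ)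
    (hd : ∀ n, 1 ≤ n → ∀ᵐ c ∂(ν n), c < Q n)
    (hν : ∀ c : ℕ, ∀ᶠ n in atTop, (ν n).real {c} = ((Q n : ℝ))⁻¹)
    (hν2 : ∀ᶠ n in atTop, 1 / 2 ≤ (ν n).real {c | Q n / 2 ≤ c}) :
    ∀ᵐ ω ∂(Measure.infinitePi ν), Good Q ω := by
  filter_upwards [ae_digits ν Q hd, ae_normal ν Q hν, ae_iso ν Q (hν 0) hν2] with ω h1 h2 h3
  exact ⟨h1, h2, h3⟩

theorem exists_good (Q : ℕ → ℕ) (hQ : ∀ n, 1 ≤ n → 2 ≤ Q n) (hQt : Tendsto Q atTop atTop) :
    ∃ E, Good Q E := by
  have h := ae_good (fun n => unif (Q n)) Q (fun n hn => unif_lt _ (by have := hQ n hn; omega))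
    (fun c => by
      filter_upwards [hQt.eventually_gt_atTop c] with n hn
      exact unif_singleton _ _ hn)
    (by
      filter_upwards [eventually_ge_atTop 1] with n hn
      exact unif_upper _ (by have := hQ n hn; omega))
  exact h.exists

lemma bound_digits {Q : ℕ → ℕ} (hQt : Tendsto Q atTop atTop) {k : ℕ} (C : Fin k → ℕ) :
    ∃ N0, 1 ≤ N0 ∧ ∀ n, N0 ≤ n → ∀ j, C j < Q n / 2 := by
  have h : ∀ᶠ n in atTop, ∀ j, C j < Q n / 2 := by
    rw [eventually_all]
    intro j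
    filter_upwards [hQt.eventually_ge_atTop (2 * (C j + 1))] with n hn
    omega
  obtain ⟨N, hN⟩ := eventually_atTop.1 h
  exact ⟨N + 1, by omega, fun n hn => hN n (by omega)⟩

variable {Q E : ℕ → ℕ}

/-- if the digit `1` occurs infinitely often in `E`, then the modified sequence is an admissible
digit sequence -/
lemma infinitely_often (hQt : Tendsto Q atTop atTop) (hG : Good Q E) (L : ℕ → ℕ → Prop)
    (hw : Tendsto (weight Q 1 1 0) atTop atTop) (N : ℕ) :
    ∃ n, N ≤ n ∧ eraseZ Q E L n + 1 < Q n := by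
  classical
  have h1 := hG.norm 1 le_rfl (fun _ => 1) 1 0 hw
  have h2 : Tendsto (fun n => (countE E (fun _ : Fin 1 => 1) 1 0 n : ℝ)) atTop atTop :=
    tendsto_of_ratio_one h1 hw
  obtain ⟨M, hM⟩ := eventually_atTop.1 (hQt.eventually_gt_atTop 2)
  obtain ⟨n, hn⟩ := (h2.eventually_gt_atTop ((N + M : ℕ) : ℝ)).exists
  have hn' : N + M < countE E (fun _ : Fin 1 => 1) 1 0 n := by exact_mod_cast hn
  unfold countE at hn'
  have hex : ∃ p ∈ (Icc 1 n).filter (fun p => p % 1 = 0 ∧ OccE E (fun _ : Fin 1 => 1) p),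
      p ∉ range (N + M) := by
    by_contra hcon
    push Not at hcon
    have := card_le_card (s := (Icc 1 n).filter (fun p => p % 1 = 0 ∧
      OccE E (fun _ : Fin 1 => 1) p)) (t := range (N + M)) hcon
    rw [card_range] at this
    omega
  obtain ⟨p, hp, hp2⟩ := hex
  rw [mem_range] at hp2
  rw [mem_filter] at hp
  refine ⟨p, by omega, ?_⟩
  have h3 : E p = 1 := by simpa using hp.2.2 0
  have h4 : ¬ Changed Q E L p := by
    rintro ⟨t, s, -, hs1, hs2, hI⟩
    have := hI.2.2.1 p hs1 hs2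
    omega
  unfold eraseZ
  rw [if_neg h4, h3]
  exact hM p (by omega)

/-- normality of the constructed number in terms of the digits -/
lemma mem_iff (hQ : ∀ n, 1 ≤ n → 2 ≤ Q n) (hQt : Tendsto Q atTop atTop) (hG : Good Q E)
    (L : ℕ → ℕ → Prop) (hw : Tendsto (weight Q 1 1 0) atTop atTop) (k m r : ℕ) :
    xx Q (eraseZ Q E L) ∈ NormalAP Q k m r ↔ ∀ B : Fin k → ℕ,
      Tendsto (fun n => (countE (eraseZ Q E L) B m r n : ℝ) / weight Q k m r n) atTop (𝓝 1) := by
  unfold NormalAP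
  have h : ∀ (B : Fin k → ℕ) (n : ℕ), count Q (xx Q (eraseZ Q E L)) B m r n =
      countE (eraseZ Q E L) B m r n := fun B n =>
    count_eq Q _ _ (fun n hn => digit_xx hQ (erase_lt hQ hG.dig)
      (infinitely_often hQt hG L hw) n hn) B m r n
  simp only [Set.mem_ofPred_eq, h]

lemma weight_nonneg (k m r n : ℕ) : 0 ≤ weight Q k m r n := by
  unfold weight
  exact sum_nonneg fun _ _ => by positivity

/-- orders that are not touched: only few runs of length exactly `k` are erased -/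
theorem normal_of_few (hQ : ∀ n, 1 ≤ n → 2 ≤ Q n) (hQt : Tendsto Q atTop atTop) (hG : Good Q E)
    (L : ℕ → ℕ → Prop) (hw : ∀ k, 1 ≤ k → Tendsto (weight Q k 1 0) atTop atTop) (k : ℕ)
    (hk : 1 ≤ k)
    (hfew : Tendsto (fun n => (isoCount Q E L k 1 0 n : ℝ) / weight Q k 1 0 n) atTop (𝓝 0)) :
    xx Q (eraseZ Q E L) ∈ NormalAP Q k 1 0 := by
  rw [mem_iff hQ hQt hG L (hw 1 le_rfl)]
  intro B
  obtain ⟨N0, hN1, hN⟩ := bound_digits hQt B
  have h1 := hG.norm k hk B 1 0 (hw k hk)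
  have hZ : Tendsto (fun n => (countE E (Z (k + 1)) 1 0 n : ℝ) / weight Q k 1 0 n) atTop (𝓝 0) := by
    have h2 := hG.norm (k + 1) (by omega) (Z (k + 1)) 1 0 (hw (k + 1) (by omega))
    have h3 := weight_ratio_zero hQ hQt k 1 0 (hw k hk)
    have h4 := h2.mul h3
    rw [mul_zero] at h4
    refine h4.congr' ?_
    filter_upwards [(hw (k + 1) (by omega)).eventually_gt_atTop 0] with n hn
    field_simp
  have hN0 : Tendsto (fun n => (N0 : ℝ) / weight Q k 1 0 n) atTop (𝓝 0) :=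
    (hw k hk).const_div_atTop _
  have hlow : Tendsto (fun n => (countE E B 1 0 n : ℝ) / weight Q k 1 0 n -
      (N0 : ℝ) / weight Q k 1 0 n -
      ((countE E (Z (k + 1)) 1 0 n : ℝ) / weight Q k 1 0 n +
      (countE E (Z (k + 1)) 1 0 n : ℝ) / weight Q k 1 0 n +
      (isoCount Q E L k 1 0 n : ℝ) / weight Q k 1 0 n)) atTop (𝓝 (1 - 0 - (0 + 0 + 0))) :=
    (h1.sub hN0).sub ((hZ.add hZ).add hfew)
  have hupp : Tendsto (fun n => (countE E B 1 0 n : ℝ) / weight Q k 1 0 n +
      (N0 : ℝ) / weight Q k 1 0 n) atTop (𝓝 (1 + 0)) := h1.add hN0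
  norm_num at hlow hupp
  refine tendsto_of_tendsto_of_tendsto_of_le_of_le hlow hupp ?_ ?_
  · intro n
    have h2 := count_le_count_erase (E := E) (L := L) hk B N0 hN1 hN n
    have h3 : (countE E B 1 0 n : ℝ) ≤ countE (eraseZ Q E L) B 1 0 n + N0 +
        (countE E (Z (k + 1)) 1 0 n + countE E (Z (k + 1)) 1 0 n + isoCount Q E L k 1 0 n) := by
      exact_mod_cast h2
    show _ ≤ (countE (eraseZ Q E L) B 1 0 n : ℝ) / weight Q k 1 0 n
    beta_reduce
    rw [← add_div, ← add_div, ← sub_div, ← sub_div]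
    apply div_le_div_of_nonneg_right _ (weight_nonneg _ _ _ _)
    linarith
  · intro n
    have h2 := count_erase_le (E := E) (L := L) B N0 hN1 hQ hN 1 0 n
    have h3 : (countE (eraseZ Q E L) B 1 0 n : ℝ) ≤ countE E B 1 0 n + N0 := by exact_mod_cast h2
    show (countE (eraseZ Q E L) B 1 0 n : ℝ) / weight Q k 1 0 n ≤ _
    beta_reduce
    rw [← add_div]
    exact div_le_div_of_nonneg_right h3 (weight_nonneg _ _ _ _)

/-- orders that are destroyed: infinitely often a positive proportion is erased -/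
theorem not_normal_of_many (hQ : ∀ n, 1 ≤ n → 2 ≤ Q n) (hQt : Tendsto Q atTop atTop)
    (hG : Good Q E)
    (L : ℕ → ℕ → Prop) (hw1 : Tendsto (weight Q 1 1 0) atTop atTop) (k m r : ℕ)
    (hk : 1 ≤ k) (hw : Tendsto (weight Q k m r) atTop atTop)
    {δ : ℝ} (hδ : 0 < δ)
    (hmany : ∃ᶠ n in atTop, δ * weight Q k m r n ≤ isoCount Q E L k m r n) :
    xx Q (eraseZ Q E L) ∉ NormalAP Q k m r := by
  rw [mem_iff hQ hQt hG L hw1]
  intro hcon
  have h1 := hcon (Z k)
  obtain ⟨N0, hN1, hN⟩ := bound_digits hQt (Z k)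
  have h2 := hG.norm k hk (Z k) m r hw
  have hN0 : Tendsto (fun n => (2 * N0 : ℝ) / weight Q k m r n) atTop (𝓝 0) :=
    hw.const_div_atTop _
  have h3 : Tendsto (fun n => (countE (eraseZ Q E L) (Z k) m r n : ℝ) / weight Q k m r n -
      (countE E (Z k) m r n : ℝ) / weight Q k m r n - (2 * N0 : ℝ) / weight Q k m r n) atTop
      (𝓝 (1 - 1 - 0)) := (h1.sub h2).sub hN0
  norm_num at h3
  have h4 : ∀ᶠ n in atTop, -δ < (countE (eraseZ Q E L) (Z k) m r n : ℝ) / weight Q k m r n -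
      (countE E (Z k) m r n : ℝ) / weight Q k m r n - (2 * N0 : ℝ) / weight Q k m r n :=
    h3.eventually_const_lt (by linarith)
  obtain ⟨n, hn1, hn2, hn3⟩ := (hmany.and_eventually (h4.and (hw.eventually_gt_atTop 0))).exists
  have h5 := count_erase_add_iso_le (E := E) (L := L) hk N0 hN1 hQ hN m r n
  have h6 : (countE (eraseZ Q E L) (Z k) m r n : ℝ) + isoCount Q E L k m r n ≤
      countE E (Z k) m r n + 2 * N0 := by exact_mod_cast h5
  rw [← sub_div, ← sub_div, lt_div_iff₀ hn3] at hn2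
  linarith

/-- **Prescribed orders.** -/
theorem orders (hQ : ∀ n, 1 ≤ n → 2 ≤ Q n) (hQt : Tendsto Q atTop atTop)
    (hw : ∀ k, 1 ≤ k → Tendsto (weight Q k 1 0) atTop atTop) (hG : Good Q E) (L : Set ℕ) (k : ℕ)
    (hk : 1 ≤ k) :
    xx Q (eraseZ Q E (fun t _ => t ∈ L)) ∈ NormalAP Q k 1 0 ↔ k ∉ L := by
  classical
  constructor
  · intro h hkL
    refine not_normal_of_many hQ hQt hG (fun t _ => t ∈ L) (hw 1 le_rfl) k 1 0 hk (hw k hk)
      (δ := 1 / 16) (by norm_num) ?_ h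
    refine Eventually.frequently ?_
    filter_upwards [hG.iso k 1 0 (hw k hk)] with n hn
    have : isoCount Q E (fun t _ => t ∈ L) k 1 0 n = isoCount Q E (fun _ _ => True) k 1 0 n := by
      unfold isoCount
      congr 1
      ext p
      simp [hkL]
    rw [this]
    exact hn
  · intro hkL
    apply normal_of_few hQ hQt hG _ hw k hk
    have : ∀ n, isoCount Q E (fun t _ => t ∈ L) k 1 0 n = 0 := by
      intro n
      unfold isoCount
      rw [card_eq_zero, filter_eq_empty_iff]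
      intro p _ h
      exact hkL h.2.1
    simp [this]

end Pool.Agent.V11309.EraseNormal
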