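import Mathlib
import Pool.Agent.V11309.Normality

/-! Law of large numbers for block occurrences at the positions of an arbitrary set. -/

set_option autoImplicit false

namespace Pool.Agent.V11309.SetLln

open Filter Topology Finset MeasureTheory
open Pool.Agent.V11309.Lln Pool.Agent.V11309.RandDigits Pool.Agent.V11309.Cantor
open Pool.Agent.V11309.Normality
open scoped ENNReal NNReal

set_option linter.unusedSectionVars false

variable (ν : ℕ → Measure ℕ) [∀ n, IsProbabilityMeasure (ν n)]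

/-- the weight of window `p` -/
noncomputable def wt (Q : ℕ → ℕ) (k p : ℕ) : ℝ := (∏ j ∈ range k, (Q (p + j) : ℝ))⁻¹

lemma wt_nonneg (Q : ℕ → ℕ) (k p : ℕ) : 0 ≤ wt Q k p := by unfold wt; positivity

open Classical in
/-- weights along a set of positions -/
noncomputable def weightV (Q : ℕ → ℕ) (k : ℕ) (V : ℕ → Prop) (n : ℕ) : ℝ :=
  ∑ p ∈ (Icc 1 n).filter V, wt Q k p

open Classical in
/-- occurrences along a set of positions -/
noncomputable def countV (E : ℕ → ℕ) {k : ℕ} (B : Fin k → ℕ) (V : ℕ → Prop) (n : ℕ) : ℕ :=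
  ((Icc 1 n).filter fun p => V p ∧ OccE E B p).card

/-- constraints for a block along a set -/
def TV {k : ℕ} (B : Fin k → ℕ) (V : ℕ → Prop) (p i : ℕ) : Set ℕ :=
  {c | (1 ≤ p ∧ V p) ∧ ∀ h : i - p < k, c = B ⟨i - p, h⟩}

lemma mem_ev_TV {k : ℕ} (hk : 1 ≤ k) (B : Fin k → ℕ) (V : ℕ → Prop) (p : ℕ) (ω : ℕ → ℕ) :
    ω ∈ Ev (TV B V) k p ↔ (1 ≤ p ∧ V p) ∧ OccE ω B p := by
  constructor
  · intro h
    have h0 := h p (mem_Ico.2 ⟨le_rfl, by omega⟩)
    refine ⟨h0.1, fun j => ?_⟩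
    have h1 := (h (p + j) (mem_Ico.2 ⟨by omega, by omega⟩)).2 (by omega)
    rw [h1]
    congr 1
    ext
    simp
  · rintro ⟨h1, h2⟩ i hi
    rw [mem_Ico] at hi
    refine ⟨h1, fun h => ?_⟩
    have := h2 ⟨i - p, h⟩
    simp only at this
    rwa [Nat.add_sub_cancel' hi.1] at this

open Classical in
lemma prob_TV {k : ℕ} (hk : 1 ≤ k) (B : Fin k → ℕ) (V : ℕ → Prop) (p : ℕ) (Q : ℕ → ℕ) (N : ℕ)
    (hN : ∀ n, N ≤ n → ∀ j : Fin k, (ν n).real {B j} = ((Q n : ℝ))⁻¹) (hp : N ≤ p) :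
    ∏ i ∈ Ico p (p + k), (ν i).real (TV B V p i) =
      if 1 ≤ p ∧ V p then wt Q k p else 0 := by
  split_ifs with h
  · unfold wt
    rw [prod_Ico_eq_prod_range, Nat.add_sub_cancel_left, ← prod_inv_distrib]
    apply prod_congr rfl
    intro i hi
    rw [mem_range] at hi
    have e : TV B V p (p + i) = {B ⟨i, hi⟩} := by
      ext c
      simp only [TV, Set.mem_ofPred_eq, Set.mem_singleton_iff, Nat.add_sub_cancel_left]
      exact ⟨fun hc => hc.2 hi, fun hc => ⟨h, fun _ => hc⟩⟩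
    rw [e]
    exact hN _ (by omega) _
  · apply prod_eq_zero (i := p) (mem_Ico.2 ⟨le_rfl, by omega⟩)
    have e : TV B V p p = ∅ := by
      ext c
      simp only [TV, Set.mem_ofPred_eq, Set.mem_empty_iff_false, iff_false]
      exact fun hc => h hc.1
    rw [e]
    simp

lemma sum_ind_TV {k : ℕ} (hk : 1 ≤ k) (B : Fin k → ℕ) (V : ℕ → Prop) (n : ℕ) (ω : ℕ → ℕ) :
    ∑ p ∈ range (n + 1), ind (Ev (TV B V) k p) ω = countV ω B V n := by
  classical
  have e : countV ω B V n =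
      ((range (n + 1)).filter (fun p => ω ∈ Ev (TV B V) k p)).card := by
    unfold countV
    congr 1
    ext p
    simp only [mem_filter, mem_Icc, mem_range, mem_ev_TV hk]
    constructor
    · rintro ⟨h1, h2, h3⟩; exact ⟨by omega, ⟨h1.1, h2⟩, h3⟩
    · rintro ⟨h1, ⟨h2, h3⟩, h4⟩; exact ⟨⟨h2, by omega⟩, h3, h4⟩
  rw [e, card_eq_sum_ones, sum_filter]
  push_cast
  apply sum_congr rfl
  intro p _
  unfold ind
  rw [Set.indicator_apply]

open Classical in
lemma sum_weightV {k : ℕ} (V : ℕ → Prop) (n : ℕ) (Q : ℕ → ℕ) :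
    ∑ p ∈ range (n + 1), (if 1 ≤ p ∧ V p then wt Q k p else 0) = weightV Q k V n := by
  unfold weightV
  rw [← sum_filter]
  apply sum_congr _ (fun _ _ => rfl)
  ext p
  simp only [mem_filter, mem_range, mem_Icc]
  constructor
  · rintro ⟨h1, h2, h3⟩; exact ⟨⟨h2, by omega⟩, h3⟩
  · rintro ⟨h1, h2⟩; exact ⟨by omega, h1.1, h2⟩

/-- **LLN along a set of positions.** -/
theorem ae_set (Q : ℕ → ℕ)
    (hν : ∀ c : ℕ, ∀ᶠ n in atTop, (ν n).real {c} = ((Q n : ℝ))⁻¹)
    {k : ℕ} (hk : 1 ≤ k) (B : Fin k → ℕ) (V : ℕ → Prop)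
    (hw : Tendsto (weightV Q k V) atTop atTop) :
    ∀ᵐ ω ∂(Measure.infinitePi ν),
      Tendsto (fun n => (countV ω B V n : ℝ) / weightV Q k V n) atTop (𝓝 1) := by
  classical
  have hex : ∃ N, ∀ n, N ≤ n → ∀ j : Fin k, (ν n).real {B j} = ((Q n : ℝ))⁻¹ := by
    have : ∀ᶠ n in atTop, ∀ j : Fin k, (ν n).real {B j} = ((Q n : ℝ))⁻¹ :=
      eventually_all.2 fun j => hν (B j)
    exact eventually_atTop.1 this
  obtain ⟨N, hN⟩ := hex
  have h1 : Tendsto (fun n => (∑ p ∈ range (n + 1), ∏ i ∈ Ico p (p + k), (ν i).real (TV B V p i)) /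
      weightV Q k V n) atTop (𝓝 1) := by
    refine ratio_one_of_bdd (C := |(∑ p ∈ range N, ∏ i ∈ Ico p (p + k), (ν i).real (TV B V p i)) -
      ∑ p ∈ range N, (if 1 ≤ p ∧ V p then wt Q k p else 0)|) ?_ hw
    filter_upwards [eventually_ge_atTop N] with n hn
    rw [← sum_weightV, ← sum_range_add_sum_Ico _ (by omega : N ≤ n + 1),
      ← sum_range_add_sum_Ico _ (by omega : N ≤ n + 1)]
    have e : ∑ p ∈ Ico N (n + 1), ∏ i ∈ Ico p (p + k), (ν i).real (TV B V p i) =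
        ∑ p ∈ Ico N (n + 1), (if 1 ≤ p ∧ V p then wt Q k p else 0) := by
      apply sum_congr rfl
      intro p hp
      exact prob_TV ν hk B V p Q N hN (mem_Ico.1 hp).1
    rw [e, add_sub_add_right_eq_sub]
  have h2 := tendsto_of_ratio_one h1 hw
  have h3 : Tendsto (fun n => ∑ p ∈ range n, ∏ i ∈ Ico p (p + k), (ν i).real (TV B V p i))
      atTop atTop := (tendsto_add_atTop_iff_nat 1).1 h2
  filter_upwards [ev_lln ν (TV B V) k h3] with ω hω
  have h4 := (tendsto_add_atTop_iff_nat 1).2 hω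
  simp only [sum_ind_TV hk] at h4
  exact ratio_trans h4 h1 h2

/-- Cesàro: weights multiplied by a null sequence are negligible -/
theorem cesaro_zero (w η : ℕ → ℝ) (hw : ∀ p, 0 ≤ w p) (hη0 : ∀ p, 0 ≤ η p)
    (hη : Tendsto η atTop (𝓝 0))
    (hW : Tendsto (fun n => ∑ p ∈ Icc 1 n, w p) atTop atTop) :
    Tendsto (fun n => (∑ p ∈ Icc 1 n, η p * w p) / ∑ p ∈ Icc 1 n, w p) atTop (𝓝 0) := by
  rw [Metric.tendsto_atTop]
  intro ε hε
  obtain ⟨N, hN⟩ := eventually_atTop.1 (hη.eventually (gt_mem_nhds (half_pos hε)))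
  set C := ∑ p ∈ Icc 1 N, η p * w p with hC
  have hle : ∀ n, ∑ p ∈ Icc 1 n, η p * w p ≤ C + ε / 2 * ∑ p ∈ Icc 1 n, w p := by
    intro n
    rw [hC, mul_sum]
    rw [← sum_filter_add_sum_filter_not (Icc 1 n) (fun p => p ≤ N)]
    apply add_le_add
    · apply sum_le_sum_of_subset_of_nonneg
      · intro p hp
        rw [mem_filter, mem_Icc] at hp
        rw [mem_Icc]
        exact ⟨hp.1.1, hp.2⟩
      · intro p _ _
        exact mul_nonneg (hη0 p) (hw p)
    · calc ∑ p ∈ (Icc 1 n).filter (fun p => ¬ p ≤ N), η p * w p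
          ≤ ∑ p ∈ (Icc 1 n).filter (fun p => ¬ p ≤ N), ε / 2 * w p := by
            apply sum_le_sum
            intro p hp
            rw [mem_filter] at hp
            exact mul_le_mul_of_nonneg_right (hN p (by omega)).le (hw p)
        _ ≤ _ := by
            apply sum_le_sum_of_subset_of_nonneg (filter_subset _ _)
            intro p _ _
            have := hw p
            positivity
  obtain ⟨M, hM⟩ := eventually_atTop.1 (hW.eventually_gt_atTop (2 * C / ε + 1))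
  refine ⟨M, fun n hn => ?_⟩
  have hC0 : 0 ≤ C := sum_nonneg fun p _ => mul_nonneg (hη0 p) (hw p)
  have h1 := hM n hn
  have hpos : 0 < ∑ p ∈ Icc 1 n, w p := lt_trans (by positivity) h1
  have hnn : 0 ≤ ∑ p ∈ Icc 1 n, η p * w p := sum_nonneg fun p _ => mul_nonneg (hη0 p) (hw p)
  rw [Real.dist_eq, sub_zero, abs_of_nonneg (by positivity), div_lt_iff₀ hpos]
  have h2 := hle n
  have h3 : C < ε / 2 * ∑ p ∈ Icc 1 n, w p := by
    have : 2 * C / ε < ∑ p ∈ Icc 1 n, w p := by linarith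
    rw [div_lt_iff₀ hε] at this
    linarith
  linarith

end Pool.Agent.V11309.SetLln
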