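import Mathlib
import Pool.Agent.V11309.SetLln
import Pool.Agent.V11309.EraseNormal

/-! The basic sequence for the set of Q-normal numbers failing normality along all progressions. -/

set_option autoImplicit false

namespace Pool.Agent.V11309.BBase

open Filter Topology Finset
open Pool.Agent.V11309.Cantor Pool.Agent.V11309.SetLln Pool.Agent.V11309.Erase

/-- the modulus of stretch `i` -/
def K (i : ℕ) : ℕ := i.unpair.1 / 2 + 2
/-- the distinguished residue of stretch `i` -/
def R (i : ℕ) : ℕ := i.unpair.1 % 2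
/-- small value -/
def a (i : ℕ) : ℕ := (2 * i + 2).factorial
/-- large value -/
def c (i : ℕ) : ℕ := (2 * i + 3).factorial
/-- starting points of the stretches -/
def N : ℕ → ℕ
  | 0 => 0
  | i + 1 => N i + 64 * (i + 3) * (N i + 4 * (i + 3)) * c i ^ (i + 3)

lemma K_ge (i : ℕ) : 2 ≤ K i := by unfold K; omega
lemma K_le (i : ℕ) : K i ≤ i + 2 := by
  unfold K; have := Nat.unpair_left_le i; omega
lemma R_lt (i : ℕ) : R i < 2 := by unfold R; omega
lemma c_eq (i : ℕ) : c i = (2 * i + 3) * a i := by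
  unfold c a; rw [show 2 * i + 3 = (2 * i + 2) + 1 by ring, Nat.factorial_succ]
lemma a_pos (i : ℕ) : 1 ≤ a i := Nat.factorial_pos _
lemma c_pos (i : ℕ) : 1 ≤ c i := Nat.factorial_pos _
lemma a_ge (i : ℕ) : 2 * i + 2 ≤ a i := Nat.self_le_factorial _
lemma a_le_c (i : ℕ) : a i ≤ c i := Nat.factorial_le (by omega)

lemma N_step (i : ℕ) : N i + 64 ≤ N (i + 1) := by
  rw [N]
  have h1 : 1 ≤ c i ^ (i + 3) := Nat.one_le_pow _ _ (c_pos i)
  have h2 : 1 ≤ (i + 3) * (N i + 4 * (i + 3)) := by nlinarith
  have h3 : 64 * 1 * 1 ≤ 64 * ((i + 3) * (N i + 4 * (i + 3))) * c i ^ (i + 3) :=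
    Nat.mul_le_mul (Nat.mul_le_mul_left _ h2) h1
  have e : 64 * ((i + 3) * (N i + 4 * (i + 3))) = 64 * (i + 3) * (N i + 4 * (i + 3)) := by ring
  rw [e] at h3
  omega

lemma N_strict : StrictMono N := strictMono_nat_of_lt_succ fun i => by have := N_step i; omega

lemma N_ge (i : ℕ) : i ≤ N i := N_strict.le_apply

/-- index of the stretch containing `p` -/
def idx (p : ℕ) : ℕ := Nat.findGreatest (fun i => N i ≤ p) p

lemma idx_le (p : ℕ) : N (idx p) ≤ p := by
  unfold idx
  exact Nat.findGreatest_spec (P := fun i => N i ≤ p) (Nat.zero_le p) (by simp [N])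

lemma lt_idx (p : ℕ) : p < N (idx p + 1) := by
  by_contra h
  push Not at h
  have h1 : idx p + 1 ≤ p := le_trans (N_ge _) h
  exact Nat.findGreatest_is_greatest (P := fun i => N i ≤ p) (n := p) (k := idx p + 1)
    (by unfold idx; omega) h1 h

lemma idx_eq {i p : ℕ} (h1 : N i ≤ p) (h2 : p < N (i + 1)) : idx p = i := by
  have h3 := idx_le p
  have h4 := lt_idx p
  have h5 : N (idx p) < N (i + 1) := by omega
  have h6 : N i < N (idx p + 1) := by omega
  have h7 := N_strict.lt_iff_lt.1 h5
  have h8 := N_strict.lt_iff_lt.1 h6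
  omega

/-- the basic sequence -/
def Q (p : ℕ) : ℕ :=
  if (p + 2 * K (idx p) - R (idx p)) % (2 * K (idx p)) < K (idx p) then a (idx p) else c (idx p)

lemma Q_ge (p : ℕ) : a (idx p) ≤ Q p := by
  unfold Q
  split_ifs
  · exact le_rfl
  · exact a_le_c _

lemma Q_le (p : ℕ) : Q p ≤ c (idx p) := by
  unfold Q
  split_ifs
  · exact a_le_c _
  · exact le_rfl

lemma two_le_Q (p : ℕ) : 2 ≤ Q p := by
  have h1 := Q_ge p
  have h2 := a_ge (idx p)
  omega

lemma idx_tendsto : Tendsto idx atTop atTop := by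
  refine tendsto_atTop_atTop.2 fun b => ⟨N b, fun p hp => ?_⟩
  have h := lt_idx p
  have : N b < N (idx p + 1) := by omega
  have := N_strict.lt_iff_lt.1 this
  omega

lemma Q_tendsto : Tendsto Q atTop atTop := by
  refine tendsto_atTop_mono (fun p => ?_) idx_tendsto
  have h1 := Q_ge p
  have h2 := a_ge (idx p)
  omega

/-- lower bound for weights at the ends of the stretches -/
lemma weight_lower (k m r i : ℕ) (hm : 1 ≤ m) (hr : r < m) (hki : k ≤ i + 2) (hmi : m ≤ i + 2) :
    32 * ((N i : ℝ) + 4 * (i + 3)) ≤ weight Q k m r (N (i + 1)) := by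
  set X := N i + 4 * (i + 3) with hX
  set T := 32 * X * c i ^ (i + 2) with hT
  have hc1 : 1 ≤ c i := c_pos i
  have hc2 : 1 ≤ c i ^ (i + 2) := Nat.one_le_pow _ _ hc1
  have hlen : m * T + m + 1 + k ≤ 64 * (i + 3) * X * c i ^ (i + 3) := by
    have h1 : c i ^ (i + 2) ≤ c i ^ (i + 3) := Nat.pow_le_pow_right hc1 (by omega)
    have h2 : m * T ≤ 32 * (i + 3) * X * c i ^ (i + 3) := by
      calc m * T = 32 * m * X * c i ^ (i + 2) := by rw [hT]; ring
        _ ≤ 32 * (i + 3) * X * c i ^ (i + 3) := by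
          apply Nat.mul_le_mul _ h1
          apply Nat.mul_le_mul_right
          omega
    have h3 : m + 1 + k ≤ 32 * (i + 3) * X * c i ^ (i + 3) := by
      have h4 : 1 ≤ c i ^ (i + 3) := Nat.one_le_pow _ _ hc1
      have h5 : 1 ≤ X := by omega
      calc m + 1 + k ≤ 32 * (i + 3) * 1 * 1 := by omega
        _ ≤ _ := Nat.mul_le_mul (Nat.mul_le_mul_left _ h5) h4
    have h6 : 64 * (i + 3) * X * c i ^ (i + 3) = 32 * (i + 3) * X * c i ^ (i + 3) +
      32 * (i + 3) * X * c i ^ (i + 3) := by ring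
    omega
  have hN1 : N (i + 1) = N i + 64 * (i + 3) * X * c i ^ (i + 3) := by rw [N]
  obtain ⟨ρ, hρ, hρr⟩ : ∃ ρ, ρ < m ∧ (N i + 1 + ρ) % m = r := by
    refine ⟨(r + (m - (N i + 1) % m)) % m, Nat.mod_lt _ hm, ?_⟩
    have h1 : (N i + 1) % m < m := Nat.mod_lt _ hm
    rw [Nat.add_mod, Nat.mod_mod, ← Nat.add_mod]
    have e : (N i + 1) + (r + (m - (N i + 1) % m)) = r + m * ((N i + 1) / m + 1) := by
      have h2 := Nat.mod_add_div (N i + 1) m
      have : m * ((N i + 1) / m + 1) = m * ((N i + 1) / m) + m := by ring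
      rw [this]; omega
    rw [e, Nat.add_mul_mod_self_left, Nat.mod_eq_of_lt hr]
  set g : ℕ → ℕ := fun t => N i + 1 + ρ + m * t with hg
  have hginj : Function.Injective g := by
    intro x y hxy
    simp only [hg] at hxy
    have : m * x = m * y := by omega
    exact Nat.eq_of_mul_eq_mul_left hm this
  have hcr : (0 : ℝ) < c i := by exact_mod_cast hc1
  have hbd : ∀ t < T, g t + k ≤ N (i + 1) := by
    intro t ht
    simp only [hg]
    have : m * t + m ≤ m * T := by
      calc m * t + m = m * (t + 1) := by ring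
        _ ≤ _ := Nat.mul_le_mul_left _ ht
    omega
  have hval : ∀ t ∈ range T, (((c i : ℝ) ^ (i + 2))⁻¹ : ℝ) ≤
      (∏ j ∈ range k, (Q (g t + j) : ℝ))⁻¹ := by
    intro t ht
    rw [mem_range] at ht
    have hpos : 0 < ∏ j ∈ range k, (Q (g t + j) : ℝ) := by
      apply prod_pos
      intro j _
      have := two_le_Q (g t + j)
      exact_mod_cast (by omega : 0 < Q (g t + j))
    apply inv_anti₀ hpos
    calc ∏ j ∈ range k, (Q (g t + j) : ℝ) ≤ ∏ j ∈ range k, (c i : ℝ) := by
          apply prod_le_prod (fun _ _ => by positivity)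
          intro j hj
          rw [mem_range] at hj
          have h1 := hbd t ht
          have h2 : idx (g t + j) = i := idx_eq (by simp only [hg]; omega) (by omega)
          have h3 := Q_le (g t + j)
          rw [h2] at h3
          exact_mod_cast h3
      _ = (c i : ℝ) ^ k := by rw [prod_const, card_range]
      _ ≤ (c i : ℝ) ^ (i + 2) := pow_le_pow_right₀ (by exact_mod_cast hc1) hki
  calc 32 * ((N i : ℝ) + 4 * (i + 3)) = T * ((c i : ℝ) ^ (i + 2))⁻¹ := by
        rw [hT, hX]; push_cast; field_simp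
    _ = ∑ t ∈ range T, (((c i : ℝ) ^ (i + 2))⁻¹ : ℝ) := by
        rw [sum_const, card_range, nsmul_eq_mul]
    _ ≤ ∑ t ∈ range T, (∏ j ∈ range k, (Q (g t + j) : ℝ))⁻¹ := sum_le_sum hval
    _ = ∑ p ∈ (range T).image g, (∏ j ∈ range k, (Q (p + j) : ℝ))⁻¹ :=
        (sum_image (f := fun p => (∏ j ∈ range k, (Q (p + j) : ℝ))⁻¹) (fun x _ y _ h => hginj h)).symm
    _ ≤ weight Q k m r (N (i + 1)) := by
        unfold weight
        apply sum_le_sum_of_subset_of_nonneg
        · intro p hp
          rw [mem_image] at hp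
          obtain ⟨t, ht, rfl⟩ := hp
          rw [mem_range] at ht
          have h1 := hbd t ht
          rw [mem_filter, mem_Icc]
          refine ⟨⟨by simp only [hg]; omega, by omega⟩, ?_⟩
          simp only [hg]
          rw [Nat.add_mul_mod_self_left, hρr]
        · intro _ _ _; positivity

lemma weight_mono' (k m r : ℕ) : Monotone (weight Q k m r) := by
  intro x y hxy
  unfold weight
  apply sum_le_sum_of_subset_of_nonneg
  · exact filter_subset_filter _ (Icc_subset_Icc le_rfl hxy)
  · intro i _ _; positivity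

theorem divergentI : FullyDivergentI Q := by
  intro k m r hk hm hr
  refine tendsto_atTop_atTop_of_monotone (weight_mono' k m r) fun b => ?_
  obtain ⟨B, hB⟩ := exists_nat_ge b
  refine ⟨N (B + k + m + 1), hB.trans ?_⟩
  have h := weight_lower k m r (B + k + m) hm hr (by omega) (by omega)
  have h2 : (B : ℝ) ≤ N (B + k + m) := by
    exact_mod_cast le_trans (by omega) (N_ge (B + k + m))
  have h3 : (0 : ℝ) ≤ ((B + k + m : ℕ) : ℝ) := by positivity
  linarith

/-- the runs to be erased -/
def LL (t s : ℕ) : Prop :=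
  ∃ i, K i = t ∧ N i + 2 * t ≤ s ∧ s + 2 * t ≤ N (i + 1) ∧ s % t ≠ R i

/-- the domination factor -/
noncomputable def η (p : ℕ) : ℝ := 1 / (2 * (idx p : ℝ) + 3)

lemma η_nonneg (p : ℕ) : 0 ≤ η p := by unfold η; positivity

lemma η_tendsto : Tendsto η atTop (𝓝 0) := by
  unfold η
  have h1 : Tendsto (fun p => (idx p : ℝ)) atTop atTop :=
    tendsto_natCast_atTop_atTop.comp idx_tendsto
  have h2 : Tendsto (fun p => 2 * (idx p : ℝ) + 3) atTop atTop :=
    tendsto_atTop_add_const_right _ _ (h1.const_mul_atTop (by norm_num))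
  exact h2.const_div_atTop 1

/-- the offset within the period -/
def off (k R s : ℕ) : ℕ := (s + 2 * k - R) % (2 * k)

lemma dominated (k s : ℕ) (h : LL k s) :
    ∃ d p, d < 2 * k ∧ s = p + d ∧ 1 ≤ p ∧ wt Q k s ≤ η p * wt Q k p := by
  obtain ⟨i, hK, h1, h2, h3⟩ := h
  have hk2 : 2 ≤ k := by rw [← hK]; exact K_ge i
  have hR := R_lt i
  set o := off k (R i) s with ho
  have ho2 : o < 2 * k := Nat.mod_lt _ (by omega)
  -- `s - o ≡ R mod 2k`
  have hdiv := Nat.mod_add_div (s + 2 * k - R i) (2 * k)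
  change off k (R i) s + 2 * k * ((s + 2 * k - R i) / (2 * k)) = s + 2 * k - R i at hdiv
  rw [← ho] at hdiv
  set D := (s + 2 * k - R i) / (2 * k) with hD
  have hmodk : o % k ≠ 0 := by
    intro hz
    apply h3
    have e1 : s + 2 * k = R i + (o + 2 * k * D) := by omega
    have e2 : o = k * (o / k) := by have := Nat.mod_add_div o k; omega
    have e3 : s + k * 2 = R i + k * (o / k + 2 * D) := by
      calc s + k * 2 = s + 2 * k := by ring
        _ = R i + (o + 2 * k * D) := e1
        _ = R i + (k * (o / k) + 2 * k * D) := by rw [← e2]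
        _ = _ := by ring
    have e4 : (s + k * 2) % k = (R i + k * (o / k + 2 * D)) % k := by rw [e3]
    rw [Nat.add_mul_mod_self_left, Nat.add_mul_mod_self_left, Nat.mod_eq_of_lt (by omega : R i < k)]
      at e4
    exact e4
  have ho0 : 1 ≤ o := by
    rcases Nat.eq_zero_or_pos o with h | h
    · rw [h] at hmodk; simp at hmodk
    · exact h
  refine ⟨o, s - o, ho2, by omega, by omega, ?_⟩
  -- offsets of positions
  have hoff : ∀ x, N i ≤ x → x < N (i + 1) → Q x =
      if (x + 2 * k - R i) % (2 * k) < k then a i else c i := by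
    intro x hx1 hx2
    unfold Q
    rw [idx_eq hx1 hx2, hK]
  have hp : ∀ j < k, Q (s - o + j) = a i := by
    intro j hj
    rw [hoff _ (by omega) (by omega), if_pos]
    have e : s - o + j + 2 * k - R i = j + 2 * k * D := by omega
    rw [e, Nat.add_mul_mod_self_left, Nat.mod_eq_of_lt (by omega)]
    exact hj
  have hs1 : ∃ j0 < k, Q (s + j0) = c i := by
    by_cases hok : k ≤ o
    · refine ⟨0, by omega, ?_⟩
      rw [hoff _ (by omega) (by omega), if_neg]
      have e : s + 0 + 2 * k - R i = o + 2 * k * D := by omega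
      rw [e, Nat.add_mul_mod_self_left, Nat.mod_eq_of_lt (by omega)]
      omega
    · refine ⟨k - o, by omega, ?_⟩
      rw [hoff _ (by omega) (by omega), if_neg]
      have e : s + (k - o) + 2 * k - R i = k + 2 * k * D := by omega
      rw [e, Nat.add_mul_mod_self_left, Nat.mod_eq_of_lt (by omega)]
      omega
  obtain ⟨j0, hj0, hj0c⟩ := hs1
  have hidx : idx (s - o) = i := idx_eq (by omega) (by omega)
  have hsge : ∀ j < k, (a i : ℝ) ≤ Q (s + j) := by
    intro j hj
    have := Q_ge (s + j)
    rw [idx_eq (by omega : N i ≤ s + j) (by omega)] at this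
    exact_mod_cast this
  have ha : (0 : ℝ) < a i := by exact_mod_cast a_pos i
  have hc : (c i : ℝ) = (2 * i + 3) * a i := by exact_mod_cast c_eq i
  unfold wt η
  rw [hidx]
  have e1 : ∏ j ∈ range k, (Q (s - o + j) : ℝ) = (a i : ℝ) ^ k := by
    calc ∏ j ∈ range k, (Q (s - o + j) : ℝ) = ∏ j ∈ range k, (a i : ℝ) := by
          apply prod_congr rfl
          intro j hj
          rw [hp j (mem_range.1 hj)]
      _ = _ := by rw [prod_const, card_range]
  have e2 : (2 * (i : ℝ) + 3) * (a i : ℝ) ^ k ≤ ∏ j ∈ range k, (Q (s + j) : ℝ) := by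
    rw [← mul_prod_erase (range k) _ (mem_range.2 hj0), hj0c, hc]
    calc (2 * (i : ℝ) + 3) * (a i : ℝ) ^ k = (2 * i + 3) * a i * (a i : ℝ) ^ (k - 1) := by
          rw [mul_assoc, ← pow_succ', Nat.sub_add_cancel (by omega)]
      _ = (2 * i + 3) * a i * ∏ j ∈ (range k).erase j0, (a i : ℝ) := by
          rw [prod_const, card_erase_of_mem (mem_range.2 hj0), card_range]
      _ ≤ _ := by
          apply mul_le_mul_of_nonneg_left _ (by positivity)
          apply prod_le_prod (fun _ _ => ha.le)
          intro j hj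
          exact hsge j (mem_range.1 (mem_of_mem_erase hj))
  rw [e1, one_div, ← mul_inv]
  exact inv_anti₀ (by positivity) e2

open Classical in
lemma LL_weight (k n : ℕ) :
    weightV Q k (LL k) n ≤ 2 * k * ∑ p ∈ Icc 1 n, η p * wt Q k p := by
  unfold weightV
  choose! d p hd hs hp hle using fun s (h : LL k s) => dominated k s h
  have hinj : Set.InjOn (fun s => (d s, p s)) ((Icc 1 n).filter (LL k) : Finset ℕ) := by
    intro x hx y hy hxy
    simp only [coe_filter, Set.mem_ofPred_eq] at hx hy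
    have h1 := hs x hx.2
    have h2 := hs y hy.2
    simp only [Prod.mk.injEq] at hxy
    omega
  calc ∑ s ∈ (Icc 1 n).filter (LL k), wt Q k s
      ≤ ∑ s ∈ (Icc 1 n).filter (LL k), η (p s) * wt Q k (p s) := by
        apply sum_le_sum
        intro s hs'
        exact hle s (mem_filter.1 hs').2
    _ = ∑ y ∈ ((Icc 1 n).filter (LL k)).image (fun s => (d s, p s)), η y.2 * wt Q k y.2 := by
        rw [sum_image hinj]
    _ ≤ ∑ y ∈ range (2 * k) ×ˢ Icc 1 n, η y.2 * wt Q k y.2 := by
        apply sum_le_sum_of_subset_of_nonneg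
        · intro y hy
          rw [mem_image] at hy
          obtain ⟨s, hs1, rfl⟩ := hy
          rw [mem_filter, mem_Icc] at hs1
          rw [mem_product, mem_range, mem_Icc]
          have h1 := hs s hs1.2
          exact ⟨hd s hs1.2, hp s hs1.2, by simp only; omega⟩
        · intro y _ _
          exact mul_nonneg (η_nonneg _) (wt_nonneg _ _ _)
    _ = _ := by
        rw [sum_product]
        simp

end Pool.Agent.V11309.BBase
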