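import Mathlib
import Pool.Agent.V11309.CantorDef

/-! The basic sequence of the counterexample. -/

set_option autoImplicit false

namespace Pool.Agent.V11309.ABase

open Filter Topology Finset Pool.Agent.V11309.Cantor

/-- positions in the runs of small terms -/
def Run (n : ℕ) : Prop := n - 2 ^ Nat.log 2 n < 2 ^ (Nat.log 2 n / 2)

instance : DecidablePred Run := fun n => by unfold Run; infer_instance

/-- positions of the huge terms -/
def Huge (n : ℕ) : Prop := (n % 4 = 3 ∨ n % 4 = 0) ∧ ¬ Run n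

instance : DecidablePred Huge := fun n => by unfold Huge; infer_instance

def qv (n p : ℕ) : ℕ := if Huge n then (2 ^ n * p) ^ n else Nat.log 2 n + 2

def P : ℕ → ℕ
  | 0 => 1
  | n + 1 => P n * qv (n + 1) (P n)

/-- the basic sequence -/
def Q (n : ℕ) : ℕ := qv n (P (n - 1))

lemma prod_eq (n : ℕ) : ∏ i ∈ Icc 1 n, Q i = P n := by
  induction n with
  | zero => simp [P]
  | succ n ih => rw [Finset.prod_Icc_succ_top (by omega), ih, P]; rfl

lemma not_huge_zero : ¬ Huge 0 := by
  intro h; exact h.2 (by unfold Run; simp)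

lemma P_pos (n : ℕ) : 1 ≤ P n := by
  induction n with
  | zero => simp [P]
  | succ n ih =>
    rw [P]
    have : 1 ≤ qv (n + 1) (P n) := by
      unfold qv
      split_ifs
      · exact Nat.one_le_pow _ _ (by positivity)
      · omega
    exact Nat.one_le_iff_ne_zero.2 (by positivity)

lemma Q_huge {n : ℕ} (h : Huge n) : Q n = (2 ^ n * P (n - 1)) ^ n := by
  rw [Q, qv, if_pos h]

lemma Q_small {n : ℕ} (h : ¬ Huge n) : Q n = Nat.log 2 n + 2 := by
  rw [Q, qv, if_neg h]

lemma huge_ge {n : ℕ} (h : Huge n) : 3 ≤ n := by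
  rcases h with ⟨h1, h2⟩
  by_contra hlt
  have : n = 0 := by omega
  subst this
  exact h2 (by unfold Run; simp)

lemma huge_lower {n : ℕ} (h : Huge n) : 2 ^ n ≤ Q n := by
  rw [Q_huge h]
  have h3 := huge_ge h
  have h1 : 1 ≤ P (n - 1) := P_pos _
  calc 2 ^ n ≤ 2 ^ n * P (n - 1) := Nat.le_mul_of_pos_right _ h1
    _ = (2 ^ n * P (n - 1)) ^ 1 := (pow_one _).symm
    _ ≤ _ := Nat.pow_le_pow_right (by positivity) (by omega)

lemma Q_lower (n : ℕ) : Nat.log 2 n + 2 ≤ Q n := by
  by_cases h : Huge n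
  · refine le_trans ?_ (huge_lower h)
    have h3 := huge_ge h
    have h1 : Nat.log 2 n ≤ n := Nat.log_le_self 2 n
    have h2 : n + 2 ≤ 2 ^ n := by
      clear h h1
      induction n, h3 using Nat.le_induction with
      | base => norm_num
      | succ n hn ih => rw [pow_succ]; omega
    omega
  · rw [Q_small h]

lemma two_le_Q (n : ℕ) : 2 ≤ Q n := le_trans (by omega) (Q_lower n)

lemma Q_tendsto : Tendsto Q atTop atTop := by
  refine tendsto_atTop_mono (fun n => (by have := Q_lower n; omega : Nat.log 2 n ≤ Q n)) ?_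
  refine tendsto_atTop_atTop.2 fun b => ⟨2 ^ b, fun n hn => ?_⟩
  exact Nat.le_log_of_pow_le (by norm_num) hn

/-- powers of `2` win against polynomials -/
lemma exp_wins (A k : ℕ) (N : ℕ) : ∃ u, N ≤ u ∧ A * (2 * u + 2) ^ k ≤ 2 ^ u := by
  have h := tendsto_pow_const_div_const_pow_of_one_lt k (r := (2 : ℝ)) (by norm_num)
  have hpos : (0 : ℝ) < 1 / (2 * 2 ^ k * (A + 1)) := by positivity
  have h2 := (h.eventually (gt_mem_nhds hpos)).and (eventually_ge_atTop (N + 1))
  obtain ⟨v, hv, hv1⟩ := h2.exists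
  obtain ⟨u, rfl⟩ : ∃ u, v = u + 1 := ⟨v - 1, by omega⟩
  refine ⟨u, by omega, ?_⟩
  rw [div_lt_div_iff₀ (by positivity) (by positivity)] at hv
  have e : ((2 * u + 2 : ℕ) : ℝ) = 2 * ((u + 1 : ℕ) : ℝ) := by push_cast; ring
  have h3 : ((A * (2 * u + 2) ^ k : ℕ) : ℝ) ≤ ((2 ^ u : ℕ) : ℝ) := by
    push_cast at e hv ⊢
    rw [e, mul_pow]
    rw [pow_succ] at hv
    have hx : (0 : ℝ) ≤ ((u : ℝ) + 1) ^ k := by positivity
    have hy : (0 : ℝ) ≤ (2 : ℝ) ^ k := by positivity
    nlinarith [mul_nonneg hx hy]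
  exact_mod_cast h3

lemma log_of_run (u d : ℕ) (hd : d < 2 ^ u) : Nat.log 2 (2 ^ (2 * u) + d) = 2 * u := by
  rw [Nat.log_eq_iff (Or.inr ⟨by norm_num, by positivity⟩)]
  refine ⟨by omega, ?_⟩
  have : 2 ^ u ≤ 2 ^ (2 * u) := Nat.pow_le_pow_right (by norm_num) (by omega)
  rw [pow_succ]; omega

lemma Q_run (u d : ℕ) (hd : d < 2 ^ u) : Q (2 ^ (2 * u) + d) = 2 * u + 2 := by
  rw [Q_small, log_of_run u d hd]
  intro h
  apply h.2
  unfold Run
  rw [log_of_run u d hd]
  have : 2 * u / 2 = u := by omega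
  rw [this]; omega

lemma weight_mono (Q : ℕ → ℕ) (k m r : ℕ) : Monotone (weight Q k m r) := by
  intro a b hab
  unfold weight
  apply sum_le_sum_of_subset_of_nonneg
  · exact filter_subset_filter _ (Icc_subset_Icc le_rfl hab)
  · intro i _ _; positivity

theorem divergentI : FullyDivergentI Q := by
  intro k m r hk hm hr
  refine tendsto_atTop_atTop_of_monotone (weight_mono Q k m r) fun b => ?_
  obtain ⟨C, hC⟩ := exists_nat_ge b
  obtain ⟨u, -, hu⟩ := exp_wins (m * (C + 1) + k) k 0
  set X := (2 * u + 2) ^ k with hX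
  have hX1 : 1 ≤ X := Nat.one_le_pow _ _ (by omega)
  have hu2 : m * (C * X + 1) + k ≤ 2 ^ u := by
    refine le_trans ?_ hu
    have h1 : k ≤ k * X := Nat.le_mul_of_pos_right _ hX1
    have h2 : m ≤ m * X := Nat.le_mul_of_pos_right _ hX1
    calc m * (C * X + 1) + k = m * C * X + m + k := by ring
      _ ≤ m * C * X + m * X + k * X := by omega
      _ = _ := by ring
  -- the residue
  set N := 2 ^ (2 * u) with hN
  obtain ⟨ρ, hρ, hρr⟩ : ∃ ρ, ρ < m ∧ (N + ρ) % m = r := by
    refine ⟨(r + (m - N % m)) % m, Nat.mod_lt _ hm, ?_⟩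
    have h1 : N % m < m := Nat.mod_lt _ hm
    rw [Nat.add_mod, Nat.mod_mod, ← Nat.add_mod, ← Nat.mod_add_div N m]
    have e : N % m + m * (N / m) + (r + (m - N % m)) = r + m * (N / m + 1) := by
      have : m * (N / m + 1) = m * (N / m) + m := by ring
      rw [this]; omega
    rw [Nat.mod_add_div] at *
    rw [e, Nat.add_mul_mod_self_left, Nat.mod_eq_of_lt hr]
  refine ⟨N + 2 ^ u, hC.trans ?_⟩
  set f : ℕ → ℝ := fun p => (∏ j ∈ range k, (Q (p + j) : ℝ))⁻¹ with hf
  set g : ℕ → ℕ := fun t => N + ρ + m * t with hg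
  have hginj : Function.Injective g := by
    intro a b hab
    simp only [hg] at hab
    have : m * a = m * b := by omega
    exact Nat.eq_of_mul_eq_mul_left hm this
  have hval : ∀ t ∈ range (C * X), f (g t) = ((X : ℕ) : ℝ)⁻¹ := by
    intro t ht
    rw [mem_range] at ht
    simp only [hf, hg]
    congr 1
    have : ∀ j ∈ range k, ((Q (N + ρ + m * t + j) : ℕ) : ℝ) = ((2 * u + 2 : ℕ) : ℝ) := by
      intro j hj
      rw [mem_range] at hj
      have h1 : m * t + m ≤ m * (C * X) := by
        calc m * t + m = m * (t + 1) := by ring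
          _ ≤ _ := Nat.mul_le_mul_left _ ht
      have h2 : m * (C * X + 1) = m * (C * X) + m := by ring
      have e : N + ρ + m * t + j = 2 ^ (2 * u) + (ρ + m * t + j) := by rw [← hN]; ring
      rw [e, Q_run u _ (by omega)]
    rw [prod_congr rfl this, prod_const, card_range, hX]
    push_cast; rfl
  calc (C : ℝ) = ∑ t ∈ range (C * X), f (g t) := by
        rw [sum_congr rfl hval, sum_const, card_range, nsmul_eq_mul]
        have : ((X : ℕ) : ℝ) ≠ 0 := by positivity
        push_cast; field_simp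
    _ = ∑ p ∈ (range (C * X)).image g, f p := (sum_image (fun a _ b _ h => hginj h)).symm
    _ ≤ weight Q k m r (N + 2 ^ u) := by
        unfold weight
        apply sum_le_sum_of_subset_of_nonneg
        · intro p hp
          rw [mem_image] at hp
          obtain ⟨t, ht, rfl⟩ := hp
          rw [mem_range] at ht
          rw [mem_filter, mem_Icc]
          have h1 : m * t + m ≤ m * (C * X) := by
            calc m * t + m = m * (t + 1) := by ring
              _ ≤ _ := Nat.mul_le_mul_left _ ht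
          have h2 : m * (C * X + 1) = m * (C * X) + m := by ring
          have h3 : 1 ≤ N := Nat.one_le_two_pow
          simp only [hg]
          refine ⟨⟨by omega, by omega⟩, ?_⟩
          rw [Nat.add_mul_mod_self_left, hρr]
        · intro i _ _; positivity

end Pool.Agent.V11309.ABase
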