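import Mathlib

/-! A limsup set of quickly shrinking families of intervals has Hausdorff dimension `0`. -/

set_option autoImplicit false

namespace Pool.Agent.V11309.DimZero

open Filter Topology Finset MeasureTheory
open scoped ENNReal NNReal

theorem dimH_limsup_zero (Pc : ℕ → ℕ) (l : ℕ → ℝ) (a : ℕ → ℕ → ℝ) (S : Set ℝ)
    (hS : ∀ x ∈ S, ∀ N, ∃ j, N ≤ j ∧ ∃ i < Pc j, x ∈ Set.Icc (a j i) (a j i + l j))
    (hl0 : ∀ j, 0 ≤ l j)
    (hl : ∀ s : ℝ, 0 < s → ∃ N, ∀ j, N ≤ j → (Pc j : ℝ) * l j ^ s ≤ (1 / 2) ^ j) :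
    dimH S = 0 := by
  have key : ∀ s : ℝ≥0, 0 < s → dimH S ≤ s := by
    intro s hs
    apply dimH_le_of_hausdorffMeasure_ne_top
    obtain ⟨N0, hN0⟩ := hl s (by exact_mod_cast hs)
    obtain ⟨N1, hN1⟩ := hl 1 one_pos
    have hle := Measure.hausdorffMeasure_le_liminf_tsum (X := ℝ) (β := ℕ)
      (ι := fun N => Σ j : ℕ, Fin (Pc (j + N))) (s : ℝ) S (l := atTop)
      (fun N => ENNReal.ofReal ((1 / 2 : ℝ) ^ N)) ?_
      (fun N p => Set.Icc (a (p.1 + N) p.2) (a (p.1 + N) p.2 + l (p.1 + N))) ?_ ?_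
    · have hbd : ∀ᶠ N in (atTop : Filter ℕ),
          (∑' (i : Σ j : ℕ, Fin (Pc (j + N))),
            Metric.ediam (Set.Icc (a (i.1 + N) i.2) (a (i.1 + N) i.2 + l (i.1 + N))) ^ (s : ℝ))
            ≤ 2 := by
        filter_upwards [eventually_ge_atTop N0] with N hN
        rw [ENNReal.tsum_sigma' (fun i : Σ j : ℕ, Fin (Pc (j + N)) =>
          Metric.ediam (Set.Icc (a (i.1 + N) i.2) (a (i.1 + N) i.2 + l (i.1 + N))) ^ (s : ℝ))]
        calc ∑' (j : ℕ) (b : Fin (Pc (j + N))),
              Metric.ediam (Set.Icc (a (j + N) b) (a (j + N) b + l (j + N))) ^ (s : ℝ)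
            ≤ ∑' (j : ℕ), (1 / 2 : ℝ≥0∞) ^ j := by
              apply ENNReal.tsum_le_tsum
              intro j
              simp only [Real.ediam_Icc, add_sub_cancel_left]
              rw [tsum_fintype, Finset.sum_const, Finset.card_univ, Fintype.card_fin, nsmul_eq_mul]
              rw [ENNReal.ofReal_rpow_of_nonneg (hl0 _) (by positivity)]
              have h1 := hN0 (j + N) (by omega)
              have h2 : ((Pc (j + N) : ℕ) : ℝ≥0∞) = ENNReal.ofReal (Pc (j + N) : ℝ) := by
                rw [ENNReal.ofReal_natCast]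
              rw [h2, ← ENNReal.ofReal_mul (by positivity)]
              refine (ENNReal.ofReal_le_ofReal h1).trans ?_
              have h3 : ((1 : ℝ) / 2) ^ (j + N) ≤ (1 / 2) ^ j :=
                pow_le_pow_of_le_one (by norm_num) (by norm_num) (by omega)
              refine (ENNReal.ofReal_le_ofReal h3).trans ?_
              rw [ENNReal.ofReal_pow (by norm_num)]
              simp [ENNReal.ofReal_div_of_pos]
          _ = 2 := by
              rw [ENNReal.tsum_geometric]
              simp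
      have : liminf (fun N => ∑' (i : Σ j : ℕ, Fin (Pc (j + N))),
            Metric.ediam (Set.Icc (a (i.1 + N) i.2) (a (i.1 + N) i.2 + l (i.1 + N))) ^ (s : ℝ))
            atTop ≤ 2 := by
        refine (liminf_le_liminf hbd).trans ?_
        simp
      intro h
      rw [h] at hle
      exact absurd (hle.trans this) (by simp)
    · have : Tendsto (fun N : ℕ => (1 / 2 : ℝ) ^ N) atTop (𝓝 0) :=
        tendsto_pow_atTop_nhds_zero_of_lt_one (by norm_num) (by norm_num)
      have h2 := ENNReal.tendsto_ofReal this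
      simpa using h2
    · filter_upwards [eventually_ge_atTop N1] with N hN
      intro i
      rw [Real.ediam_Icc, add_sub_cancel_left]
      apply ENNReal.ofReal_le_ofReal
      have h1 := hN1 (i.1 + N) (by omega)
      rw [Real.rpow_one] at h1
      have h2 : 1 ≤ Pc (i.1 + N) := by
        have := i.2.2
        omega
      have h3 : (1 : ℝ) ≤ Pc (i.1 + N) := by exact_mod_cast h2
      have h4 : l (i.1 + N) ≤ Pc (i.1 + N) * l (i.1 + N) := le_mul_of_one_le_left (hl0 _) h3
      refine (h4.trans h1).trans ?_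
      exact pow_le_pow_of_le_one (by norm_num) (by norm_num) (by omega)
    · refine Eventually.of_forall fun N x hx => ?_
      obtain ⟨j, hj, i, hi, hxi⟩ := hS x hx N
      obtain ⟨t, rfl⟩ : ∃ t, j = t + N := ⟨j - N, by omega⟩
      rw [Set.mem_iUnion]
      exact ⟨⟨t, ⟨i, hi⟩⟩, hxi⟩
  refine le_antisymm ?_ bot_le
  refine ENNReal.le_of_forall_pos_le_add fun ε hε _ => ?_
  rw [zero_add]
  exact key ε hε

end Pool.Agent.V11309.DimZero
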