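import Mathlib

/-! A biased distribution on digits. -/

set_option autoImplicit false

namespace Pool.Agent.V11309.Biased

open Filter Topology Finset MeasureTheory
open scoped ENNReal NNReal

/-- the support: small digits and the upper half -/
def sup (q : ℕ) : Finset ℕ := range (Nat.sqrt q) ∪ Ico (q / 2) q

/-- the weights -/
noncomputable def w (q c : ℕ) : ℝ :=
  if c < Nat.sqrt q then 1 / q else ((q : ℝ) - Nat.sqrt q) / (q * ((q - q / 2 : ℕ) : ℝ))

/-- the biased distribution (a point mass for `q < 2`) -/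
noncomputable def biased (q : ℕ) : Measure ℕ :=
  if q < 2 then Measure.dirac 0 else ∑ c ∈ sup q, ENNReal.ofReal (w q c) • Measure.dirac c

lemma sqrt_le_half (q : ℕ) (hq : 2 ≤ q) : Nat.sqrt q ≤ q / 2 := by
  by_cases h : q < 4
  · have h1 : Nat.sqrt q < 2 := Nat.sqrt_lt.2 (by omega)
    omega
  · have h1 : Nat.sqrt q * Nat.sqrt q ≤ q := Nat.sqrt_le q
    rw [Nat.le_div_iff_mul_le (by norm_num)]
    have h2 : 2 ≤ Nat.sqrt q := Nat.le_sqrt.2 (by omega)
    nlinarith

lemma disj (q : ℕ) (hq : 2 ≤ q) : Disjoint (range (Nat.sqrt q)) (Ico (q / 2) q) := by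
  rw [disjoint_left]
  intro c h1 h2
  rw [mem_range] at h1
  rw [mem_Ico] at h2
  have := sqrt_le_half q hq
  omega

lemma w_nonneg (q c : ℕ) : 0 ≤ w q c := by
  unfold w
  have : (Nat.sqrt q : ℝ) ≤ q := by exact_mod_cast Nat.sqrt_le_self q
  split_ifs
  · positivity
  · apply div_nonneg (by linarith) (by positivity)

lemma upper_sum (q : ℕ) (hq : 2 ≤ q) : ∑ c ∈ Ico (q / 2) q, w q c = 1 - Nat.sqrt q / q := by
  have h1 : ∀ c ∈ Ico (q / 2) q, w q c =
      ((q : ℝ) - Nat.sqrt q) / (q * ((q - q / 2 : ℕ) : ℝ)) := by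
    intro c hc
    rw [mem_Ico] at hc
    have := sqrt_le_half q hq
    unfold w
    rw [if_neg (by omega)]
  rw [sum_congr rfl h1, sum_const, Nat.card_Ico, nsmul_eq_mul]
  have h2 : (0 : ℝ) < q := by exact_mod_cast (by omega : 0 < q)
  have h3 : (0 : ℝ) < ((q - q / 2 : ℕ) : ℝ) := by exact_mod_cast (by omega : 0 < q - q / 2)
  field_simp

lemma lower_sum (q : ℕ) (hq : 2 ≤ q) : ∑ c ∈ range (Nat.sqrt q), w q c = Nat.sqrt q / q := by
  have h1 : ∀ c ∈ range (Nat.sqrt q), w q c = 1 / q := by
    intro c hc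
    rw [mem_range] at hc
    unfold w
    rw [if_pos hc]
  rw [sum_congr rfl h1, sum_const, card_range, nsmul_eq_mul]
  ring

lemma total (q : ℕ) (hq : 2 ≤ q) : ∑ c ∈ sup q, w q c = 1 := by
  unfold sup
  rw [sum_union (disj q hq), lower_sum q hq, upper_sum q hq]
  ring

lemma biased_apply (q : ℕ) (hq : 2 ≤ q) (T : Set ℕ) [DecidablePred (· ∈ T)] :
    biased q T = ENNReal.ofReal (∑ c ∈ (sup q).filter (· ∈ T), w q c) := by
  unfold biased
  rw [if_neg (by omega), Measure.coe_finsetSum, Finset.sum_apply,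
    ENNReal.ofReal_sum_of_nonneg (fun c _ => w_nonneg q c), sum_filter]
  apply sum_congr rfl
  intro c _
  rw [Measure.smul_apply, Measure.dirac_apply' _ MeasurableSet.of_discrete, smul_eq_mul]
  by_cases h : c ∈ T
  · simp [h]
  · simp [h]

instance (q : ℕ) : IsProbabilityMeasure (biased q) := by
  by_cases hq : q < 2
  · unfold biased; rw [if_pos hq]; infer_instance
  · constructor
    classical
    rw [biased_apply q (by omega)]
    simp [total q (by omega)]

lemma biased_singleton (q c : ℕ) (hq : 2 ≤ q) (hc : c < Nat.sqrt q) :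
    (biased q).real {c} = ((q : ℝ))⁻¹ := by
  classical
  rw [measureReal_def, biased_apply q hq, ENNReal.toReal_ofReal (sum_nonneg fun c _ => w_nonneg q c)]
  have : (sup q).filter (· ∈ ({c} : Set ℕ)) = {c} := by
    ext d
    simp only [sup, mem_filter, mem_union, mem_range, mem_Ico, Set.mem_singleton_iff,
      mem_singleton]
    constructor
    · exact fun h => h.2
    · intro h; subst h; exact ⟨Or.inl hc, rfl⟩
  rw [this, sum_singleton]
  unfold w
  rw [if_pos hc, one_div]

lemma biased_le (q c : ℕ) (hq : 2 ≤ q) : (biased q) {c} ≤ ENNReal.ofReal (2 / q) := by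
  classical
  rw [biased_apply q hq]
  apply ENNReal.ofReal_le_ofReal
  have h2 : (0 : ℝ) < q := by exact_mod_cast (by omega : 0 < q)
  have hw : w q c ≤ 2 / q := by
    unfold w
    split_ifs
    · exact div_le_div_of_nonneg_right (by norm_num) h2.le
    · have h3 : (q : ℝ) ≤ 2 * ((q - q / 2 : ℕ) : ℝ) := by
        exact_mod_cast (by omega : q ≤ 2 * (q - q / 2))
      have h4 : (0 : ℝ) < ((q - q / 2 : ℕ) : ℝ) := by linarith
      have h5 : (0 : ℝ) ≤ Nat.sqrt q := by positivity
      rw [div_le_div_iff₀ (by positivity) h2]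
      nlinarith
  calc ∑ d ∈ (sup q).filter (· ∈ ({c} : Set ℕ)), w q d ≤ ∑ d ∈ ({c} : Finset ℕ), w q d := by
        apply sum_le_sum_of_subset_of_nonneg
        · intro d hd
          rw [mem_filter] at hd
          simpa using hd.2
        · intro d _ _; exact w_nonneg q d
    _ = w q c := sum_singleton _ _
    _ ≤ _ := hw

lemma biased_upper (q : ℕ) (hq : 2 ≤ q) :
    (biased q).real {c | q / 2 ≤ c} = 1 - Nat.sqrt q / q := by
  classical
  rw [measureReal_def, biased_apply q hq, ENNReal.toReal_ofReal (sum_nonneg fun c _ => w_nonneg q c),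
    ← upper_sum q hq]
  apply sum_congr _ (fun _ _ => rfl)
  ext c
  have := sqrt_le_half q hq
  simp only [sup, mem_filter, mem_union, mem_range, mem_Ico, Set.mem_ofPred_eq]
  omega

lemma biased_lt (q : ℕ) (hq : 2 ≤ q) : ∀ᵐ c ∂(biased q), c < q := by
  classical
  rw [ae_iff, biased_apply q hq]
  have : (sup q).filter (· ∈ ({a | ¬ a < q} : Set ℕ)) = ∅ := by
    ext c
    have := sqrt_le_half q hq
    simp only [sup, mem_filter, mem_union, mem_range, mem_Ico, Set.mem_ofPred_eq,
      Finset.notMem_empty, iff_false]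
    omega
  rw [this]
  simp

/-- the probability of the upper half tends to one -/
lemma upper_tendsto (Q : ℕ → ℕ) (hQt : Tendsto Q atTop atTop) (hQ : ∀ n, 1 ≤ n → 2 ≤ Q n) :
    Tendsto (fun n => (biased (Q n)).real {c | Q n / 2 ≤ c}) atTop (𝓝 1) := by
  have h1 : Tendsto (fun n => ((Nat.sqrt (Q n) : ℕ) : ℝ) / Q n) atTop (𝓝 0) := by
    have h2 : Tendsto (fun n => 1 / Real.sqrt (Q n)) atTop (𝓝 0) := by
      have h3 : Tendsto (fun n => Real.sqrt (Q n)) atTop atTop :=
        Real.tendsto_sqrt_atTop.comp (tendsto_natCast_atTop_atTop.comp hQt)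
      exact h3.const_div_atTop 1
    refine squeeze_zero' (Eventually.of_forall fun n => by positivity) ?_ h2
    filter_upwards [eventually_ge_atTop 1] with n hn
    have hq : (0 : ℝ) < Q n := by have := hQ n hn; exact_mod_cast (by omega : 0 < Q n)
    have h4 : ((Nat.sqrt (Q n) : ℕ) : ℝ) ≤ Real.sqrt (Q n) := Real.nat_sqrt_le_real_sqrt
    have h5 : 0 < Real.sqrt (Q n) := Real.sqrt_pos.2 hq
    have h6 : Real.sqrt (Q n) * Real.sqrt (Q n) = Q n := Real.mul_self_sqrt hq.le
    rw [div_le_div_iff₀ hq h5]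
    nlinarith
  have h2 := h1.const_sub 1
  rw [sub_zero] at h2
  refine h2.congr' ?_
  filter_upwards [eventually_ge_atTop 1] with n hn
  rw [biased_upper _ (hQ n hn)]

end Pool.Agent.V11309.Biased
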