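import Mathlib
import Pool.Agent.V11309.FromDigits

/-! The mass distribution principle for measures with small cylinders. -/

set_option autoImplicit false

namespace Pool.Agent.V11309.MassDist

open Filter Topology Finset MeasureTheory
open Pool.Agent.V11309.FromDigits
open scoped ENNReal NNReal

variable {Q : ℕ → ℕ}

lemma growth (hQ : ∀ n, 1 ≤ n → 2 ≤ Q n) (hQt : Tendsto Q atTop atTop) (D A : ℝ) (hD : 0 < D)
    (hA : 0 < A) (t : ℝ) (ht : 0 < t) :
    ∀ᶠ n in atTop, A * D ^ (n + 1) ≤ (PP Q n : ℝ) ^ t := by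
  have hP : ∀ n, (0 : ℝ) < PP Q n := fun n => by have := PP_pos hQ n; exact_mod_cast this
  set b : ℕ → ℝ := fun n => A * D ^ (n + 1) / (PP Q n : ℝ) ^ t with hb
  have hbpos : ∀ n, 0 < b n := fun n => by
    have := hP n
    simp only [hb]
    positivity
  have hratio : Tendsto (fun n => ‖b (n + 1)‖ / ‖b n‖) atTop (𝓝 0) := by
    have h1 : Tendsto (fun n => D / ((Q (n + 1) : ℝ)) ^ t) atTop (𝓝 0) := by
      have h2 : Tendsto (fun n => ((Q (n + 1) : ℕ) : ℝ)) atTop atTop :=
        tendsto_natCast_atTop_atTop.comp (hQt.comp (tendsto_add_atTop_nat 1))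
      exact ((tendsto_rpow_atTop ht).comp h2).const_div_atTop D
    refine h1.congr fun n => ?_
    rw [Real.norm_of_nonneg (hbpos _).le, Real.norm_of_nonneg (hbpos _).le]
    simp only [hb]
    have hq : (0 : ℝ) < Q (n + 1) := by have := hQ (n + 1) (by omega); positivity
    rw [PP_succ]
    push_cast
    rw [Real.mul_rpow (hP n).le hq.le]
    have h3 : (0 : ℝ) < (PP Q n : ℝ) ^ t := Real.rpow_pos_of_pos (hP n) t
    have h4 : (0 : ℝ) < (Q (n + 1) : ℝ) ^ t := Real.rpow_pos_of_pos hq t
    field_simp
    ring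
  have hsum : Summable b := summable_of_ratio_test_tendsto_lt_one zero_lt_one
    (Eventually.of_forall fun n => (hbpos n).ne') hratio
  have h0 := hsum.tendsto_atTop_zero
  filter_upwards [h0.eventually (gt_mem_nhds zero_lt_one)] with n hn
  have h3 : (0 : ℝ) < (PP Q n : ℝ) ^ t := Real.rpow_pos_of_pos (hP n) t
  simp only [hb] at hn
  rw [div_lt_one h3] at hn
  exact hn.le

lemma PP_tendsto (hQ : ∀ n, 1 ≤ n → 2 ≤ Q n) : Tendsto (fun n => (PP Q n : ℝ)) atTop atTop := by
  have h : ∀ n, 2 ^ n ≤ PP Q n := by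
    intro n
    induction n with
    | zero => simp [PP_zero]
    | succ n ih =>
      rw [PP_succ, pow_succ]
      exact Nat.mul_le_mul ih (hQ _ (by omega))
  have h2 : Tendsto (fun n : ℕ => (2 : ℝ) ^ n) atTop atTop :=
    tendsto_pow_atTop_atTop_of_one_lt (by norm_num)
  exact tendsto_atTop_mono (fun n => by exact_mod_cast h n) h2

/-- **Mass distribution.** -/
theorem dimH_eq_one (hQ : ∀ n, 1 ≤ n → 2 ≤ Q n) (hQt : Tendsto Q atTop atTop)
    (μ : Measure ℝ) [IsProbabilityMeasure μ] (D : ℝ) (hD : 1 ≤ D)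
    (hcyl : ∀ (n : ℕ) (a : ℤ), μ (Set.Ico ((a : ℝ) / PP Q n) (((a : ℝ) + 1) / PP Q n)) ≤
      ENNReal.ofReal (D ^ n / PP Q n)) (S : Set ℝ) (hS : ∀ S', MeasurableSet S' → S ⊆ S' → μ S' = 1) : dimH S = 1 := by
  have hP : ∀ n, (0 : ℝ) < PP Q n := fun n => by have := PP_pos hQ n; exact_mod_cast this
  have hD0 : 0 < D := by linarith
  -- the measure of a set within distance `δ` of a point
  have hball : ∀ (n : ℕ) (A : Set ℝ) (x0 δ : ℝ), 0 ≤ δ → (∀ x ∈ A, |x - x0| ≤ δ) →
      μ A ≤ ENNReal.ofReal ((2 * δ * PP Q n + 2) * (D ^ n / PP Q n)) := by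
    intro n A x0 δ hδ hA
    set P : ℝ := ((PP Q n : ℕ) : ℝ) with hPdef
    have hPn : 0 < P := hP n
    set lo := ⌊(x0 - δ) * P⌋ with hlo
    set hi := ⌊(x0 + δ) * P⌋ with hhi
    have hcov : A ⊆ ⋃ a ∈ Finset.Icc lo hi, Set.Ico ((a : ℝ) / P) (((a : ℝ) + 1) / P) := by
      intro x hx
      have h1 := hA x hx
      rw [abs_le] at h1
      rw [Set.mem_iUnion₂]
      refine ⟨⌊x * P⌋, ?_, ?_⟩
      · rw [Finset.mem_Icc]
        constructor
        · apply Int.floor_le_floor
          nlinarith
        · apply Int.floor_le_floor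
          nlinarith
      · rw [Set.mem_Ico, div_le_iff₀ hPn, lt_div_iff₀ hPn]
        exact ⟨Int.floor_le _, Int.lt_floor_add_one _⟩
    calc μ A ≤ μ (⋃ a ∈ Finset.Icc lo hi, Set.Ico ((a : ℝ) / P) (((a : ℝ) + 1) / P)) :=
          measure_mono hcov
      _ ≤ ∑ a ∈ Finset.Icc lo hi, μ (Set.Ico ((a : ℝ) / P) (((a : ℝ) + 1) / P)) :=
          measure_biUnion_finset_le _ _
      _ ≤ ∑ a ∈ Finset.Icc lo hi, ENNReal.ofReal (D ^ n / P) := sum_le_sum fun a _ => hcyl n a
      _ = ((Finset.Icc lo hi).card : ℝ≥0∞) * ENNReal.ofReal (D ^ n / P) := by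
          rw [sum_const, nsmul_eq_mul]
      _ = ENNReal.ofReal (((Finset.Icc lo hi).card : ℝ) * (D ^ n / P)) := by
          rw [ENNReal.ofReal_mul (by positivity), ENNReal.ofReal_natCast]
      _ ≤ _ := by
          apply ENNReal.ofReal_le_ofReal
          apply mul_le_mul_of_nonneg_right _ (by positivity)
          rw [Int.card_Icc]
          have h1 : (lo : ℝ) > (x0 - δ) * P - 1 := by rw [hlo]; exact Int.sub_one_lt_floor _
          have h2 : (hi : ℝ) ≤ (x0 + δ) * P := by rw [hhi]; exact Int.floor_le _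
          have h3 : lo ≤ hi + 1 := by
            have : lo ≤ hi := by
              apply Int.floor_le_floor
              nlinarith
            omega
          have h4 : ((hi + 1 - lo).toNat : ℝ) = (hi : ℝ) + 1 - lo := by
            have : (((hi + 1 - lo).toNat : ℤ) : ℝ) = ((hi + 1 - lo : ℤ) : ℝ) := by
              rw [Int.toNat_of_nonneg (by omega)]
            push_cast at this
            exact_mod_cast this
          rw [h4]
          nlinarith
  apply le_antisymm
  · calc dimH S ≤ dimH (Set.univ : Set ℝ) := dimH_mono (Set.subset_univ _)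
      _ = 1 := Real.dimH_univ
  -- lower bound
  apply le_of_forall_lt
  intro s' hs'
  obtain ⟨s, hs1, hs2⟩ := ENNReal.lt_iff_exists_nnreal_btwn.1 hs'
  have hs2' : s < 1 := by exact_mod_cast hs2
  refine lt_of_lt_of_le hs1 ?_
  apply le_dimH_of_hausdorffMeasure_ne_zero
  have hs0 : (0 : ℝ) < s := by
    have : (0 : ℝ≥0∞) < s := lt_of_le_of_lt bot_le hs1
    exact_mod_cast this
  have hs1r : (s : ℝ) < 1 := by exact_mod_cast hs2'
  obtain ⟨n0, hn0⟩ := eventually_atTop.1 (growth hQ hQt D 4 hD0 (by norm_num) (1 - s)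
    (by linarith))
  have hle : μ ≤ Measure.hausdorffMeasure (s : ℝ) := by
    apply Measure.le_hausdorffMeasure (s : ℝ) μ (ENNReal.ofReal (1 / (2 * PP Q n0)))
    · rw [ENNReal.ofReal_pos]
      have := hP n0
      positivity
    · intro A hAd
      rcases A.eq_empty_or_nonempty with hA | ⟨x0, hx0⟩
      · rw [hA]; simp
      have hfin : Metric.ediam A ≠ ∞ := ne_top_of_le_ne_top ENNReal.ofReal_ne_top hAd
      set δ := (Metric.ediam A).toReal with hδ
      have hδ0 : 0 ≤ δ := ENNReal.toReal_nonneg
      have hδe : Metric.ediam A = ENNReal.ofReal δ := (ENNReal.ofReal_toReal hfin).symm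
      have hAδ : ∀ x ∈ A, |x - x0| ≤ δ := by
        intro x hx
        have h1 : edist x x0 ≤ Metric.ediam A := Metric.edist_le_ediam_of_mem hx hx0
        rw [hδe, edist_dist, ENNReal.ofReal_le_ofReal_iff hδ0, Real.dist_eq] at h1
        exact h1
      rcases hδ0.eq_or_lt with h0 | hpos
      · -- a single point
        have hz : Metric.ediam A = 0 := by rw [hδe, ← h0]; simp
        rw [hz, ENNReal.zero_rpow_of_pos hs0, nonpos_iff_eq_zero]
        have hb : ∀ n, μ A ≤ ENNReal.ofReal (2 * (D ^ n / PP Q n)) := by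
          intro n
          have := hball n A x0 δ hδ0 hAδ
          rw [← h0] at this
          simpa using this
        have hlim : Tendsto (fun n => ENNReal.ofReal (2 * (D ^ n / PP Q n))) atTop (𝓝 0) := by
          have h1 : Tendsto (fun n => 2 * (D ^ n / (PP Q n : ℝ))) atTop (𝓝 0) := by
            have hg : ∀ᶠ n in atTop, 1 * D ^ (n + 1) ≤ (PP Q n : ℝ) ^ (1 / 2 : ℝ) :=
              growth hQ hQt D 1 hD0 (by norm_num) (1 / 2) (by norm_num)
            have h2 : Tendsto (fun n => 2 / (PP Q n : ℝ) ^ (1 / 2 : ℝ)) atTop (𝓝 0) :=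
              ((tendsto_rpow_atTop (by norm_num : (0 : ℝ) < 1 / 2)).comp
                (PP_tendsto hQ)).const_div_atTop 2
            refine squeeze_zero' (Eventually.of_forall fun n => by have := hP n; positivity) ?_ h2
            filter_upwards [hg] with n hn
            have hPn := hP n
            have h3 : (0 : ℝ) < (PP Q n : ℝ) ^ (1 / 2 : ℝ) := Real.rpow_pos_of_pos hPn _
            have h4 : (PP Q n : ℝ) ^ (1 / 2 : ℝ) * (PP Q n : ℝ) ^ (1 / 2 : ℝ) = PP Q n := by
              rw [← Real.rpow_add hPn]; norm_num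
            have h5 : D ^ n ≤ D ^ (n + 1) := pow_le_pow_right₀ hD (by omega)
            rw [mul_div_assoc', div_le_div_iff₀ hPn h3]
            nlinarith
          have := ENNReal.tendsto_ofReal h1
          simpa using this
        have := ge_of_tendsto' hlim hb
        exact nonpos_iff_eq_zero.1 this
      · -- choose `n`
        have hδ1 : δ ≤ 1 / (2 * PP Q n0) := by
          rw [hδe] at hAd
          exact (ENNReal.ofReal_le_ofReal_iff (by have := hP n0; positivity)).1 hAd
        have hδ2 : δ * PP Q n0 < 1 := by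
          have := hP n0
          calc δ * PP Q n0 ≤ 1 / (2 * PP Q n0) * PP Q n0 := mul_le_mul_of_nonneg_right hδ1 this.le
            _ = 1 / 2 := by field_simp
            _ < 1 := by norm_num
        have hex : ∃ n, 1 ≤ δ * PP Q n := by
          have h1 := (PP_tendsto hQ).const_mul_atTop hpos
          exact (h1.eventually_ge_atTop 1).exists
        classical
        set m := Nat.find hex with hm
        have hm1 : 1 ≤ δ * PP Q m := Nat.find_spec hex
        have hmono : ∀ x y, x ≤ y → (PP Q x : ℝ) ≤ PP Q y := by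
          intro x y hxy
          induction y, hxy using Nat.le_induction with
          | base => exact le_rfl
          | succ y _ ih =>
            refine ih.trans ?_
            rw [PP_succ]
            have := hQ (y + 1) (by omega)
            push_cast
            have h1 := hP y
            have h2 : (1 : ℝ) ≤ Q (y + 1) := by exact_mod_cast (by omega : 1 ≤ Q (y + 1))
            nlinarith
        have hmn : n0 < m := by
          by_contra hcon
          push Not at hcon
          have := hmono m n0 hcon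
          nlinarith
        obtain ⟨n, hn⟩ : ∃ n, m = n + 1 := ⟨m - 1, by omega⟩
        have hn1 : δ * PP Q n < 1 := by
          have := Nat.find_min hex (m := n) (by omega)
          push Not at this
          exact this
        rw [hn] at hm1
        have hPn := hP n
        have hPn1 := hP (n + 1)
        have h1 := hball (n + 1) A x0 δ hδ0 hAδ
        refine h1.trans ?_
        rw [hδe, ENNReal.ofReal_rpow_of_nonneg hδ0 hs0.le]
        apply ENNReal.ofReal_le_ofReal
        have h2 : (2 * δ * PP Q (n + 1) + 2) * (D ^ (n + 1) / PP Q (n + 1)) ≤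
            4 * D ^ (n + 1) * δ := by
          have h3 : 2 * δ * PP Q (n + 1) + 2 ≤ 4 * δ * PP Q (n + 1) := by nlinarith
          calc (2 * δ * PP Q (n + 1) + 2) * (D ^ (n + 1) / PP Q (n + 1))
              ≤ (4 * δ * PP Q (n + 1)) * (D ^ (n + 1) / PP Q (n + 1)) :=
                mul_le_mul_of_nonneg_right h3 (by positivity)
            _ = _ := by field_simp
        refine h2.trans ?_
        have h4 := hn0 n (by omega)
        have h5 : (PP Q n : ℝ) ^ (1 - (s : ℝ)) * δ ^ (1 - (s : ℝ)) ≤ 1 := by
          rw [← Real.mul_rpow hPn.le hδ0]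
          apply Real.rpow_le_one (by positivity) _ (by linarith)
          nlinarith
        have h6 : δ = δ ^ (1 - (s : ℝ)) * δ ^ (s : ℝ) := by
          rw [← Real.rpow_add hpos]; simp
        have h7 : 0 < δ ^ (1 - (s : ℝ)) := Real.rpow_pos_of_pos hpos _
        have h8 : 0 < δ ^ (s : ℝ) := Real.rpow_pos_of_pos hpos _
        calc 4 * D ^ (n + 1) * δ = 4 * D ^ (n + 1) * (δ ^ (1 - (s : ℝ)) * δ ^ (s : ℝ)) := by
              rw [← h6]
          _ = (4 * D ^ (n + 1) * δ ^ (1 - (s : ℝ))) * δ ^ (s : ℝ) := by ring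
          _ ≤ ((PP Q n : ℝ) ^ (1 - (s : ℝ)) * δ ^ (1 - (s : ℝ))) * δ ^ (s : ℝ) := by
              apply mul_le_mul_of_nonneg_right _ h8.le
              exact mul_le_mul_of_nonneg_right h4 h7.le
          _ ≤ 1 * δ ^ (s : ℝ) := mul_le_mul_of_nonneg_right h5 h8.le
          _ = _ := one_mul _
  intro h0
  have := hle (toMeasurable (Measure.hausdorffMeasure (s : ℝ)) S)
  rw [measure_toMeasurable, h0,
    hS _ (measurableSet_toMeasurable _ _) (subset_toMeasurable _ _)] at this
  simp at this

end Pool.Agent.V11309.MassDist
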