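import Mathlib
import Pool.Agent.V11309.MassDist
import Pool.Agent.V11309.RandDigits

/-! Almost sure properties of random digits give sets of Hausdorff dimension one. -/

set_option autoImplicit false

namespace Pool.Agent.V11309.PushForward

open Filter Topology Finset MeasureTheory
open Pool.Agent.V11309.FromDigits Pool.Agent.V11309.RandDigits
open scoped ENNReal NNReal

variable {Q : ℕ → ℕ}

lemma AA_inj (E E' : ℕ → ℕ) (hE : ∀ n, 1 ≤ n → E n < Q n) (hE' : ∀ n, 1 ≤ n → E' n < Q n)
    (n : ℕ) (h : AA Q E n = AA Q E' n) : ∀ i, 1 ≤ i → i ≤ n → E i = E' i := by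
  induction n with
  | zero => intro i h1 h2; omega
  | succ n ih =>
    rw [AA, AA] at h
    have h1 := hE (n + 1) (by omega)
    have h2 := hE' (n + 1) (by omega)
    have h3 : E (n + 1) = E' (n + 1) := by
      have e1 : (Q (n + 1) * AA Q E n + E (n + 1)) % Q (n + 1) = E (n + 1) := by
        rw [Nat.mul_add_mod, Nat.mod_eq_of_lt h1]
      have e2 : (Q (n + 1) * AA Q E' n + E' (n + 1)) % Q (n + 1) = E' (n + 1) := by
        rw [Nat.mul_add_mod, Nat.mod_eq_of_lt h2]
      rw [← e1, ← e2, h]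
    have h4 : AA Q E n = AA Q E' n := by
      rw [h3] at h
      have : Q (n + 1) * AA Q E n = Q (n + 1) * AA Q E' n := by omega
      exact Nat.eq_of_mul_eq_mul_left (by omega) this
    intro i hi1 hi2
    rcases Nat.lt_or_ge n i with hlt | hge
    · have : i = n + 1 := by omega
      rw [this]; exact h3
    · exact ih h4 i hi1 hge

lemma measurable_AA (F : (ℕ → ℕ) → ℕ → ℕ) (hF : ∀ n, Measurable fun ω => F ω n) (n : ℕ) :
    Measurable fun ω => AA Q (F ω) n := by
  induction n with
  | zero => simp only [AA]; exact measurable_const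
  | succ n ih =>
    simp only [AA]
    exact (ih.const_mul _).add (hF _)

variable (ν : ℕ → Measure ℕ) [∀ n, IsProbabilityMeasure (ν n)]

/-- **Full Hausdorff dimension from random digits.** -/
theorem dimH_of_ae (hQ : ∀ n, 1 ≤ n → 2 ≤ Q n) (hQt : Tendsto Q atTop atTop)
    (D : ℝ) (hD : 1 ≤ D)
    (hν : ∀ n, 1 ≤ n → ∀ c : ℕ, (ν n) {c} ≤ ENNReal.ofReal (D / Q n))
    (F : (ℕ → ℕ) → ℕ → ℕ) (hF : ∀ n, Measurable fun ω => F ω n)
    (hF0 : ∀ ω n, F ω n = ω n ∨ ω n = 0)
    (hdig : ∀ᵐ ω ∂(Measure.infinitePi ν), ∀ n, 1 ≤ n → F ω n < Q n)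
    (hinf : ∀ᵐ ω ∂(Measure.infinitePi ν), ∀ N, ∃ n, N ≤ n ∧ F ω n + 1 < Q n)
    (S : Set ℝ) (hS : ∀ᵐ ω ∂(Measure.infinitePi ν), xx Q (F ω) ∈ S) : dimH S = 1 := by
  set μ := Measure.infinitePi ν with hμ
  have hP : ∀ n, (0 : ℝ) < PP Q n := fun n => by have := PP_pos hQ n; exact_mod_cast this
  -- measurability
  have hmeas : AEMeasurable (fun ω => xx Q (F ω)) μ := by
    refine aemeasurable_of_tendsto_metrizable_ae (u := atTop) (f := fun n ω => ps Q (F ω) n) ?_ ?_
    · intro n
      unfold ps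
      have h1 : Measurable fun ω => ((AA Q (F ω) n : ℕ) : ℝ) :=
        (measurable_from_top (f := fun m : ℕ => (m : ℝ))).comp (measurable_AA F hF n)
      exact (h1.div_const _).aemeasurable
    · filter_upwards [hdig] with ω hω
      exact tendsto_atTop_ciSup (ps_mono hQ) (bdd hQ hω)
  have hprob : IsProbabilityMeasure (μ.map fun ω => xx Q (F ω)) :=
    Measure.isProbabilityMeasure_map hmeas
  refine Pool.Agent.V11309.MassDist.dimH_eq_one hQ hQt (μ.map fun ω => xx Q (F ω)) (2 * D)
    (by linarith) ?_ S ?_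
  · intro n a
    rw [Measure.map_apply_of_aemeasurable hmeas measurableSet_Ico]
    have hPn := hP n
    -- in the good set the event determines `AA`
    have hAA : ∀ ω, (∀ n, 1 ≤ n → F ω n < Q n) → (∀ N, ∃ n, N ≤ n ∧ F ω n + 1 < Q n) →
        xx Q (F ω) ∈ Set.Ico ((a : ℝ) / PP Q n) (((a : ℝ) + 1) / PP Q n) →
        (AA Q (F ω) n : ℤ) = a := by
      intro ω h1 h2 h3
      rw [← floor_eq hQ h1 h2 n]
      have e : (∏ i ∈ Icc 1 n, (Q i : ℝ)) = (PP Q n : ℝ) := by
        unfold PP; push_cast; rfl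
      rw [e, Int.floor_eq_iff]
      rw [Set.mem_Ico, div_le_iff₀ hPn, lt_div_iff₀ hPn] at h3
      constructor
      · linarith [h3.1]
      · linarith [h3.2]
    by_cases hex : ∃ ω0, (∀ n, 1 ≤ n → F ω0 n < Q n) ∧ (AA Q (F ω0) n : ℤ) = a
    · obtain ⟨ω0, h01, h02⟩ := hex
      set T : ℕ → ℕ → Set ℕ := fun _ i => {c | c = F ω0 i ∨ c = 0} with hT
      have hsub : ∀ᵐ ω ∂μ, xx Q (F ω) ∈ Set.Ico ((a : ℝ) / PP Q n) (((a : ℝ) + 1) / PP Q n) →
          ω ∈ Ev T n 1 := by
        filter_upwards [hdig, hinf] with ω h1 h2 h3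
        have h4 := hAA ω h1 h2 h3
        rw [← h02] at h4
        have h5 := AA_inj (F ω) (F ω0) h1 h01 n (by exact_mod_cast h4)
        intro i hi
        rw [mem_Ico] at hi
        have h6 := h5 i hi.1 (by omega)
        rcases hF0 ω i with h7 | h7
        · exact Or.inl (by rw [← h7, h6])
        · exact Or.inr h7
      have h1 : μ ((fun ω => xx Q (F ω)) ⁻¹' Set.Ico ((a : ℝ) / PP Q n) (((a : ℝ) + 1) / PP Q n)) ≤
          μ (Ev T n 1) := measure_mono_ae hsub
      refine h1.trans ?_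
      rw [ev_prob]
      have h2 : ∀ i ∈ Ico 1 (1 + n), (ν i) (T 1 i) ≤ ENNReal.ofReal (2 * D / Q i) := by
        intro i hi
        rw [mem_Ico] at hi
        have hsub2 : T 1 i ⊆ {F ω0 i} ∪ {0} := by
          intro c hc
          rcases hc with hc | hc
          · exact Or.inl hc
          · exact Or.inr hc
        calc (ν i) (T 1 i) ≤ (ν i) ({F ω0 i} ∪ {0}) := measure_mono hsub2
          _ ≤ (ν i) {F ω0 i} + (ν i) {0} := measure_union_le _ _
          _ ≤ ENNReal.ofReal (D / Q i) + ENNReal.ofReal (D / Q i) :=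
              add_le_add (hν i hi.1 _) (hν i hi.1 _)
          _ = ENNReal.ofReal (2 * D / Q i) := by
              rw [← ENNReal.ofReal_add (by positivity) (by positivity)]
              congr 1
              ring
      refine (prod_le_prod' h2).trans ?_
      rw [← ENNReal.ofReal_prod_of_nonneg (fun i _ => by positivity)]
      apply ENNReal.ofReal_le_ofReal
      rw [prod_div_distrib, prod_const, Nat.card_Ico]
      have e : ∏ i ∈ Ico 1 (1 + n), (Q i : ℝ) = PP Q n := by
        unfold PP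
        push_cast
        apply prod_congr _ (fun _ _ => rfl)
        ext i
        simp only [mem_Ico, mem_Icc]
        omega
      rw [e]
      simp
    · have h0 : μ ((fun ω => xx Q (F ω)) ⁻¹' Set.Ico ((a : ℝ) / PP Q n)
          (((a : ℝ) + 1) / PP Q n)) = 0 := by
        have : ∀ᵐ ω ∂μ, ω ∉ ((fun ω => xx Q (F ω)) ⁻¹' Set.Ico ((a : ℝ) / PP Q n)
          (((a : ℝ) + 1) / PP Q n)) := by
          filter_upwards [hdig, hinf] with ω h1 h2 h3
          exact hex ⟨ω, h1, hAA ω h1 h2 h3⟩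
        exact measure_eq_zero_iff_ae_notMem.2 this
      rw [h0]
      exact bot_le
  · intro S' hS'm hSS'
    rw [Measure.map_apply_of_aemeasurable hmeas hS'm]
    have h1 : ∀ᵐ ω ∂μ, ω ∈ (fun ω => xx Q (F ω)) ⁻¹' S' := by
      filter_upwards [hS] with ω hω
      exact hSS' hω
    have h2 : μ ((fun ω => xx Q (F ω)) ⁻¹' S') = μ Set.univ := by
      apply measure_congr
      filter_upwards [h1] with ω hω
      exact propext ⟨fun _ => trivial, fun _ => hω⟩
    rw [h2]
    exact measure_univ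

end Pool.Agent.V11309.PushForward
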