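import Mathlib
import Pool.Agent.V11309.PushForward
import Pool.Agent.V11309.EraseNormal
import Pool.Agent.V11309.Biased
import Pool.Agent.V11309.SetLln

/-! `dim_H (N(Q) \ DN(Q)) = 1` for every basic sequence which is infinite in limit and fully
divergent. -/

set_option autoImplicit false

namespace Pool.Agent.V11309.DimQ1

open Filter Topology Finset MeasureTheory
open Pool.Agent.V11309.Cantor Pool.Agent.V11309.Erase Pool.Agent.V11309.Lln
open Pool.Agent.V11309.EraseNormal Pool.Agent.V11309.Normality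
open Pool.Agent.V11309.FromDigits Pool.Agent.V11309.Biased Pool.Agent.V11309.RandDigits

/-- `Q` is fully divergent. -/
def FullyDivergent (Q : ℕ → ℕ) : Prop := ∀ k, 1 ≤ k → Tendsto (weight Q k 1 0) atTop atTop

open Classical in
/-- A sequence in `[0, 1)` is uniformly distributed. -/
def UD (u : ℕ → ℝ) : Prop := ∀ a b : ℝ, 0 ≤ a → a < b → b ≤ 1 →
  Tendsto (fun N : ℕ => (((range N).filter fun n => a ≤ u n ∧ u n < b).card : ℝ) / N) atTop
    (𝓝 (b - a))

/-- `DN(Q)`: the set of the `Q`-distribution normal numbers, `(T_{Q,n}(x))_{n ≥ 0}` with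
`T_{Q,n}(x) = q_1 ⋯ q_n x mod 1` being uniformly distributed. -/
def DN (Q : ℕ → ℕ) : Set ℝ := {x | UD fun n => Int.fract ((∏ i ∈ Icc 1 n, (Q i : ℝ)) * x)}

/-- a large digit makes `T_n` at least `1/4` -/
lemma fract_ge {Q E : ℕ → ℕ} (hQ : ∀ n, 1 ≤ n → 2 ≤ Q n) (hE : ∀ n, 1 ≤ n → E n < Q n)
    (hinf : ∀ N, ∃ n, N ≤ n ∧ E n + 1 < Q n) (n : ℕ) (h : Q (n + 1) / 2 ≤ E (n + 1)) :
    1 / 4 ≤ Int.fract ((∏ i ∈ Icc 1 n, (Q i : ℝ)) * xx Q E) := by
  have hP : ∀ n, (0 : ℝ) < PP Q n := fun n => by have := PP_pos hQ n; exact_mod_cast this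
  have e : ∀ n, (∏ i ∈ Icc 1 n, (Q i : ℝ)) = (PP Q n : ℝ) := by
    intro n; unfold PP; push_cast; rfl
  rw [Int.fract, floor_eq hQ hE hinf n, e]
  have h1 := ps_le hQ hE (n + 1)
  unfold ps at h1
  rw [div_le_iff₀ (hP _), AA, PP_succ] at h1
  push_cast at h1
  have h2 : (2 : ℝ) ≤ Q (n + 1) := by exact_mod_cast hQ (n + 1) (by omega)
  have h3 : (Q (n + 1) : ℝ) ≤ 2 * E (n + 1) + 1 := by
    exact_mod_cast (by omega : Q (n + 1) ≤ 2 * E (n + 1) + 1)
  push_cast
  have h4 : (E (n + 1) : ℝ) ≤ Q (n + 1) * (PP Q n * xx Q E - AA Q E n) := by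
    nlinarith [h1]
  have h5 : (Q (n + 1) : ℝ) * (1 / 4) ≤ Q (n + 1) * (PP Q n * xx Q E - AA Q E n) := by
    linarith
  exact le_of_mul_le_mul_left h5 (by linarith)

/-- constraints: large digit -/
def TU (Q : ℕ → ℕ) (_ i : ℕ) : Set ℕ := {c | Q i / 2 ≤ c}

lemma mem_ev_TU (Q ω : ℕ → ℕ) (p : ℕ) : ω ∈ Ev (TU Q) 1 p ↔ Q p / 2 ≤ ω p := by
  unfold Ev TU
  constructor
  · intro h
    exact h p (mem_Ico.2 ⟨le_rfl, by omega⟩)
  · intro h i hi
    rw [mem_Ico] at hi
    have : i = p := by omega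
    rw [this]
    exact h

/-- almost all digits are large -/
lemma ae_large (Q : ℕ → ℕ) (hQ : ∀ n, 1 ≤ n → 2 ≤ Q n) (hQt : Tendsto Q atTop atTop) :
    ∀ᵐ ω ∂(Measure.infinitePi (fun n => biased (Q n))),
      Tendsto (fun n : ℕ => (∑ p ∈ range n, ind (Ev (TU Q) 1 p) ω) / n) atTop (𝓝 1) := by
  set ν : ℕ → Measure ℕ := fun n => biased (Q n) with hν
  have e1 : ∀ p, ∏ i ∈ Ico p (p + 1), (ν i).real (TU Q p i) = (ν p).real {c | Q p / 2 ≤ c} := by
    intro p
    have : Ico p (p + 1) = {p} := by ext; simp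
    rw [this, prod_singleton]
    rfl
  have hlim : Tendsto (fun p => (ν p).real {c | Q p / 2 ≤ c}) atTop (𝓝 1) :=
    upper_tendsto Q hQt hQ
  have hces := hlim.cesaro
  have hratio : Tendsto (fun n : ℕ => (∑ p ∈ range n, ∏ i ∈ Ico p (p + 1),
      (ν i).real (TU Q p i)) / (n : ℝ)) atTop (𝓝 1) := by
    refine hces.congr fun n => ?_
    simp only [e1]
    rw [div_eq_inv_mul]
  have hn : Tendsto (fun n : ℕ => (n : ℝ)) atTop atTop := tendsto_natCast_atTop_atTop
  have hM := tendsto_of_ratio_one hratio hn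
  filter_upwards [ev_lln ν (TU Q) 1 hM] with ω hω
  exact ratio_trans hω hratio hM

/-- **Q1.** -/
theorem q1 (Q : ℕ → ℕ) (hQ : ∀ n, 1 ≤ n → 2 ≤ Q n) (hQt : Tendsto Q atTop atTop)
    (hw : FullyDivergent Q) : dimH (Normal Q \ DN Q) = 1 := by
  have hν : ∀ c : ℕ, ∀ᶠ n in atTop, (biased (Q n)).real {c} = ((Q n : ℝ))⁻¹ := by
    intro c
    filter_upwards [hQt.eventually_ge_atTop ((c + 1) * (c + 1)), eventually_ge_atTop 1] with n hn h1
    exact biased_singleton _ _ (hQ n h1) (Nat.le_sqrt.2 hn)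
  have hν2 : ∀ᶠ n in atTop, 1 / 2 ≤ (biased (Q n)).real {c | Q n / 2 ≤ c} :=
    ((upper_tendsto Q hQt hQ).eventually_const_lt (by norm_num : (1 / 2 : ℝ) < 1)).mono
      fun n hn => hn.le
  have hgood := ae_good (fun n => biased (Q n)) Q (fun n hn => biased_lt _ (hQ n hn)) hν hν2
  have herase : ∀ ω : ℕ → ℕ, eraseZ Q ω (fun _ _ => False) = ω := by
    intro ω
    funext n
    unfold eraseZ
    rw [if_neg]
    rintro ⟨t, s, h, -⟩
    exact h
  apply Pool.Agent.V11309.PushForward.dimH_of_ae (fun n => biased (Q n)) hQ hQt 2 (by norm_num)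
    (fun n hn c => biased_le (Q n) c (hQ n hn)) (fun ω => ω) (fun n => measurable_pi_apply n)
    (fun ω n => Or.inl rfl)
  · filter_upwards [hgood] with ω hω
    exact hω.dig
  · filter_upwards [hgood] with ω hω
    have := infinitely_often hQt hω (fun _ _ => False) (hw 1 le_rfl)
    rwa [herase] at this
  · filter_upwards [hgood, ae_large Q hQ hQt] with ω hω hL
    have hinf := infinitely_often hQt hω (fun _ _ => False) (hw 1 le_rfl)
    rw [herase] at hinf
    refine ⟨fun k hk => ?_, fun hDN => ?_⟩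
    · have h1 := mem_iff hQ hQt hω (fun _ _ => False) (hw 1 le_rfl) k 1 0
      rw [herase] at h1
      exact h1.2 fun B => hω.norm k hk B 1 0 (hw k hk)
    · have h1 := hDN 0 (1 / 4) le_rfl (by norm_num) (by norm_num)
      classical
      -- the counts
      have h2 : ∀ N : ℕ, (((range N).filter fun n => 0 ≤ Int.fract ((∏ i ∈ Icc 1 n, (Q i : ℝ)) *
          xx Q ω) ∧ Int.fract ((∏ i ∈ Icc 1 n, (Q i : ℝ)) * xx Q ω) < 1 / 4).card : ℝ) ≤
          (N + 1 : ℕ) - ∑ p ∈ range (N + 1), ind (Ev (TU Q) 1 p) ω := by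
        intro N
        have e : ∑ p ∈ range (N + 1), ind (Ev (TU Q) 1 p) ω =
            (((range (N + 1)).filter fun p => Q p / 2 ≤ ω p).card : ℝ) := by
          rw [card_eq_sum_ones, sum_filter]
          push_cast
          apply sum_congr rfl
          intro p _
          unfold ind
          rw [Set.indicator_apply]
          simp only [mem_ev_TU]
        rw [e]
        have h3 : ((range N).filter fun n => 0 ≤ Int.fract ((∏ i ∈ Icc 1 n, (Q i : ℝ)) *
            xx Q ω) ∧ Int.fract ((∏ i ∈ Icc 1 n, (Q i : ℝ)) * xx Q ω) < 1 / 4).card ≤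
            ((range (N + 1)).filter fun p => ¬ Q p / 2 ≤ ω p).card := by
          apply card_le_card_of_injOn (fun n => n + 1)
          · intro n hn
            simp only [coe_filter, mem_range, Set.mem_ofPred_eq] at hn ⊢
            refine ⟨by omega, fun h => ?_⟩
            have := fract_ge hQ hω.dig hinf n h
            linarith [hn.2.2]
          · intro a _ b _ h
            simpa using h
        have h4 := card_filter_add_card_filter_not (s := range (N + 1))
          (fun p => Q p / 2 ≤ ω p)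
        rw [card_range] at h4
        have h5 : (((range (N + 1)).filter fun p => Q p / 2 ≤ ω p).card : ℝ) +
            (((range (N + 1)).filter fun p => ¬ Q p / 2 ≤ ω p).card : ℝ) = ((N + 1 : ℕ) : ℝ) := by
          exact_mod_cast h4
        have h6 : (((range N).filter fun n => 0 ≤ Int.fract ((∏ i ∈ Icc 1 n, (Q i : ℝ)) *
            xx Q ω) ∧ Int.fract ((∏ i ∈ Icc 1 n, (Q i : ℝ)) * xx Q ω) < 1 / 4).card : ℝ) ≤
            (((range (N + 1)).filter fun p => ¬ Q p / 2 ≤ ω p).card : ℝ) := by exact_mod_cast h3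
        linarith
      have h3 : Tendsto (fun N : ℕ => (((N + 1 : ℕ) : ℝ) - ∑ p ∈ range (N + 1),
          ind (Ev (TU Q) 1 p) ω) / ((N + 1 : ℕ) : ℝ) * (((N + 1 : ℕ) : ℝ) / N)) atTop
          (𝓝 ((1 - 1) * 1)) := by
        apply Tendsto.mul
        · have h4 := (hL.comp (tendsto_add_atTop_nat 1)).const_sub 1
          refine h4.congr fun N => ?_
          simp only [Function.comp]
          have : ((N + 1 : ℕ) : ℝ) ≠ 0 := by positivity
          field_simp
        · have h4 : Tendsto (fun N : ℕ => 1 + 1 / (N : ℝ)) atTop (𝓝 (1 + 0)) :=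
            (tendsto_one_div_atTop_nhds_zero_nat).const_add 1
          rw [add_zero] at h4
          refine h4.congr' ?_
          filter_upwards [eventually_gt_atTop 0] with N hN
          have : (N : ℝ) ≠ 0 := by positivity
          push_cast
          field_simp
      have h4 : Tendsto (fun N : ℕ => (((range N).filter fun n => 0 ≤ Int.fract ((∏ i ∈ Icc 1 n,
          (Q i : ℝ)) * xx Q ω) ∧ Int.fract ((∏ i ∈ Icc 1 n, (Q i : ℝ)) * xx Q ω) < 1 / 4).card : ℝ)
          / N) atTop (𝓝 0) := by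
        norm_num at h3
        refine squeeze_zero' (Eventually.of_forall fun N => by positivity) ?_ h3
        filter_upwards [eventually_gt_atTop 0] with N hN
        have hN0 : (0 : ℝ) < N := by exact_mod_cast hN
        have h5 := h2 N
        have h6 : (0 : ℝ) < (N : ℝ) + 1 := by positivity
        rw [div_mul_div_cancel₀ h6.ne']
        push_cast at h5
        exact div_le_div_of_nonneg_right h5 hN0.le
      have h5 : (0 : ℝ) = 1 / 4 - 0 := by
        refine tendsto_nhds_unique h4 ?_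
        convert h1
      norm_num at h5

end Pool.Agent.V11309.DimQ1
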