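import Mathlib
import Pool.Agent.V11309.PushForward
import Pool.Agent.V11309.DimQ1
import Pool.Agent.V11309.EraseNormal

/-! Full Hausdorff dimension of the set of the numbers with a prescribed set of orders of
`Q`-normality. -/

set_option autoImplicit false

namespace Pool.Agent.V11309.DimQ2

open Filter Topology Finset MeasureTheory
open Pool.Agent.V11309.Cantor Pool.Agent.V11309.Erase
open Pool.Agent.V11309.EraseNormal Pool.Agent.V11309.IsoLln Pool.Agent.V11309.Normality
open Pool.Agent.V11309.FromDigits
open Pool.Agent.V11309.DimQ1 (FullyDivergent)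

/-- `N_k(Q)`: the set of the real numbers which are `Q`-normal of order `k`. -/
def NOrder (Q : ℕ → ℕ) (k : ℕ) : Set ℝ := NormalAP Q k 1 0

lemma measurable_coord (j : ℕ) (p : ℕ → Prop) : Measurable fun ω : ℕ → ℕ => p (ω j) :=
  (measurable_from_top (f := p)).comp (measurable_pi_apply j)

lemma measurable_iso (Q : ℕ → ℕ) (t s : ℕ) : Measurable fun ω : ℕ → ℕ => Iso Q ω t s := by
  unfold Iso
  refine (measurable_const).and ((measurable_coord (s - 1) (fun c => Q (s - 1) / 2 ≤ c)).and
    (Measurable.and ?_ (measurable_coord (s + t) (fun c => Q (s + t) / 2 ≤ c))))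
  refine Measurable.forall fun i => ?_
  exact measurable_const.imp (measurable_const.imp (measurable_coord i (fun c => c = 0)))

lemma measurable_changed (Q : ℕ → ℕ) (L : ℕ → ℕ → Prop) (n : ℕ) :
    Measurable fun ω : ℕ → ℕ => Changed Q ω L n := by
  unfold Changed
  refine Measurable.exists fun t => Measurable.exists fun s => ?_
  exact measurable_const.and (measurable_const.and (measurable_const.and (measurable_iso Q t s)))

lemma measurable_eraseZ (Q : ℕ → ℕ) (L : ℕ → ℕ → Prop) (n : ℕ) :
    Measurable fun ω : ℕ → ℕ => eraseZ Q ω L n := by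
  classical
  unfold eraseZ
  exact Measurable.ite (measurableSet_setOfPred.2 (measurable_changed Q L n)) measurable_const
    (measurable_pi_apply n)

lemma eraseZ_or (Q : ℕ → ℕ) (L : ℕ → ℕ → Prop) (ω : ℕ → ℕ) (n : ℕ) :
    eraseZ Q ω L n = ω n ∨ ω n = 0 := by
  unfold eraseZ
  split_ifs with h
  · obtain ⟨t, s, -, hs1, hs2, hI⟩ := h
    exact Or.inr (hI.2.2.1 n hs1 hs2)
  · exact Or.inl rfl

lemma unif_le (q : ℕ) (hq : 1 ≤ q) (c : ℕ) : (unif q) {c} ≤ ENNReal.ofReal (1 / q) := by
  by_cases hc : c < q
  · have h := unif_singleton q c hc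
    rw [measureReal_def] at h
    rw [one_div, ← h, ENNReal.ofReal_toReal (measure_ne_top _ _)]
  · have h := unif_lt q hq
    rw [ae_iff] at h
    have : (unif q) {c} = 0 := by
      refine measure_mono_null ?_ h
      intro d hd
      rw [Set.mem_singleton_iff] at hd
      rw [hd]
      exact hc
    rw [this]
    exact bot_le

/-- **Prescribed orders, full dimension.** For every basic sequence which is infinite in limit and
fully divergent, and for every set `L` of orders, the set of the real numbers which are `Q`-normal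
exactly of the orders outside of `L` has Hausdorff dimension `1`. Hence Q2 holds. -/
theorem q2 (Q : ℕ → ℕ) (hQ : ∀ n, 1 ≤ n → 2 ≤ Q n) (hQt : Tendsto Q atTop atTop)
    (hw : FullyDivergent Q) :
    (∀ L : Set ℕ, dimH {x : ℝ | ∀ k, 1 ≤ k → (x ∈ NOrder Q k ↔ k ∉ L)} = 1) ∧
    (∀ l : ℕ, 1 ≤ l → dimH ((⋂ j ∈ Set.Ici l, NOrder Q j) \ ⋃ j ∈ Set.Ico 1 l, NOrder Q j) = 1) := by
  have main : ∀ L : Set ℕ, dimH {x : ℝ | ∀ k, 1 ≤ k → (x ∈ NOrder Q k ↔ k ∉ L)} = 1 := by
    intro L
    have hgood := ae_good (fun n => unif (Q n)) Q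
      (fun n hn => unif_lt _ (by have := hQ n hn; omega))
      (fun c => by
        filter_upwards [hQt.eventually_gt_atTop c] with n hn
        exact unif_singleton _ _ hn)
      (by
        filter_upwards [eventually_ge_atTop 1] with n hn
        exact unif_upper _ (by have := hQ n hn; omega))
    apply Pool.Agent.V11309.PushForward.dimH_of_ae (fun n => unif (Q n)) hQ hQt 1 le_rfl
      (fun n hn c => unif_le (Q n) (by have := hQ n hn; omega) c)
      (fun ω => eraseZ Q ω (fun t _ => t ∈ L))
      (fun n => measurable_eraseZ Q _ n) (fun ω n => eraseZ_or Q _ ω n)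
    · filter_upwards [hgood] with ω hω
      exact erase_lt hQ hω.dig
    · filter_upwards [hgood] with ω hω
      exact infinitely_often hQt hω _ (hw 1 le_rfl)
    · filter_upwards [hgood] with ω hω
      exact fun k hk => orders hQ hQt hw hω L k hk
  refine ⟨main, fun l hl => ?_⟩
  rw [← main (Set.Iio l)]
  congr 1
  ext x
  simp only [Set.mem_sdiff, Set.mem_iInter, Set.mem_iUnion, Set.mem_Ici, Set.mem_Ico,
    Set.mem_Iio, Set.mem_ofPred_eq, not_exists, not_lt]
  constructor
  · rintro ⟨h1, h2⟩ k hk
    constructor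
    · intro hx
      by_contra hcon
      push Not at hcon
      exact h2 k ⟨hk, hcon⟩ hx
    · exact fun h => h1 k h
  · intro h
    refine ⟨fun k hk => (h k (by omega)).2 hk, fun k hk hx => ?_⟩
    have := (h k hk.1).1 hx
    omega

end Pool.Agent.V11309.DimQ2
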